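import Mathlib

-- ======== part 0: formerly Pool.Agent.MP_54e5d7_al.Basic
section MrgPart0

/-!
Square-summable functions on a set, coordinate operators, orthogonal projections.
-/

set_option autoImplicit false

open scoped InnerProductSpace
open Classical ContinuousLinearMap

noncomputable section
namespace Pool.Agent.MP_54e5d7_al

/-- The Hilbert space of square-summable complex functions on `Ω`. -/
def L2 (Ω : Type) : Type := lp (fun _ : Ω => ℂ) 2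

instance (Ω : Type) : NormedAddCommGroup (L2 Ω) :=
  inferInstanceAs (NormedAddCommGroup (lp (fun _ : Ω => ℂ) 2))
instance (Ω : Type) : InnerProductSpace ℂ (L2 Ω) :=
  inferInstanceAs (InnerProductSpace ℂ (lp (fun _ : Ω => ℂ) 2))
instance (Ω : Type) : CompleteSpace (L2 Ω) :=
  inferInstanceAs (CompleteSpace (lp (fun _ : Ω => ℂ) 2))

/-- Closed subspaces. -/
abbrev CS (Ω : Type) := ClosedSubmodule ℂ (L2 Ω)

variable {Ω Ω' Ω'' Λ : Type}

/-- Evaluation at a point. -/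
def ev (ω : Ω) : L2 Ω →L[ℂ] ℂ := lp.evalCLM ℂ (fun _ : Ω => ℂ) 2 ω

/-- The unit vector at a point. -/
def dl (ω : Ω) : L2 Ω := (lp.single 2 ω (1 : ℂ) : lp (fun _ : Ω => ℂ) 2)

lemma ev_def (ω : Ω) (ξ : lp (fun _ : Ω => ℂ) 2) : ev ω (ξ : L2 Ω) = ξ ω := rfl

lemma dl_def (ω : Ω) : dl ω = (lp.single 2 ω (1 : ℂ) : lp (fun _ : Ω => ℂ) 2) := rfl

lemma L2.ext {ξ η : L2 Ω} (h : ∀ ω, ev ω ξ = ev ω η) : ξ = η :=
  lp.ext (funext h)

lemma ev_dl (ω ω' : Ω) : ev ω (dl ω') = if ω = ω' then 1 else 0 := by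
  change (Pi.single ω' (1 : ℂ) : Ω → ℂ) ω = _
  simp [Pi.single_apply]

@[simp] lemma ev_dl_self (ω : Ω) : ev ω (dl ω) = 1 := by simp [ev_dl]

lemma ev_dl_ne {ω ω' : Ω} (h : ω ≠ ω') : ev ω (dl ω') = 0 := by simp [ev_dl, h]

lemma eq_of_ev_dl {ω ω' : Ω} (h : ev ω (dl ω') ≠ 0) : ω = ω' := by
  by_contra h'; exact h (ev_dl_ne h')

lemma inner_dl (ω : Ω) (ξ : L2 Ω) : ⟪dl ω, ξ⟫_ℂ = ev ω ξ := by
  have := lp.inner_single_left (𝕜 := ℂ) (G := fun _ : Ω => ℂ) ω (1 : ℂ) ξ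
  refine this.trans ?_
  simp [ev_def]

lemma inner_dl_right (ω : Ω) (ξ : L2 Ω) : ⟪ξ, dl ω⟫_ℂ = (starRingEnd ℂ) (ev ω ξ) := by
  rw [← inner_conj_symm, inner_dl]

lemma hasSum_dl (ξ : L2 Ω) : HasSum (fun ω => ev ω ξ • dl ω) ξ := by
  have h0 : HasSum (fun ω => (show L2 Ω from lp.single 2 ω (ev ω ξ))) ξ :=
    lp.hasSum_single (E := fun _ : Ω => ℂ) (p := 2) (by simp) ξ
  have : (fun ω => ev ω ξ • dl ω) = fun ω => (show L2 Ω from lp.single 2 ω (ev ω ξ)) := by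
    funext ω
    apply L2.ext
    intro ω'
    rw [map_smul, ev_dl]
    change _ = (Pi.single ω (ev ω ξ) : Ω → ℂ) ω'
    by_cases h : ω' = ω <;> simp [h]
  rw [this]; exact h0

lemma norm_dl (ω : Ω) : ‖dl ω‖ = 1 := by
  have := lp.norm_single (E := fun _ : Ω => ℂ) (p := 2) (by simp) ω (1 : ℂ)
  rw [norm_one] at this
  exact this

lemma hasSum_norm_sq (ξ : L2 Ω) : HasSum (fun ω => ‖ev ω ξ‖ ^ 2) (‖ξ‖ ^ 2) := by
  have := lp.hasSum_norm (E := fun _ : Ω => ℂ) (p := 2) (by simp) ξ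
  simp only [ENNReal.toReal_ofNat, Real.rpow_ofNat] at this
  exact this

lemma op_ext {E : Type} [NormedAddCommGroup E] [NormedSpace ℂ E] {S T : L2 Ω →L[ℂ] E}
    (h : ∀ ω, S (dl ω) = T (dl ω)) : S = T := by
  ext ξ
  have h1 := (hasSum_dl ξ).mapL S
  have h2 := (hasSum_dl ξ).mapL T
  simp only [map_smul, h] at h1 h2
  exact h1.unique h2

lemma hasSum_ev_op (T : L2 Ω →L[ℂ] L2 Ω') (ξ : L2 Ω) (ω' : Ω') :
    HasSum (fun ω => ev ω ξ * ev ω' (T (dl ω))) (ev ω' (T ξ)) := by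
  have h1 := ((hasSum_dl ξ).mapL T).mapL (ev ω')
  simpa only [map_smul, smul_eq_mul] using h1

lemma exists_entry {T : L2 Ω →L[ℂ] L2 Ω'} {ξ : L2 Ω} {ω' : Ω'} (h : ev ω' (T ξ) ≠ 0) :
    ∃ ω, ev ω ξ ≠ 0 ∧ ev ω' (T (dl ω)) ≠ 0 := by
  by_contra hc
  push Not at hc
  have h1 := hasSum_ev_op T ξ ω'
  have : (fun ω => ev ω ξ * ev ω' (T (dl ω))) = fun _ => 0 := by
    funext ω
    by_cases h0 : ev ω ξ = 0
    · simp [h0]
    · simp [hc ω h0]
  rw [this] at h1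
  exact h (h1.unique hasSum_zero)

/-- A square-summable function as a vector. -/
def mkL2 (f : Ω → ℂ) (hf : Summable fun ω => ‖f ω‖ ^ 2) : L2 Ω :=
  (⟨f, memℓp_gen (by simpa using hf)⟩ : lp (fun _ : Ω => ℂ) 2)

@[simp] lemma ev_mkL2 (f : Ω → ℂ) (hf : Summable fun ω => ‖f ω‖ ^ 2) (ω : Ω) :
    ev ω (mkL2 f hf) = f ω := rfl

/-- Restriction of functions along an injection. -/
def pull (j : Ω' ↪ Ω) : L2 Ω →L[ℂ] L2 Ω' :=
  LinearMap.mkContinuous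
    { toFun := fun ξ => mkL2 (fun ω' => ev (j ω') ξ)
        ((hasSum_norm_sq ξ).summable.comp_injective j.injective)
      map_add' := fun ξ η => L2.ext fun ω => by simp
      map_smul' := fun c ξ => L2.ext fun ω => by simp } 1 (fun ξ => by
    rw [one_mul]
    refine (sq_le_sq₀ (norm_nonneg _) (norm_nonneg _)).1 ?_
    rw [← (hasSum_norm_sq _).tsum_eq, ← (hasSum_norm_sq ξ).tsum_eq]
    exact tsum_comp_le_tsum_of_inj (f := fun ω => ‖ev ω ξ‖ ^ 2) (hasSum_norm_sq ξ).summable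
      (fun _ => sq_nonneg _) j.injective)

@[simp] lemma ev_pull (j : Ω' ↪ Ω) (ξ : L2 Ω) (ω' : Ω') : ev ω' (pull j ξ) = ev (j ω') ξ := rfl

/-- Extension by zero along an injection. -/
def push (j : Ω' ↪ Ω) : L2 Ω' →L[ℂ] L2 Ω := adjoint (pull j)

lemma adjoint_pull (j : Ω' ↪ Ω) : adjoint (pull j) = push j := rfl
lemma adjoint_push (j : Ω' ↪ Ω) : adjoint (push j) = pull j := adjoint_adjoint _

lemma pull_dl (j : Ω' ↪ Ω) (ω' : Ω') : pull j (dl (j ω')) = dl ω' :=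
  L2.ext fun ω => by simp [ev_dl]

lemma pull_dl_of_not_mem (j : Ω' ↪ Ω) {ω : Ω} (h : ω ∉ Set.range j) : pull j (dl ω) = 0 :=
  L2.ext fun ω' => by
    rw [ev_pull, map_zero, ev_dl_ne]
    rintro rfl; exact h ⟨_, rfl⟩

@[simp] lemma ev_push (j : Ω' ↪ Ω) (ξ : L2 Ω') (ω' : Ω') : ev (j ω') (push j ξ) = ev ω' ξ := by
  rw [← inner_dl, push, adjoint_inner_right, pull_dl, inner_dl]

lemma ev_push_of_not_mem (j : Ω' ↪ Ω) (ξ : L2 Ω') {ω : Ω} (h : ω ∉ Set.range j) :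
    ev ω (push j ξ) = 0 := by
  rw [← inner_dl, push, adjoint_inner_right, pull_dl_of_not_mem j h, inner_zero_left]

lemma mem_range_of_ev_push {j : Ω' ↪ Ω} {ξ : L2 Ω'} {ω : Ω} (h : ev ω (push j ξ) ≠ 0) :
    ∃ ω', j ω' = ω ∧ ev ω' ξ ≠ 0 := by
  by_cases h' : ω ∈ Set.range j
  · obtain ⟨ω', rfl⟩ := h'
    exact ⟨ω', rfl, by simpa using h⟩
  · exact absurd (ev_push_of_not_mem j ξ h') h

@[simp] lemma pull_push (j : Ω' ↪ Ω) (ξ : L2 Ω') : pull j (push j ξ) = ξ :=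
  L2.ext fun ω => by simp

lemma push_dl (j : Ω' ↪ Ω) (ω' : Ω') : push j (dl ω') = dl (j ω') :=
  L2.ext fun ω => by
    by_cases h : ω ∈ Set.range j
    · obtain ⟨x, rfl⟩ := h
      simp [ev_dl]
    · rw [ev_push_of_not_mem j _ h, ev_dl_ne]
      rintro rfl; exact h ⟨_, rfl⟩

lemma norm_push (j : Ω' ↪ Ω) (ξ : L2 Ω') : ‖push j ξ‖ = ‖ξ‖ := by
  have h1 : ⟪push j ξ, push j ξ⟫_ℂ = ⟪ξ, ξ⟫_ℂ := by
    conv_lhs => rw [push, adjoint_inner_right, adjoint_pull, pull_push]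
  rw [inner_self_eq_norm_sq_to_K, inner_self_eq_norm_sq_to_K] at h1
  have h2 : ‖push j ξ‖ ^ 2 = ‖ξ‖ ^ 2 := by exact_mod_cast h1
  exact (sq_eq_sq₀ (norm_nonneg _) (norm_nonneg _)).1 h2

lemma push_eq_zero {j : Ω' ↪ Ω} {ξ : L2 Ω'} : push j ξ = 0 ↔ ξ = 0 := by
  rw [← norm_eq_zero, norm_push, norm_eq_zero]

lemma pull_pull (j : Ω' ↪ Ω) (i : Ω'' ↪ Ω') (ξ : L2 Ω) :
    pull i (pull j ξ) = pull (i.trans j) ξ := L2.ext fun _ => rfl

lemma push_push (j : Ω' ↪ Ω) (i : Ω'' ↪ Ω') (ξ : L2 Ω'') :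
    push j (push i ξ) = push (i.trans j) ξ := by
  have : push j ∘L push i = push (i.trans j) := op_ext fun ω => by simp [push_dl]
  exact congr($this ξ)

lemma pull_push_of_disjoint (j : Ω' ↪ Ω) (i : Ω'' ↪ Ω) (h : ∀ a b, j a ≠ i b) (ξ : L2 Ω'') :
    pull j (push i ξ) = 0 :=
  L2.ext fun ω => by
    rw [ev_pull, map_zero, ev_push_of_not_mem]
    rintro ⟨b, hb⟩; exact h _ _ hb.symm

lemma push_equiv (e : Ω' ≃ Ω) : push e.toEmbedding = pull e.symm.toEmbedding :=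
  op_ext fun ω => L2.ext fun ω' => by
    rw [push_dl, ev_pull, ev_dl, ev_dl]
    simp [Equiv.symm_apply_eq]

/-- Coordinate projection onto the functions supported in `S`. -/
def P (S : Set Ω) : L2 Ω →L[ℂ] L2 Ω :=
  push (Function.Embedding.subtype (· ∈ S)) ∘L pull (Function.Embedding.subtype (· ∈ S))

lemma ev_P (S : Set Ω) (ξ : L2 Ω) (ω : Ω) : ev ω (P S ξ) = if ω ∈ S then ev ω ξ else 0 := by
  rw [P, comp_apply]
  split_ifs with h
  · exact ev_push (Function.Embedding.subtype (· ∈ S)) _ ⟨ω, h⟩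
  · refine ev_push_of_not_mem _ _ ?_
    rintro ⟨x, rfl⟩; exact h x.2

lemma ev_P_of_mem {S : Set Ω} (ξ : L2 Ω) {ω : Ω} (h : ω ∈ S) : ev ω (P S ξ) = ev ω ξ := by
  simp [ev_P, h]

lemma ev_P_of_not_mem {S : Set Ω} (ξ : L2 Ω) {ω : Ω} (h : ω ∉ S) : ev ω (P S ξ) = 0 := by
  simp [ev_P, h]

lemma adjoint_P (S : Set Ω) : adjoint (P S) = P S := by
  rw [P, adjoint_comp, adjoint_push, adjoint_pull]

lemma P_P (S S' : Set Ω) (ξ : L2 Ω) : P S (P S' ξ) = P (S ∩ S') ξ :=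
  L2.ext fun ω => by
    simp only [ev_P, Set.mem_inter_iff]
    by_cases h : ω ∈ S <;> by_cases h' : ω ∈ S' <;> simp [h, h']

lemma P_univ (ξ : L2 Ω) : P Set.univ ξ = ξ := L2.ext fun ω => by simp [ev_P]
lemma P_empty (ξ : L2 Ω) : P ∅ ξ = 0 := L2.ext fun ω => by simp [ev_P]

lemma P_dl (S : Set Ω) (ω : Ω) : P S (dl ω) = if ω ∈ S then dl ω else 0 :=
  L2.ext fun ω' => by
    rw [ev_P]
    by_cases h : ω' = ω
    · subst h; split_ifs <;> simp
    · split_ifs <;> simp [ev_dl_ne h]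

lemma push_pull (j : Ω' ↪ Ω) (ξ : L2 Ω) : push j (pull j ξ) = P (Set.range j) ξ :=
  L2.ext fun ω => by
    rw [ev_P]
    split_ifs with h
    · obtain ⟨x, rfl⟩ := h; simp
    · exact ev_push_of_not_mem _ _ h

lemma pull_P (j : Ω' ↪ Ω) (S : Set Ω) (ξ : L2 Ω) : pull j (P S ξ) = P (j ⁻¹' S) (pull j ξ) :=
  L2.ext fun ω => by simp [ev_P]

lemma P_push (j : Ω' ↪ Ω) (S : Set Ω) (ξ : L2 Ω') : P S (push j ξ) = push j (P (j ⁻¹' S) ξ) :=
  L2.ext fun ω => by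
    by_cases h : ω ∈ Set.range j
    · obtain ⟨x, rfl⟩ := h; simp [ev_P]
    · simp [ev_P, ev_push_of_not_mem _ _ h]

attribute [irreducible] P push pull mkL2 dl ev

/-- Orthogonal projection onto a closed subspace. -/
def pr (V : CS Ω) : L2 Ω →L[ℂ] L2 Ω := V.toSubmodule.starProjection

lemma pr_mem (V : CS Ω) (ξ : L2 Ω) : pr V ξ ∈ V := V.toSubmodule.starProjection_apply_mem ξ

lemma pr_eq_self {V : CS Ω} {ξ : L2 Ω} : pr V ξ = ξ ↔ ξ ∈ V :=
  Submodule.starProjection_eq_self_iff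

lemma pr_inner (V : CS Ω) (ξ : L2 Ω) {η : L2 Ω} (h : η ∈ V) : ⟪ξ - pr V ξ, η⟫_ℂ = 0 :=
  Submodule.starProjection_inner_eq_zero ξ η h

lemma pr_eq {V : CS Ω} {ξ v : L2 Ω} (hv : v ∈ V) (h : ∀ w ∈ V, ⟪ξ - v, w⟫_ℂ = 0) :
    pr V ξ = v := Submodule.eq_starProjection_of_mem_of_inner_eq_zero hv h

lemma adjoint_pr (V : CS Ω) : adjoint (pr V) = pr V :=
  ((eq_adjoint_iff _ _).2 fun x y => Submodule.inner_starProjection_left_eq_right _ x y).symm

lemma pr_orth (V : CS Ω) (ξ : L2 Ω) : pr Vᗮ ξ = ξ - pr V ξ :=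
  Submodule.starProjection_orthogonal_val (K := V.toSubmodule) ξ

lemma pr_eq_zero {V : CS Ω} {ξ : L2 Ω} : pr V ξ = 0 ↔ ξ ∈ Vᗮ :=
  Submodule.starProjection_apply_eq_zero_iff (K := V.toSubmodule)

lemma pr_comm {U : L2 Ω →L[ℂ] L2 Ω'} {V : CS Ω} {W : CS Ω'} (h1 : ∀ ξ ∈ V, U ξ ∈ W)
    (h2 : ∀ η ∈ W, adjoint U η ∈ V) (ξ : L2 Ω) : pr W (U ξ) = U (pr V ξ) := by
  apply pr_eq (h1 _ (pr_mem V ξ))
  intro w hw
  rw [← map_sub, ← adjoint_inner_right]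
  exact pr_inner V ξ (h2 w hw)

lemma ev_pr_dl (V : CS Ω) (ω : Ω) : ev ω (pr V (dl ω)) = ((‖pr V (dl ω)‖ ^ 2 : ℝ) : ℂ) := by
  have h := pr_inner V (dl ω) (pr_mem V (dl ω))
  rw [inner_sub_left, inner_dl, inner_self_eq_norm_sq_to_K, sub_eq_zero] at h
  rw [h]; push_cast; rfl

attribute [irreducible] pr

/-- Kernel of an operator as a closed subspace. -/
def kr (T : L2 Ω →L[ℂ] L2 Ω') : CS Ω := ClosedSubmodule.comap T ⊥

@[simp] lemma mem_kr {T : L2 Ω →L[ℂ] L2 Ω'} {ξ : L2 Ω} : ξ ∈ kr T ↔ T ξ = 0 := Iff.rfl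

lemma map_le {T : L2 Ω →L[ℂ] L2 Ω'} {V : CS Ω} {W : CS Ω'} :
    V.map T ≤ W ↔ ∀ ξ ∈ V, T ξ ∈ W := ClosedSubmodule.map_le_iff_le_comap

lemma mem_map {T : L2 Ω →L[ℂ] L2 Ω'} {V : CS Ω} {ξ : L2 Ω} (h : ξ ∈ V) : T ξ ∈ V.map T :=
  map_le.1 le_rfl ξ h

lemma map_mono (T : L2 Ω →L[ℂ] L2 Ω') {V W : CS Ω} (h : V ≤ W) : V.map T ≤ W.map T :=
  ClosedSubmodule.gc_map_comap.monotone_l h

lemma comap_mono (T : L2 Ω →L[ℂ] L2 Ω') {V W : CS Ω'} (h : V ≤ W) : V.comap T ≤ W.comap T :=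
  ClosedSubmodule.gc_map_comap.monotone_u h

lemma map_map (T : L2 Ω →L[ℂ] L2 Ω') (S : L2 Ω' →L[ℂ] L2 Ω'') (V : CS Ω) :
    (V.map T).map S = V.map (S ∘L T) := by
  apply le_antisymm
  · rw [ClosedSubmodule.map_le_iff_le_comap, map_le]
    intro ξ h; exact mem_map (T := S ∘L T) h
  · rw [map_le]; intro ξ h; exact mem_map (mem_map h)

lemma map_sup (T : L2 Ω →L[ℂ] L2 Ω') (V W : CS Ω) : (V ⊔ W).map T = V.map T ⊔ W.map T :=
  ClosedSubmodule.gc_map_comap.l_sup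

lemma map_iSup {ι : Sort*} (T : L2 Ω →L[ℂ] L2 Ω') (V : ι → CS Ω) :
    (⨆ i, V i).map T = ⨆ i, (V i).map T := ClosedSubmodule.gc_map_comap.l_iSup

lemma map_bot (T : L2 Ω →L[ℂ] L2 Ω') : (⊥ : CS Ω).map T = ⊥ := ClosedSubmodule.gc_map_comap.l_bot

lemma map_congr {S T : L2 Ω →L[ℂ] L2 Ω'} {V : CS Ω} (h : ∀ ξ ∈ V, S ξ = T ξ) :
    V.map S = V.map T := by
  apply le_antisymm <;> rw [map_le] <;> intro ξ hξ
  · rw [h ξ hξ]; exact mem_map hξ
  · rw [← h ξ hξ]; exact mem_map hξ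

lemma map_eq_bot {T : L2 Ω →L[ℂ] L2 Ω'} {V : CS Ω} (h : ∀ ξ ∈ V, T ξ = 0) : V.map T = ⊥ :=
  le_bot_iff.1 (map_le.2 h)

lemma comap_inf (T : L2 Ω →L[ℂ] L2 Ω') (V W : CS Ω') :
    (V ⊓ W).comap T = V.comap T ⊓ W.comap T := rfl

lemma add_mem_sup {V W : CS Ω} {ξ η : L2 Ω} (h : ξ ∈ V) (h' : η ∈ W) : ξ + η ∈ V ⊔ W :=
  add_mem ((le_sup_left : V ≤ V ⊔ W) h) ((le_sup_right : W ≤ V ⊔ W) h')

lemma CS.sub_mem {V : CS Ω} {ξ η : L2 Ω} (h : ξ ∈ V) (h' : η ∈ V) : ξ - η ∈ V :=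
  V.toSubmodule.sub_mem h h'

lemma CS.neg_mem {V : CS Ω} {ξ : L2 Ω} (h : ξ ∈ V) : -ξ ∈ V :=
  V.toSubmodule.neg_mem h

lemma CS.smul_mem {V : CS Ω} (c : ℂ) {ξ : L2 Ω} (h : ξ ∈ V) : c • ξ ∈ V :=
  V.toSubmodule.smul_mem c h

lemma CS.ext' {V W : CS Ω} (h : ∀ ξ, ξ ∈ V ↔ ξ ∈ W) : V = W := SetLike.ext h

lemma mem_orth {V : CS Ω} {ξ : L2 Ω} : ξ ∈ Vᗮ ↔ ∀ η ∈ V, ⟪η, ξ⟫_ℂ = 0 := Iff.rfl

lemma orth_map_top (S : L2 Ω →L[ℂ] L2 Ω') : ((⊤ : CS Ω).map S)ᗮ = kr (adjoint S) := by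
  apply CS.ext'
  intro η
  rw [mem_orth, mem_kr]
  constructor
  · intro h
    apply L2.ext
    intro ω
    rw [← inner_dl, adjoint_inner_right, map_zero]
    exact h _ (mem_map trivial)
  · intro h
    have : (⊤ : CS Ω).map S ≤ ClosedSubmodule.comap (innerSL ℂ η) ⊥ := by
      rw [ClosedSubmodule.map_le_iff_le_comap]
      intro ξ _
      change ⟪η, S ξ⟫_ℂ = 0
      rw [← adjoint_inner_left, h, inner_zero_left]
    intro ζ hζ
    rw [inner_eq_zero_symm]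
    exact this hζ

/-- A closed subspace containing all the pieces of a vector along a partition contains it. -/
lemma mem_of_forall_P (l : Ω → Λ) {M : CS Ω} {ξ : L2 Ω}
    (h : ∀ x, P (l ⁻¹' {x}) ξ ∈ M) : ξ ∈ M := by
  have h1 : HasSum (fun p : Σ x, {ω // l ω = x} => ev p.2.1 ξ • dl p.2.1) ξ :=
    (Equiv.sigmaFiberEquiv l).hasSum_iff.2 (hasSum_dl ξ)
  have h2 : ∀ x, HasSum (fun ω : {ω // l ω = x} => ev ω.1 ξ • dl ω.1) (P (l ⁻¹' {x}) ξ) := by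
    intro x
    have h3 := hasSum_dl (P (l ⁻¹' {x}) ξ)
    have h4 : HasSum ((fun ω => ev ω (P (l ⁻¹' {x}) ξ) • dl ω) ∘ (Subtype.val : {ω // l ω = x} → Ω))
        (P (l ⁻¹' {x}) ξ) := by
      refine (Subtype.val_injective.hasSum_iff ?_).2 h3
      intro ω hω
      rw [ev_P_of_not_mem, zero_smul]
      intro h5; exact hω ⟨⟨ω, h5⟩, rfl⟩
    convert h4 using 2 with ω
    simp only [Function.comp]
    rw [ev_P_of_mem _ (show ω.1 ∈ l ⁻¹' {x} from ω.2)]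
  have h3 := h1.sigma h2
  exact M.isClosed.mem_of_tendsto h3 (Filter.Eventually.of_forall fun s =>
    M.toSubmodule.sum_mem fun x _ => h x)

end Pool.Agent.MP_54e5d7_al

end
end MrgPart0

-- ======== part 1: formerly Pool.Agent.MP_54e5d7_al.Dim
section MrgPart1

/-!
Von Neumann dimension for closed invariant subspaces of `L2 Ω`, `Ω` a free cofinite `H`-set.
-/

set_option autoImplicit false

open scoped InnerProductSpace
open Classical ContinuousLinearMap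

noncomputable section
namespace Pool.Agent.MP_54e5d7_al

variable {H : Type} [Group H] {Ω Ω' Ω'' : Type} [MulAction H Ω] [MulAction H Ω'] [MulAction H Ω'']

/-- The unitary induced by a group element. -/
def u (h : H) : L2 Ω →L[ℂ] L2 Ω := pull (MulAction.toPerm h⁻¹).toEmbedding

@[simp] lemma ev_u (h : H) (ξ : L2 Ω) (ω : Ω) : ev ω (u h ξ) = ev (h⁻¹ • ω) ξ := by
  simp [u]

lemma u_dl (h : H) (ω : Ω) : u h (dl ω) = dl (h • ω) :=
  L2.ext fun ω' => by simp [ev_dl, inv_smul_eq_iff]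

lemma u_eq_push (h : H) : (u h : L2 Ω →L[ℂ] L2 Ω) = push (MulAction.toPerm h).toEmbedding :=
  op_ext fun ω => by rw [u_dl, push_dl]; rfl

lemma adjoint_u (h : H) : adjoint (u h : L2 Ω →L[ℂ] L2 Ω) = u h⁻¹ := by
  rw [u, adjoint_pull, u_eq_push]

attribute [irreducible] u

lemma u_u (g h : H) (ξ : L2 Ω) : u g (u h ξ) = u (g * h) ξ :=
  L2.ext fun ω => by simp [mul_smul]

@[simp] lemma u_one (ξ : L2 Ω) : u (1 : H) ξ = ξ := L2.ext fun ω => by simp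

@[simp] lemma u_inv_u (h : H) (ξ : L2 Ω) : u h⁻¹ (u h ξ) = ξ := by simp [u_u]
@[simp] lemma u_u_inv (h : H) (ξ : L2 Ω) : u h (u h⁻¹ ξ) = ξ := by simp [u_u]

lemma norm_u (h : H) (ξ : L2 Ω) : ‖u h ξ‖ = ‖ξ‖ := by rw [u_eq_push, norm_push]

variable (H) in
/-- Equivariant operators. -/
def Eqop (T : L2 Ω →L[ℂ] L2 Ω') : Prop := ∀ (h : H) (ξ : L2 Ω), T (u h ξ) = u h (T ξ)

variable (H) in
/-- Invariant subspaces. -/
def Invt (V : CS Ω) : Prop := ∀ (h : H), ∀ ξ ∈ V, u h ξ ∈ V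

namespace Eqop
variable {S T : L2 Ω →L[ℂ] L2 Ω'}

lemma of_dl (h : ∀ (g : H) ω, T (dl (g • ω)) = u g (T (dl ω))) : Eqop H T := by
  intro g ξ
  have : T ∘L u g = u g ∘L T := op_ext fun ω => by simp [u_dl, h]
  exact congr($this ξ)

lemma entry (hT : Eqop H T) (g : H) (ω : Ω) (ω' : Ω') :
    ev (g • ω') (T (dl (g • ω))) = ev ω' (T (dl ω)) := by
  rw [← u_dl, hT, ev_u, inv_smul_smul]

lemma comp {R : L2 Ω' →L[ℂ] L2 Ω''} (hR : Eqop H R) (hT : Eqop H T) : Eqop H (R ∘L T) :=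
  fun g ξ => by simp [hT g, hR g]

lemma add (hS : Eqop H S) (hT : Eqop H T) : Eqop H (S + T) :=
  fun g ξ => by simp [hT g, hS g]

lemma sub (hS : Eqop H S) (hT : Eqop H T) : Eqop H (S - T) :=
  fun g ξ => by simp [hT g, hS g]

lemma smul (c : ℂ) (hT : Eqop H T) : Eqop H (c • T) :=
  fun g ξ => by simp [hT g]

lemma zero : Eqop H (0 : L2 Ω →L[ℂ] L2 Ω') := fun g ξ => by simp

lemma id : Eqop H (ContinuousLinearMap.id ℂ (L2 Ω)) := fun g ξ => by simp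

lemma one : Eqop H (1 : L2 Ω →L[ℂ] L2 Ω) := fun g ξ => by simp

lemma sum {ι : Type} (s : Finset ι) {T : ι → L2 Ω →L[ℂ] L2 Ω'} (h : ∀ i ∈ s, Eqop H (T i)) :
    Eqop H (∑ i ∈ s, T i) := fun g ξ => by
  simp only [sum_apply, map_sum]
  exact Finset.sum_congr rfl fun i hi => h i hi g ξ

lemma adj (hT : Eqop H T) : Eqop H (adjoint T) := by
  intro g ξ
  apply ext_inner_left ℂ
  intro v
  rw [adjoint_inner_right, ← adjoint_inner_left (u g), ← adjoint_inner_left (u g), adjoint_u,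
    adjoint_u, adjoint_inner_right, hT]

lemma pow {A : L2 Ω →L[ℂ] L2 Ω} (hA : Eqop H A) (n : ℕ) : Eqop H (A ^ n) := by
  induction n with
  | zero => simpa using one
  | succ n ih => rw [pow_succ]; exact ih.comp hA

lemma push {j : Ω ↪ Ω'} (hj : ∀ (g : H) ω, j (g • ω) = g • j ω) : Eqop H (push j) :=
  of_dl fun g ω => by rw [push_dl, push_dl, u_dl, hj]

lemma pull {j : Ω ↪ Ω'} (hj : ∀ (g : H) ω, j (g • ω) = g • j ω) : Eqop H (pull j) :=
  fun g ξ => L2.ext fun ω => by simp [hj]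

lemma P {S : Set Ω} (hS : ∀ (g : H) ω, g • ω ∈ S ↔ ω ∈ S) : Eqop H (P S) :=
  fun g ξ => L2.ext fun ω => by simp [ev_P, hS]

end Eqop

namespace Invt
variable {U V : CS Ω} {T : L2 Ω →L[ℂ] L2 Ω'}

lemma top : Invt H (⊤ : CS Ω) := fun _ _ _ => trivial
lemma bot : Invt H (⊥ : CS Ω) := fun g ξ h => by
  rw [ClosedSubmodule.mem_bot] at h ⊢; rw [h, map_zero]
lemma inf (hU : Invt H U) (hV : Invt H V) : Invt H (U ⊓ V) :=
  fun g ξ h => ⟨hU g ξ h.1, hV g ξ h.2⟩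
lemma iInf {ι : Sort*} {V : ι → CS Ω} (hV : ∀ i, Invt H (V i)) : Invt H (⨅ i, V i) :=
  fun g ξ h => ClosedSubmodule.mem_iInf.2 fun i => hV i g ξ (ClosedSubmodule.mem_iInf.1 h i)
lemma iSup {ι : Sort*} {V : ι → CS Ω} (hV : ∀ i, Invt H (V i)) : Invt H (⨆ i, V i) := fun g => by
  rw [← map_le, map_iSup]
  exact iSup_mono fun i => map_le.2 (hV i g)
lemma sup (hU : Invt H U) (hV : Invt H V) : Invt H (U ⊔ V) := fun g => by
  rw [← map_le, map_sup]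
  exact sup_le_sup (map_le.2 (hU g)) (map_le.2 (hV g))
lemma comap (hT : Eqop H T) {W : CS Ω'} (hW : Invt H W) : Invt H (W.comap T) := fun g ξ h => by
  rw [ClosedSubmodule.mem_comap, hT]; exact hW g _ h
lemma kr (hT : Eqop H T) : Invt H (kr T) := comap hT bot
lemma map (hT : Eqop H T) (hV : Invt H V) : Invt H (V.map T) := fun g => by
  rw [← map_le, map_map, map_le]
  intro ξ h
  rw [comp_apply, ← hT]; exact mem_map (hV g ξ h)
lemma pr (hV : Invt H V) : Eqop H (pr V) := fun g ξ =>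
  pr_comm (hV g) (by rw [adjoint_u]; exact hV g⁻¹) ξ
lemma orth (hV : Invt H V) : Invt H Vᗮ := fun g ξ h => by
  rw [← pr_eq_zero] at h ⊢; rw [hV.pr, h, map_zero]
lemma mem_iff (hV : Invt H V) (g : H) (ξ : L2 Ω) : u g ξ ∈ V ↔ ξ ∈ V :=
  ⟨fun h => by simpa using hV g⁻¹ _ h, hV g ξ⟩
lemma map_u (hV : Invt H V) (g : H) : V.map (u g) = V := by
  apply le_antisymm (map_le.2 (hV g))
  intro ξ h
  have := mem_map (T := u g) (hV g⁻¹ ξ h)
  simpa using this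

end Invt

variable (H Ω) in
/-- Free actions with finitely many orbits. -/
class FC : Prop where
  free : ∀ (h : H) (ω : Ω), h • ω = ω → h = 1
  fin : Finite (MulAction.orbitRel.Quotient H Ω)

variable (H Ω) in
/-- The set of orbits. -/
abbrev Q : Type := MulAction.orbitRel.Quotient H Ω

variable (H) in
/-- The orbit of a point. -/
def cls (ω : Ω) : Q H Ω := Quotient.mk _ ω

lemma cls_eq_iff {ω ω' : Ω} : cls H ω = cls H ω' ↔ ∃ h : H, h • ω' = ω := by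
  rw [cls, cls, Quotient.eq]; rfl

@[simp] lemma cls_smul (h : H) (ω : Ω) : cls H (h • ω) = cls H ω := cls_eq_iff.2 ⟨h, rfl⟩

@[simp] lemma cls_out (q : Q H Ω) : cls H q.out = q := Quotient.out_eq q

variable (H) in
lemma exists_smul_out (ω : Ω) : ∃ h : H, h • (cls H ω).out = ω :=
  cls_eq_iff.1 (cls_out _).symm

lemma cls_surj (q : Q H Ω) : ∃ ω, cls H ω = q := ⟨_, cls_out q⟩

instance [FC H Ω] : Fintype (Q H Ω) := @Fintype.ofFinite _ FC.fin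

lemma FC.smul_inj [FC H Ω] {g h : H} {ω : Ω} (e : g • ω = h • ω) : g = h := by
  have : h⁻¹ * g = 1 := FC.free _ ω (by rw [mul_smul, e, inv_smul_smul])
  rw [inv_mul_eq_one] at this; exact this.symm

variable (H Ω) in
lemma bij_out [FC H Ω] : Function.Bijective fun p : Q H Ω × H => p.2 • p.1.out := by
  constructor
  · rintro ⟨q, g⟩ ⟨q', g'⟩ e
    have h1 : q = q' := by simpa using congr(cls H $e)
    subst h1
    exact Prod.ext rfl (FC.smul_inj e)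
  · intro ω
    obtain ⟨h, hh⟩ := exists_smul_out H ω
    exact ⟨(_, h), hh⟩

lemma tsum_eq_sum_tsum [FC H Ω] {f : Ω → ℂ} (hf : Summable f) :
    ∑' ω, f ω = ∑ q : Q H Ω, ∑' h : H, f (h • q.out) := by
  let e := Equiv.ofBijective _ (bij_out H Ω)
  have h1 : Summable fun p => f (e p) := e.summable_iff.2 hf
  rw [← e.tsum_eq, h1.tsum_prod, tsum_fintype]
  rfl

variable (H) in
/-- The trace. -/
def tr [FC H Ω] (A : L2 Ω →L[ℂ] L2 Ω) : ℂ := ∑ q : Q H Ω, ev q.out (A (dl q.out))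

lemma tr_comm [FC H Ω] [FC H Ω'] {X : L2 Ω' →L[ℂ] L2 Ω} {Y : L2 Ω →L[ℂ] L2 Ω'}
    (hX : Eqop H X) (hY : Eqop H Y) : tr H (X ∘L Y) = tr H (Y ∘L X) := by
  simp only [tr, comp_apply]
  have h1 : ∀ q : Q H Ω, ev q.out (X (Y (dl q.out))) = ∑ q' : Q H Ω', ∑' h : H,
      ev (h • q'.out) (Y (dl q.out)) * ev q.out (X (dl (h • q'.out))) := fun q => by
    rw [← (hasSum_ev_op X _ _).tsum_eq, tsum_eq_sum_tsum (H := H) (hasSum_ev_op X _ _).summable]
  have h2 : ∀ q' : Q H Ω', ev q'.out (Y (X (dl q'.out))) = ∑ q : Q H Ω, ∑' h : H,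
      ev (h • q.out) (X (dl q'.out)) * ev q'.out (Y (dl (h • q.out))) := fun q => by
    rw [← (hasSum_ev_op Y _ _).tsum_eq, tsum_eq_sum_tsum (H := H) (hasSum_ev_op Y _ _).summable]
  simp only [h1, h2]
  rw [Finset.sum_comm]
  refine Finset.sum_congr rfl fun q' _ => Finset.sum_congr rfl fun q _ => ?_
  rw [← (Equiv.inv H).tsum_eq]
  refine tsum_congr fun h => ?_
  rw [mul_comm, ← hX.entry h, ← hY.entry h]
  simp

lemma tr_sub [FC H Ω] (A B : L2 Ω →L[ℂ] L2 Ω) : tr H (A - B) = tr H A - tr H B := by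
  simp [tr, Finset.sum_sub_distrib]

lemma tr_add [FC H Ω] (A B : L2 Ω →L[ℂ] L2 Ω) : tr H (A + B) = tr H A + tr H B := by
  simp [tr, Finset.sum_add_distrib]

lemma tr_one [FC H Ω] : tr H (1 : L2 Ω →L[ℂ] L2 Ω) = Fintype.card (Q H Ω) := by
  simp [tr]

/-- The weight of a point. -/
def wt (V : CS Ω) (ω : Ω) : ℝ := ‖pr V (dl ω)‖ ^ 2

variable (H) in
/-- The von Neumann dimension. -/
def dim [FC H Ω] (V : CS Ω) : ℝ := ∑ q : Q H Ω, wt V q.out

lemma wt_nonneg (V : CS Ω) (ω : Ω) : 0 ≤ wt V ω := sq_nonneg _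

lemma wt_smul {V : CS Ω} (hV : Invt H V) (h : H) (ω : Ω) : wt V (h • ω) = wt V ω := by
  rw [wt, wt, ← u_dl, hV.pr, norm_u]

lemma tr_pr [FC H Ω] (V : CS Ω) : tr H (pr V) = (dim H V : ℂ) := by
  simp only [tr, dim, ev_pr_dl, wt]; push_cast; rfl

lemma dim_nonneg [FC H Ω] (V : CS Ω) : 0 ≤ dim H V := Finset.sum_nonneg fun _ _ => wt_nonneg _ _

lemma dim_add_orth [FC H Ω] (V : CS Ω) : dim H V + dim H Vᗮ = Fintype.card (Q H Ω) := by
  have : pr V + pr Vᗮ = 1 := by ext ξ; simp [pr_orth]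
  have h := congr(tr H $this)
  rw [tr_add, tr_pr, tr_pr, tr_one] at h
  exact_mod_cast h

lemma tendsto_tr [FC H Ω] (A : L2 Ω →L[ℂ] L2 Ω) (hA : ‖A‖ ≤ 1) :
    Filter.Tendsto (fun n : ℕ => (n : ℂ)⁻¹ * ∑ i ∈ Finset.range n, tr H (A ^ i)) Filter.atTop
      (nhds (dim H (kr (1 - A)))) := by
  rw [← tr_pr, tr]
  have h1 : ∀ q : Q H Ω, Filter.Tendsto
      (fun n : ℕ => ev q.out (birkhoffAverage ℂ A _root_.id n (dl q.out))) Filter.atTop
      (nhds (ev q.out (pr (kr (1 - A)) (dl q.out)))) := fun q => by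
    have h2 := A.tendsto_birkhoffAverage_orthogonalProjection hA (dl q.out)
    have h3 : (((A.eqLocus (1 : L2 Ω →L[ℂ] L2 Ω)).orthogonalProjectionOnto (dl q.out) :
        A.eqLocus (1 : L2 Ω →L[ℂ] L2 Ω)) : L2 Ω) = pr (kr (1 - A)) (dl q.out) := by
      symm
      have hk : ∀ w, w ∈ kr (1 - A) ↔ w ∈ A.eqLocus (1 : L2 Ω →L[ℂ] L2 Ω) := fun w => by
        rw [mem_kr, sub_apply, sub_eq_zero, eq_comm]; rfl
      refine pr_eq ((hk _).2 (Subtype.property _)) fun w hw => ?_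
      exact Submodule.starProjection_inner_eq_zero _ _ ((hk w).1 hw)
    rw [h3] at h2
    exact ((ev q.out).continuous.tendsto _).comp h2
  refine (tendsto_finsetSum _ fun q _ => h1 q).congr fun n => ?_
  simp only [birkhoffAverage, birkhoffSum, map_smul, map_sum, smul_eq_mul, tr, id,
    ← Finset.mul_sum]
  rw [Finset.sum_comm]
  simp only [pow_apply_eq_iterate]

lemma norm_one_sub_le {S : L2 Ω →L[ℂ] L2 Ω'} (hS : ‖S‖ ≤ 1) : ‖1 - adjoint S ∘L S‖ ≤ 1 := by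
  refine opNorm_le_bound _ zero_le_one fun x => ?_
  rw [one_mul]
  refine (sq_le_sq₀ (norm_nonneg _) (norm_nonneg _)).1 ?_
  rw [sub_apply, one_apply_eq_self, comp_apply, @norm_sub_sq ℂ, adjoint_inner_right,
    inner_self_eq_norm_sq]
  have h1 : ‖adjoint S (S x)‖ ≤ ‖S x‖ := by
    refine (le_opNorm _ _).trans ?_
    rw [LinearIsometryEquiv.norm_map]
    exact mul_le_of_le_one_left (norm_nonneg _) hS
  have h2 : ‖adjoint S (S x)‖ ^ 2 ≤ ‖S x‖ ^ 2 := pow_le_pow_left₀ (norm_nonneg _) h1 2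
  nlinarith [sq_nonneg ‖S x‖]

lemma kr_adj_comp (S : L2 Ω →L[ℂ] L2 Ω') : kr (1 - (1 - adjoint S ∘L S)) = kr S := by
  apply CS.ext'
  intro ξ
  rw [sub_sub_cancel, mem_kr, mem_kr, comp_apply]
  constructor
  · intro h
    rw [← inner_self_eq_zero (𝕜 := ℂ), ← adjoint_inner_right, h, inner_zero_right]
  · intro h; rw [h, map_zero]

lemma dim_kr_adj_aux [FC H Ω] [FC H Ω'] {S : L2 Ω →L[ℂ] L2 Ω'} (hS : Eqop H S) (h1 : ‖S‖ ≤ 1) :
    dim H (kr S) - Fintype.card (Q H Ω) = dim H (kr (adjoint S)) - Fintype.card (Q H Ω') := by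
  set A : L2 Ω →L[ℂ] L2 Ω := 1 - adjoint S ∘L S with hA
  set B : L2 Ω' →L[ℂ] L2 Ω' := 1 - adjoint (adjoint S) ∘L adjoint S with hB
  have eA : Eqop H A := Eqop.one.sub (hS.adj.comp hS)
  have hAB : ∀ n : ℕ, S ∘L (A ^ n) = (B ^ n) ∘L S := fun n => by
    induction n with
    | zero => ext ξ; simp
    | succ n ih =>
      ext ξ
      have := congr($ih (A ξ))
      simp only [comp_apply] at this
      simp only [pow_succ, comp_apply, mul_apply_eq_comp, this]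
      congr 1
      simp [hA, hB]
  have ht : ∀ n : ℕ, tr H (A ^ n) - Fintype.card (Q H Ω) = tr H (B ^ n) - Fintype.card (Q H Ω') :=
    fun n => by
    induction n with
    | zero => simp [tr_one]
    | succ n ih =>
      have e1 : A ^ (n + 1) = A ^ n - ((A ^ n) ∘L adjoint S) ∘L S := by
        ext ξ
        simp only [pow_succ, comp_apply, mul_apply_eq_comp, sub_apply, ← map_sub]
        congr 1
      have e2 : B ^ (n + 1) = B ^ n - S ∘L ((A ^ n) ∘L adjoint S) := by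
        ext ξ
        have := congr($(hAB n) (adjoint S ξ))
        simp only [comp_apply] at this
        simp only [pow_succ, comp_apply, mul_apply_eq_comp, sub_apply, ← map_sub, this]
        congr 1
        simp [hB]
      rw [e1, e2, tr_sub, tr_sub, tr_comm ((eA.pow n).comp hS.adj) hS]
      linear_combination ih
  have l1 := tendsto_tr (H := H) A (norm_one_sub_le h1)
  have l2 := tendsto_tr (H := H) B (norm_one_sub_le (by rwa [LinearIsometryEquiv.norm_map]))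
  rw [hA, kr_adj_comp] at l1
  rw [hB, kr_adj_comp] at l2
  have l3 := l1.sub l2
  have l4 : (fun n : ℕ => (n : ℂ)⁻¹ * ∑ i ∈ Finset.range n, tr H (A ^ i) -
      (n : ℂ)⁻¹ * ∑ i ∈ Finset.range n, tr H (B ^ i)) =ᶠ[Filter.atTop]
      fun _ => (Fintype.card (Q H Ω) : ℂ) - Fintype.card (Q H Ω') := by
    filter_upwards [Filter.eventually_gt_atTop 0] with n hn
    rw [← mul_sub, ← Finset.sum_sub_distrib]
    have : ∀ i, tr H (A ^ i) - tr H (B ^ i) = (Fintype.card (Q H Ω) : ℂ) - Fintype.card (Q H Ω') :=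
      fun i => by linear_combination ht i
    simp only [this, Finset.sum_const, Finset.card_range, nsmul_eq_mul]
    have : (n : ℂ) ≠ 0 := by exact_mod_cast hn.ne'
    field_simp
  have l5 := tendsto_nhds_unique (l3.congr' l4) tendsto_const_nhds
  have l6 : dim H (kr S) - dim H (kr (adjoint S)) =
    (Fintype.card (Q H Ω) : ℝ) - Fintype.card (Q H Ω') := by exact_mod_cast l5
  linarith

lemma dim_kr_add_map_top [FC H Ω] [FC H Ω'] {S : L2 Ω →L[ℂ] L2 Ω'} (hS : Eqop H S) :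
    dim H (kr S) + dim H ((⊤ : CS Ω).map S) = Fintype.card (Q H Ω) := by
  set c : ℂ := ((‖S‖ + 1 : ℝ) : ℂ)⁻¹ with hc
  have hpos : 0 < ‖S‖ + 1 := by positivity
  have hc0 : c ≠ 0 := inv_ne_zero (by exact_mod_cast hpos.ne')
  have h1 : ‖c • S‖ ≤ 1 := by
    rw [norm_smul, hc, norm_inv, Complex.norm_real, Real.norm_of_nonneg hpos.le,
      inv_mul_le_iff₀ hpos]
    linarith
  have h2 := dim_kr_adj_aux (hS.smul c) h1
  have e1 : kr (c • S) = kr S := CS.ext' fun ξ => by simp [hc0]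
  have e2 : kr (adjoint (c • S)) = kr (adjoint S) := CS.ext' fun ξ => by
    rw [LinearIsometryEquiv.map_smulₛₗ]
    simp [hc0]
  rw [e1, e2, ← orth_map_top] at h2
  have h3 := dim_add_orth (H := H) ((⊤ : CS Ω).map S)
  linarith

/-- Rank-nullity. -/
lemma rank_nullity [FC H Ω] [FC H Ω'] {T : L2 Ω →L[ℂ] L2 Ω'} (hT : Eqop H T) {V : CS Ω}
    (hV : Invt H V) : dim H (V ⊓ kr T) + dim H (V.map T) = dim H V := by
  have h1 := dim_kr_add_map_top (hT.comp hV.pr)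
  have e1 : (⊤ : CS Ω).map (T ∘L pr V) = V.map T := by
    apply le_antisymm
    · rw [map_le]; intro ξ _; exact mem_map (pr_mem V ξ)
    · rw [map_le]; intro ξ h
      have := mem_map (T := T ∘L pr V) (V := ⊤) (ξ := ξ) trivial
      rwa [comp_apply, pr_eq_self.2 h] at this
  have e2 : pr (kr (T ∘L pr V)) = pr Vᗮ + pr (V ⊓ kr T) := by
    ext x
    have hm := pr_mem (V ⊓ kr T) x
    apply pr_eq
    · rw [mem_kr, comp_apply, add_apply, map_add, pr_eq_zero.2 (pr_mem _ _), pr_eq_self.2 hm.1,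
        zero_add]
      exact hm.2
    · intro w hw
      have h3 : pr V w ∈ V ⊓ kr T := ⟨pr_mem _ _, hw⟩
      have h4 : x - (pr Vᗮ + pr (V ⊓ kr T)) x = pr V (x - pr (V ⊓ kr T) x) := by
        rw [add_apply, pr_orth, map_sub, pr_eq_self.2 hm.1]; abel
      rw [h4, ← adjoint_pr V, adjoint_inner_left]
      exact pr_inner _ _ h3
  have h2 := congr(tr H $e2)
  rw [tr_add, tr_pr, tr_pr, tr_pr] at h2
  have h3 : dim H (kr (T ∘L pr V)) = dim H Vᗮ + dim H (V ⊓ kr T) := by exact_mod_cast h2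
  have h4 := dim_add_orth (H := H) V
  rw [e1] at h1
  linarith

lemma wt_eq_add {U V : CS Ω} (h : U ≤ V) (ω : Ω) :
    wt V ω = wt U ω + ‖pr V (dl ω) - pr U (dl ω)‖ ^ 2 := by
  have h1 : pr U (pr V (dl ω)) = pr U (dl ω) := by
    refine pr_eq (pr_mem _ _) fun w hw => ?_
    have e : pr V (dl ω) - pr U (dl ω) = (dl ω - pr U (dl ω)) - (dl ω - pr V (dl ω)) := by abel
    rw [e, inner_sub_left, pr_inner _ _ hw, pr_inner _ _ (h hw), sub_zero]
  have h2 : ⟪pr U (dl ω), pr V (dl ω) - pr U (dl ω)⟫_ℂ = 0 := by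
    rw [inner_eq_zero_symm]
    have := pr_inner U (pr V (dl ω)) (pr_mem U (dl ω))
    rwa [h1] at this
  have h3 := norm_add_sq_eq_norm_sq_add_norm_sq_of_inner_eq_zero _ _ h2
  rw [add_sub_cancel] at h3
  simp only [wt, sq]; exact h3

lemma wt_mono {U V : CS Ω} (h : U ≤ V) (ω : Ω) : wt U ω ≤ wt V ω := by
  rw [wt_eq_add h]; exact le_add_of_nonneg_right (sq_nonneg _)

lemma dim_mono [FC H Ω] {U V : CS Ω} (h : U ≤ V) : dim H U ≤ dim H V :=
  Finset.sum_le_sum fun _ _ => wt_mono h _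

/-- Faithfulness of the dimension. -/
lemma eq_of_le_of_dim_le [FC H Ω] {U V : CS Ω} (hU : Invt H U) (hV : Invt H V) (h : U ≤ V)
    (hd : dim H V ≤ dim H U) : U = V := by
  have h1 : ∀ q : Q H Ω, wt U q.out = wt V q.out := fun q =>
    (Finset.sum_eq_sum_iff_of_le fun q _ => wt_mono h _).1 (le_antisymm (dim_mono h) hd) q
      (Finset.mem_univ _)
  have h2 : pr V = pr U := op_ext fun ω => by
    obtain ⟨g, hg⟩ := exists_smul_out H ω
    have h3 : wt U ω = wt V ω := by rw [← hg, wt_smul hU, wt_smul hV, h1]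
    rw [wt_eq_add h] at h3
    have h4 : ‖pr V (dl ω) - pr U (dl ω)‖ ^ 2 = 0 := by linarith
    rwa [sq_eq_zero_iff, norm_eq_zero, sub_eq_zero] at h4
  refine le_antisymm h fun ξ hξ => ?_
  rw [← pr_eq_self, ← h2, pr_eq_self]; exact hξ

@[simp] lemma dim_bot [FC H Ω] : dim H (⊥ : CS Ω) = 0 := by
  refine Finset.sum_eq_zero fun q _ => ?_
  have : pr ⊥ (dl q.out) = 0 := pr_mem ⊥ _
  simp [wt, this]

lemma dim_le_card [FC H Ω] (V : CS Ω) : dim H V ≤ Fintype.card (Q H Ω) := by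
  have := dim_add_orth (H := H) V
  have := dim_nonneg (H := H) Vᗮ
  linarith

lemma kr_pr_orth (U : CS Ω) : kr (pr Uᗮ) = U := CS.ext' fun ξ => by
  rw [mem_kr, pr_orth, sub_eq_zero, eq_comm, pr_eq_self]

/-- The modular law for dimensions. -/
lemma dim_sup_add_inf [FC H Ω] {U V : CS Ω} (hU : Invt H U) (hV : Invt H V) :
    dim H (U ⊔ V) + dim H (U ⊓ V) = dim H U + dim H V := by
  have h1 := rank_nullity hU.orth.pr hV
  have h2 := rank_nullity hU.orth.pr (hU.sup hV)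
  have e : U.map (pr Uᗮ) = ⊥ := map_eq_bot fun ξ h => by
    rw [← mem_kr, kr_pr_orth]; exact h
  rw [kr_pr_orth] at h1 h2
  rw [map_sup, e, bot_sup_eq, inf_eq_right.2 le_sup_left] at h2
  rw [inf_comm] at h1
  linarith

lemma dim_map_le [FC H Ω] [FC H Ω'] {T : L2 Ω →L[ℂ] L2 Ω'} (hT : Eqop H T) {V : CS Ω}
    (hV : Invt H V) : dim H (V.map T) ≤ dim H V := by
  have := rank_nullity hT hV
  have := dim_nonneg (H := H) (V ⊓ kr T)
  linarith

lemma dim_map_of_inj [FC H Ω] [FC H Ω'] {T : L2 Ω →L[ℂ] L2 Ω'} (hT : Eqop H T) {V : CS Ω}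
    (hV : Invt H V) (hi : ∀ ξ ∈ V, T ξ = 0 → ξ = 0) : dim H (V.map T) = dim H V := by
  have h1 := rank_nullity hT hV
  have : V ⊓ kr T = ⊥ := le_bot_iff.1 fun ξ h => hi ξ h.1 h.2
  rwa [this, dim_bot, zero_add] at h1

lemma dim_inf_comap [FC H Ω] [FC H Ω'] {T : L2 Ω →L[ℂ] L2 Ω'} (hT : Eqop H T) {V : CS Ω}
    (hV : Invt H V) {M : CS Ω'} (hM : Invt H M) :
    dim H (V ⊓ M.comap T) = dim H (V ⊓ kr T) + dim H (V.map T ⊓ M) := by
  have h1 := rank_nullity hT hV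
  have h2 := rank_nullity (hM.orth.pr.comp hT) hV
  have h3 := rank_nullity hM.orth.pr (hV.map hT)
  have e : kr (pr Mᗮ ∘L T) = M.comap T := CS.ext' fun ξ => by
    rw [mem_kr, comp_apply, ← mem_kr, kr_pr_orth]; rfl
  rw [e, ← map_map] at h2
  rw [kr_pr_orth] at h3
  linarith

/-- Closures of images are compatible with intersections. -/
lemma map_inf_comap [FC H Ω] [FC H Ω'] {T : L2 Ω →L[ℂ] L2 Ω'} (hT : Eqop H T) {V : CS Ω}
    (hV : Invt H V) {M : CS Ω'} (hM : Invt H M) :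
    (V ⊓ M.comap T).map T = V.map T ⊓ M := by
  have hi := hV.inf (hM.comap hT)
  refine eq_of_le_of_dim_le (hi.map hT) ((hV.map hT).inf hM) ?_ ?_
  · rw [map_le]; intro ξ h; exact ⟨mem_map h.1, h.2⟩
  · have h1 := rank_nullity hT hi
    have h2 := dim_inf_comap hT hV hM
    have e : V ⊓ M.comap T ⊓ kr T = V ⊓ kr T := by
      rw [inf_assoc]
      congr 1
      exact inf_eq_right.2 (comap_mono T bot_le)
    rw [e] at h1
    linarith

/-- The lattice of invariant closed subspaces is modular. -/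
lemma inf_sup_modular [FC H Ω] {A B C : CS Ω} (hA : Invt H A) (hB : Invt H B) (hC : Invt H C)
    (h : B ≤ C) : C ⊓ (A ⊔ B) = (C ⊓ A) ⊔ B := by
  symm
  refine eq_of_le_of_dim_le ((hC.inf hA).sup hB) (hC.inf (hA.sup hB)) ?_ ?_
  · exact sup_le (inf_le_inf_left _ le_sup_left) (le_inf h le_sup_right)
  · have h1 := dim_sup_add_inf hC (hA.sup hB)
    have h2 := dim_sup_add_inf (hC.inf hA) hB
    have h3 := dim_sup_add_inf hC hA
    have h4 := dim_sup_add_inf hA hB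
    have e1 : C ⊔ (A ⊔ B) = C ⊔ A := by
      rw [sup_comm A B, ← sup_assoc, sup_eq_left.2 h]
    have e2 : C ⊓ A ⊓ B = A ⊓ B := by
      rw [inf_assoc, inf_eq_right]; exact inf_le_right.trans h
    rw [e1] at h1
    rw [e2] at h2
    linarith

end Pool.Agent.MP_54e5d7_al

end
end MrgPart1

-- ======== part 2: formerly Pool.Agent.MP_54e5d7_al.Local
section MrgPart2

/-!
Local subspaces, supports, direct sums, half-spaces.
-/

set_option autoImplicit false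

open scoped InnerProductSpace
open Classical ContinuousLinearMap

noncomputable section
namespace Pool.Agent.MP_54e5d7_al

variable {H : Type} [Group H] {Ω Ω' Ω'' Λ Λ' Φ : Type}

/-- All nonzero matrix entries of `T` satisfy `R`. -/
def Ent (R : Ω → Ω' → Prop) (T : L2 Ω →L[ℂ] L2 Ω') : Prop :=
  ∀ ω ω', ev ω' (T (dl ω)) ≠ 0 → R ω ω'

lemma Ent.comm {T : L2 Ω →L[ℂ] L2 Ω'} {A : Set Ω} {B : Set Ω'}
    (hT : Ent (fun ω ω' => ω ∈ A ↔ ω' ∈ B) T) (ξ : L2 Ω) : T (P A ξ) = P B (T ξ) := by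
  have : T ∘L P A = P B ∘L T := op_ext fun ω => L2.ext fun ω' => by
    rw [comp_apply, comp_apply, P_dl, ev_P]
    by_cases h : ev ω' (T (dl ω)) = 0
    · split_ifs <;> simp [h]
    · have := hT ω ω' h
      by_cases h1 : ω ∈ A
      · simp [h1, this.1 h1]
      · simp [h1, mt this.2 h1]
  exact congr($this ξ)

lemma Ent.mono {R R' : Ω → Ω' → Prop} {T : L2 Ω →L[ℂ] L2 Ω'} (hT : Ent R T)
    (h : ∀ ω ω', R ω ω' → R' ω ω') : Ent R' T := fun ω ω' e => h _ _ (hT ω ω' e)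

lemma Ent.comm_loc {l : Ω → Λ} {l' : Ω' → Λ} {T : L2 Ω →L[ℂ] L2 Ω'}
    (hT : Ent (fun ω ω' => l ω = l' ω') T) (S : Set Λ) (ξ : L2 Ω) :
    T (P (l ⁻¹' S) ξ) = P (l' ⁻¹' S) (T ξ) :=
  Ent.comm (hT.mono fun ω ω' h => by simp [h]) ξ

/-- `V` is the sum of its parts over the fibres of `l`. -/
def Loc (l : Ω → Λ) (V : CS Ω) : Prop := ∀ x, ∀ ξ ∈ V, P (l ⁻¹' {x}) ξ ∈ V

namespace Loc
variable {l : Ω → Λ} {U V : CS Ω}

lemma sat (hV : Loc l V) {A : Set Ω} (hA : ∀ ω ω', l ω = l ω' → ω ∈ A → ω' ∈ A) {ξ : L2 Ω}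
    (h : ξ ∈ V) : P A ξ ∈ V := by
  refine mem_of_forall_P l fun x => ?_
  rw [P_P]
  by_cases hx : ∃ ω ∈ A, l ω = x
  · obtain ⟨ω, hω, rfl⟩ := hx
    have : l ⁻¹' {l ω} ∩ A = l ⁻¹' {l ω} :=
      Set.inter_eq_left.2 fun ω' h' => hA ω ω' (Eq.symm h') hω
    rw [this]; exact hV _ _ h
  · have : l ⁻¹' {x} ∩ A = ∅ := Set.eq_empty_of_forall_notMem fun ω h' => hx ⟨ω, h'.2, h'.1⟩
    rw [this, P_empty]; exact zero_mem _

lemma pre (hV : Loc l V) (S : Set Λ) {ξ : L2 Ω} (h : ξ ∈ V) : P (l ⁻¹' S) ξ ∈ V :=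
  hV.sat (fun ω ω' e h' => by rwa [Set.mem_preimage, ← e]) h

lemma coarse (hV : Loc l V) {l' : Ω → Λ'} (h : ∀ ω ω', l ω = l ω' → l' ω = l' ω') : Loc l' V :=
  fun _ _ hξ => hV.sat (fun ω ω' e h' => by rwa [Set.mem_preimage, ← h _ _ e]) hξ

lemma top : Loc l ⊤ := fun _ _ _ => trivial
lemma bot : Loc l ⊥ := fun x ξ h => by
  rw [ClosedSubmodule.mem_bot] at h ⊢; rw [h, map_zero]
lemma inf (hU : Loc l U) (hV : Loc l V) : Loc l (U ⊓ V) :=
  fun g ξ h => ⟨hU g ξ h.1, hV g ξ h.2⟩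
lemma iInf {ι : Sort*} {V : ι → CS Ω} (hV : ∀ i, Loc l (V i)) : Loc l (⨅ i, V i) :=
  fun g ξ h => ClosedSubmodule.mem_iInf.2 fun i => hV i g ξ (ClosedSubmodule.mem_iInf.1 h i)
lemma iSup {ι : Sort*} {V : ι → CS Ω} (hV : ∀ i, Loc l (V i)) : Loc l (⨆ i, V i) := fun g => by
  rw [← map_le, map_iSup]
  exact iSup_mono fun i => map_le.2 (hV i g)
lemma sup (hU : Loc l U) (hV : Loc l V) : Loc l (U ⊔ V) := fun g => by
  rw [← map_le, map_sup]
  exact sup_le_sup (map_le.2 (hU g)) (map_le.2 (hV g))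
lemma comap {l' : Ω' → Λ} {T : L2 Ω →L[ℂ] L2 Ω'} (hT : Ent (fun ω ω' => l ω = l' ω') T)
    {W : CS Ω'} (hW : Loc l' W) : Loc l (W.comap T) := fun g ξ h => by
  rw [ClosedSubmodule.mem_comap, hT.comm_loc]; exact hW g _ h
lemma kr {l' : Ω' → Λ} {T : L2 Ω →L[ℂ] L2 Ω'} (hT : Ent (fun ω ω' => l ω = l' ω') T) :
    Loc l (kr T) := comap hT bot
lemma map {l' : Ω' → Λ} {T : L2 Ω →L[ℂ] L2 Ω'} (hT : Ent (fun ω ω' => l ω = l' ω') T)
    (hV : Loc l V) : Loc l' (V.map T) := fun g => by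
  rw [← map_le, map_map, map_le]
  intro ξ h
  rw [comp_apply, ← hT.comm_loc]; exact mem_map (hV g ξ h)

lemma const (V : CS Ω) (x : Λ) : Loc (fun _ => x) V := fun y ξ h => by
  by_cases e : x = y
  · have : (fun _ : Ω => x) ⁻¹' {y} = Set.univ := by ext; simp [e]
    rw [this, P_univ]; exact h
  · have : (fun _ : Ω => x) ⁻¹' {y} = ∅ := by ext; simp [e]
    rw [this, P_empty]; exact zero_mem _

lemma ent_pr (hV : Loc l V) : Ent (fun ω ω' => l ω = l ω') (pr V) := fun ω ω' h => by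
  by_contra hne
  apply h
  have h1 := pr_comm (U := P (l ⁻¹' {l ω})) (hV _) (by rw [adjoint_P]; exact hV _) (dl ω)
  rw [P_dl, if_pos (by simp)] at h1
  rw [h1, ev_P_of_not_mem]
  exact fun e => hne (Eq.symm e)

lemma of_ent_pr (h : Ent (fun ω ω' => l ω = l ω') (pr V)) : Loc l V := fun x ξ hξ => by
  rw [← pr_eq_self, h.comm_loc, pr_eq_self.2 hξ]

end Loc

/-- The smallest `l`-local subspace containing `K`. -/
def supp (l : Ω → Λ) (K : CS Ω) : CS Ω := ⨆ x, K.map (P (l ⁻¹' {x}))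

section
variable {l : Ω → Λ} {K M : CS Ω}

lemma P_mem_supp (x : Λ) {ξ : L2 Ω} (h : ξ ∈ K) : P (l ⁻¹' {x}) ξ ∈ supp l K :=
  (le_iSup (fun x => K.map (P (l ⁻¹' {x}))) x) (mem_map h)

lemma le_supp (l : Ω → Λ) (K : CS Ω) : K ≤ supp l K := fun _ h =>
  mem_of_forall_P l fun x => P_mem_supp x h

lemma supp_le' (h : ∀ x, ∀ ξ ∈ K, P (l ⁻¹' {x}) ξ ∈ M) : supp l K ≤ M :=
  iSup_le fun x => map_le.2 (h x)

lemma supp_le (hM : Loc l M) (h : K ≤ M) : supp l K ≤ M :=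
  supp_le' fun x ξ hξ => hM x ξ (h hξ)

lemma loc_supp (l : Ω → Λ) (K : CS Ω) : Loc l (supp l K) := fun y => by
  rw [← map_le, supp, map_iSup]
  refine iSup_le fun x => ?_
  rw [map_map, map_le]
  intro ξ h
  rw [comp_apply, P_P, ← Set.preimage_inter]
  by_cases e : y = x
  · rw [e, Set.inter_self]; exact P_mem_supp x h
  · rw [Set.singleton_inter_of_notMem (by simpa using e), Set.preimage_empty, P_empty]
    exact zero_mem _

lemma supp_mono (l : Ω → Λ) (h : K ≤ M) : supp l K ≤ supp l M :=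
  supp_le (loc_supp l M) (h.trans (le_supp l M))

lemma supp_coarse {l' : Ω → Λ'} (h : ∀ ω ω', l ω = l ω' → l' ω = l' ω') (K : CS Ω) :
    supp l' K ≤ supp l K := supp_le ((loc_supp l K).coarse h) (le_supp l K)

lemma supp_supp {l' : Ω → Λ'} (h : ∀ ω ω', l ω = l ω' → l' ω = l' ω') (K : CS Ω) :
    supp l (supp l' K) = supp l K :=
  le_antisymm (supp_le (loc_supp l K) (supp_coarse h K)) (supp_mono l (le_supp l' K))

lemma Loc.supp_eq (h : Loc l K) : supp l K = K := le_antisymm (supp_le h le_rfl) (le_supp l K)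

lemma map_supp {l' : Ω' → Λ} {T : L2 Ω →L[ℂ] L2 Ω'} (hT : Ent (fun ω ω' => l ω = l' ω') T)
    (K : CS Ω) : (supp l K).map T = supp l' (K.map T) := by
  rw [supp, supp, map_iSup]
  refine iSup_congr fun x => ?_
  rw [map_map, map_map]
  exact map_congr fun ξ _ => hT.comm_loc _ _

attribute [irreducible] supp

end

variable (H) in
/-- Equivariant maps. -/
def Eqv {A B : Type} [MulAction H A] [MulAction H B] (f : A → B) : Prop :=
  ∀ (h : H) a, f (h • a) = h • f a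

lemma Eqv.comp {A B C : Type} [MulAction H A] [MulAction H B] [MulAction H C] {f : A → B}
    {g : B → C} (hg : Eqv H g) (hf : Eqv H f) : Eqv H (fun a => g (f a)) :=
  fun h a => by simp only [hf h, hg h]

lemma Eqv.prod {A B C : Type} [MulAction H A] [MulAction H B] [MulAction H C] {f : A → B}
    {g : A → C} (hf : Eqv H f) (hg : Eqv H g) : Eqv H (fun a => (f a, g a)) :=
  fun h a => by simp only [hf h, hg h]; rfl

lemma Eqv.id {A : Type} [MulAction H A] : Eqv H (fun a : A => a) := fun _ _ => rfl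

lemma Eqv.unit {A : Type} [MulAction H A] : Eqv H (fun _ : A => ()) := fun _ _ => rfl

variable [MulAction H Ω] [MulAction H Ω'] [MulAction H Ω'']

lemma u_P [MulAction H Λ] {l : Ω → Λ} (hl : Eqv H l) (g : H) (x : Λ) (ξ : L2 Ω) :
    u g (P (l ⁻¹' {x}) ξ) = P (l ⁻¹' {g • x}) (u g ξ) :=
  L2.ext fun ω => by simp [ev_P, hl g⁻¹, inv_smul_eq_iff]

lemma Invt.supp [MulAction H Λ] {l : Ω → Λ} (hl : Eqv H l) {K : CS Ω} (hK : Invt H K) :
    Invt H (supp l K) := fun g => by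
  rw [← map_le, ClosedSubmodule.map_le_iff_le_comap]
  refine supp_le' fun x ξ h => ?_
  rw [ClosedSubmodule.mem_comap, u_P hl]
  exact P_mem_supp _ (hK g ξ h)

/-- The half-space property of a forest given by its flags. -/
def HS (c : Bool → Φ → Λ) : Prop :=
  ∀ φ, ∃ A : Set Φ, φ ∈ A ∧ (∀ ψ ψ', c true ψ = c true ψ' → ψ ∈ A → ψ' ∈ A) ∧
    (∀ ψ ψ', c false ψ = c false ψ' → ψ ∈ A → ψ ≠ φ → ψ' ∈ A ∧ ψ' ≠ φ)

lemma HS.prod_right {c : Bool → Φ → Λ} (h : HS c) (M : Type) :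
    HS (fun b (p : Φ × M) => (c b p.1, p.2)) := by
  rintro ⟨φ, m⟩
  obtain ⟨A, h1, h2, h3⟩ := h φ
  refine ⟨{p | p.1 ∈ A ∧ p.2 = m}, ⟨h1, rfl⟩, ?_, ?_⟩
  · rintro ⟨ψ, n⟩ ⟨ψ', n'⟩ e ⟨a, b⟩
    simp only [Prod.mk.injEq] at e
    exact ⟨h2 _ _ e.1 a, e.2 ▸ b⟩
  · rintro ⟨ψ, n⟩ ⟨ψ', n'⟩ e ⟨a, b⟩ hne
    simp only [Prod.mk.injEq] at e
    obtain rfl : n = m := b
    have := h3 _ _ e.1 a (fun e' => hne (by rw [e']))
    exact ⟨⟨this.1, e.2.symm⟩, fun e' => this.2 (congrArg Prod.fst e')⟩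

lemma HS.prod_left {c : Bool → Φ → Λ} (h : HS c) (M : Type) :
    HS (fun b (p : M × Φ) => (p.1, c b p.2)) := by
  rintro ⟨m, φ⟩
  obtain ⟨A, h1, h2, h3⟩ := h φ
  refine ⟨{p | p.2 ∈ A ∧ p.1 = m}, ⟨h1, rfl⟩, ?_, ?_⟩
  · rintro ⟨n, ψ⟩ ⟨n', ψ'⟩ e ⟨a, b⟩
    simp only [Prod.mk.injEq] at e
    exact ⟨h2 _ _ e.2 a, e.1 ▸ b⟩
  · rintro ⟨n, ψ⟩ ⟨n', ψ'⟩ e ⟨a, b⟩ hne
    simp only [Prod.mk.injEq] at e
    obtain rfl : n = m := b
    have := h3 _ _ e.2 a (fun e' => hne (by rw [e']))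
    exact ⟨⟨this.1, e.1.symm⟩, fun e' => this.2 (congrArg Prod.snd e')⟩

omit [MulAction H Ω] in
lemma HS.supp_eq {c : Bool → Φ → Λ} (h : HS c) (l : Ω → Φ) (K : CS Ω) :
    supp l K = supp (fun ω => c true (l ω)) K ⊔ supp (fun ω => c false (l ω)) K := by
  apply le_antisymm
  · refine supp_le' fun φ ξ hξ => ?_
    obtain ⟨A, h1, h2, h3⟩ := h φ
    have e : P (l ⁻¹' {φ}) ξ = P (l ⁻¹' A) ξ + -P (l ⁻¹' (A \ {φ})) ξ := L2.ext fun ω => by
      simp only [map_add, map_neg, ev_P, Set.mem_preimage, Set.mem_singleton_iff, Set.mem_sdiff]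
      by_cases e : l ω = φ
      · simp [e, h1]
      · by_cases e' : l ω ∈ A <;> simp [e, e']
    rw [e]
    refine add_mem_sup ?_ (CS.neg_mem ?_)
    · exact (loc_supp _ K).sat (fun ω ω' e h' => h2 _ _ e h') (le_supp _ K hξ)
    · exact (loc_supp _ K).sat (fun ω ω' e h' => h3 _ _ e h'.1 h'.2) (le_supp _ K hξ)
  · exact sup_le (supp_coarse (fun ω ω' e => by rw [e]) K) (supp_coarse (fun ω ω' e => by rw [e]) K)

/-! Direct sums -/

lemma fin_of_cover {ι : Type} [Finite ι] (f : ι → Ω) (h : ∀ ω, ∃ (g : H) (i : ι), g • f i = ω) :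
    Finite (MulAction.orbitRel.Quotient H Ω) :=
  Finite.of_surjective (fun i => cls H (f i)) fun q => by
    obtain ⟨g, i, e⟩ := h q.out
    exact ⟨i, by rw [← cls_out q, ← e, cls_smul]⟩

instance [FC H Ω] [FC H Ω'] : FC H (Ω ⊕ Ω') where
  free := by
    rintro h (ω | ω) e
    · exact FC.free h ω (by simpa using e)
    · exact FC.free h ω (by simpa using e)
  fin := fin_of_cover (Sum.map (fun q : Q H Ω => q.out) (fun q : Q H Ω' => q.out)) (by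
    rintro (ω | ω)
    · obtain ⟨g, e⟩ := exists_smul_out H ω
      exact ⟨g, Sum.inl _, by simpa using e⟩
    · obtain ⟨g, e⟩ := exists_smul_out H ω
      exact ⟨g, Sum.inr _, by simpa using e⟩)

/-- First coordinate. -/
abbrev π₁ : L2 (Ω ⊕ Ω') →L[ℂ] L2 Ω := pull Function.Embedding.inl
/-- Second coordinate. -/
abbrev π₂ : L2 (Ω ⊕ Ω') →L[ℂ] L2 Ω' := pull Function.Embedding.inr
/-- First inclusion. -/
abbrev ι₁ : L2 Ω →L[ℂ] L2 (Ω ⊕ Ω') := push Function.Embedding.inl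
/-- Second inclusion. -/
abbrev ι₂ : L2 Ω' →L[ℂ] L2 (Ω ⊕ Ω') := push Function.Embedding.inr

omit [MulAction H Ω] [MulAction H Ω'] in
@[simp] lemma π₁_ι₂ (ξ : L2 Ω') : (π₁ (ι₂ ξ) : L2 Ω) = 0 :=
  pull_push_of_disjoint _ _ (fun _ _ => by simp) ξ

omit [MulAction H Ω] [MulAction H Ω'] in
@[simp] lemma π₂_ι₁ (ξ : L2 Ω) : (π₂ (ι₁ ξ) : L2 Ω') = 0 :=
  pull_push_of_disjoint _ _ (fun _ _ => by simp) ξ

omit [MulAction H Ω] [MulAction H Ω'] in
lemma sum_ext {ξ η : L2 (Ω ⊕ Ω')} (h1 : π₁ ξ = π₁ η) (h2 : π₂ ξ = π₂ η) : ξ = η :=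
  L2.ext fun
    | Sum.inl ω => by simpa using congr(ev ω $h1)
    | Sum.inr ω => by simpa using congr(ev ω $h2)

lemma eqop_π₁ : Eqop H (π₁ : L2 (Ω ⊕ Ω') →L[ℂ] L2 Ω) := Eqop.pull fun _ _ => rfl
lemma eqop_π₂ : Eqop H (π₂ : L2 (Ω ⊕ Ω') →L[ℂ] L2 Ω') := Eqop.pull fun _ _ => rfl
lemma eqop_ι₁ : Eqop H (ι₁ : L2 Ω →L[ℂ] L2 (Ω ⊕ Ω')) := Eqop.push fun _ _ => rfl
lemma eqop_ι₂ : Eqop H (ι₂ : L2 Ω' →L[ℂ] L2 (Ω ⊕ Ω')) := Eqop.push fun _ _ => rfl

/-- Direct sum of subspaces. -/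
def ds (A : CS Ω) (B : CS Ω') : CS (Ω ⊕ Ω') := A.comap π₁ ⊓ B.comap π₂

omit [MulAction H Ω] [MulAction H Ω'] in
@[simp] lemma mem_ds {A : CS Ω} {B : CS Ω'} {ξ : L2 (Ω ⊕ Ω')} :
    ξ ∈ ds A B ↔ π₁ ξ ∈ A ∧ π₂ ξ ∈ B := Iff.rfl

lemma Invt.ds {A : CS Ω} {B : CS Ω'} (hA : Invt H A) (hB : Invt H B) : Invt H (ds A B) :=
  (hA.comap eqop_π₁).inf (hB.comap eqop_π₂)

omit [MulAction H Ω] [MulAction H Ω'] in
lemma map_ds (A : CS Ω) (B : CS Ω') (X : L2 Ω →L[ℂ] L2 Ω'') (Y : L2 Ω' →L[ℂ] L2 Ω'') :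
    (ds A B).map (X ∘L π₁ + Y ∘L π₂) = A.map X ⊔ B.map Y := by
  apply le_antisymm
  · rw [map_le]; intro ξ h
    exact add_mem_sup (mem_map h.1) (mem_map h.2)
  · refine sup_le (map_le.2 fun ξ h => ?_) (map_le.2 fun ξ h => ?_)
    · have := mem_map (T := X ∘L π₁ + Y ∘L π₂) (V := ds A B) (ξ := ι₁ ξ) (by simp [h])
      simpa using this
    · have := mem_map (T := X ∘L π₁ + Y ∘L π₂) (V := ds A B) (ξ := ι₂ ξ) (by simp [h])
      simpa using this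

lemma dim_ds [FC H Ω] [FC H Ω'] {A : CS Ω} {B : CS Ω'} (hA : Invt H A) (hB : Invt H B) :
    dim H (ds A B) = dim H A + dim H B := by
  have h1 := rank_nullity eqop_π₁ (hA.ds hB)
  have e1 : (ds A B).map π₁ = A := by
    apply le_antisymm (map_le.2 fun ξ h => (mem_ds.1 h).1)
    intro ξ h
    have := mem_map (T := π₁) (V := ds A B) (ξ := ι₁ ξ) (by simp [h])
    simpa using this
  have e2 : ds A B ⊓ kr π₁ = B.map ι₂ := by
    apply le_antisymm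
    · intro ξ h
      have : ξ = ι₂ (π₂ ξ) := sum_ext (by simpa using h.2) (by simp)
      rw [this]; exact mem_map h.1.2
    · rw [map_le]; intro ξ h; simp [h]
  rw [e1, e2, dim_map_of_inj eqop_ι₂ hB fun ξ _ h => push_eq_zero.1 h] at h1
  linarith

omit [MulAction H Ω] [MulAction H Ω'] in
lemma map_neg' (B : CS Ω) (Y : L2 Ω →L[ℂ] L2 Ω') : B.map (-Y) = B.map Y := by
  apply le_antisymm <;> rw [map_le] <;> intro ξ h
  · exact CS.neg_mem (mem_map h)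
  · have := CS.neg_mem (mem_map (T := -Y) h)
    simpa using this

/-- Fibre products. -/
lemma map_fibre [FC H Ω] [FC H Ω'] [FC H Ω''] {A : CS Ω} {B : CS Ω'} (hA : Invt H A)
    (hB : Invt H B) {X : L2 Ω →L[ℂ] L2 Ω''} {Y : L2 Ω' →L[ℂ] L2 Ω''} (hX : Eqop H X)
    (hY : Eqop H Y) :
    (ds A B ⊓ kr (X ∘L π₁ - Y ∘L π₂)).map π₁ = A ⊓ (B.map Y).comap X := by
  have hM : Eqop H (X ∘L π₁ - Y ∘L π₂) := (hX.comp eqop_π₁).sub (hY.comp eqop_π₂)
  have hC := (hA.ds hB).inf (Invt.kr hM)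
  refine eq_of_le_of_dim_le (hC.map eqop_π₁) (hA.inf ((hB.map hY).comap hX)) ?_ ?_
  · rw [map_le]
    intro ξ h
    refine ClosedSubmodule.mem_inf.2 ⟨h.1.1, ?_⟩
    have h2 : X (π₁ ξ) = Y (π₂ ξ) := by simpa [sub_eq_zero] using h.2
    rw [ClosedSubmodule.mem_comap, h2]; exact mem_map h.1.2
  · have h1 := rank_nullity eqop_π₁ hC
    have e1 : ds A B ⊓ kr (X ∘L π₁ - Y ∘L π₂) ⊓ kr π₁ = (B ⊓ kr Y).map ι₂ := by
      apply le_antisymm
      · intro ξ h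
        have h0 : π₁ ξ = 0 := h.2
        have : ξ = ι₂ (π₂ ξ) := sum_ext (by simpa using h.2) (by simp)
        rw [this]
        refine mem_map ⟨h.1.1.2, ?_⟩
        simpa [h0] using h.1.2
      · rw [map_le]; intro ξ h
        have h0 : Y ξ = 0 := h.2
        have h1 : ξ ∈ B := h.1
        simp [h1, h0]
    rw [e1, dim_map_of_inj eqop_ι₂ (hB.inf (Invt.kr hY)) fun ξ _ h => push_eq_zero.1 h] at h1
    have h2 := rank_nullity hM (hA.ds hB)
    have e2 : (ds A B).map (X ∘L π₁ - Y ∘L π₂) = A.map X ⊔ B.map Y := by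
      rw [← map_neg' B Y, ← map_ds]
      exact map_congr fun ξ _ => by simp [sub_eq_add_neg]
    rw [e2, dim_ds hA hB] at h2
    have h3 := dim_inf_comap hX hA (hB.map hY)
    have h4 := dim_sup_add_inf (hA.map hX) (hB.map hY)
    have h5 := rank_nullity hX hA
    have h6 := rank_nullity hY hB
    linarith

end Pool.Agent.MP_54e5d7_al

end
end MrgPart2

-- marker of a merged file
example : 731051 + 2782 = 731051 + 2782 := rfl
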