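import Mathlib
import Pool.Agent.MP_54e5d7_al.Local

-- ======== part 0: formerly Pool.Agent.MP_54e5d7_al.Tree
section MrgPart0

-- ======== part 0: formerly Pool.Agent.MP_54e5d7_al.Alg
section MrgPart0

/-!
Algebraic operators (matrices over the group ring) and algebraic subspaces.
-/

set_option autoImplicit false

open scoped InnerProductSpace
open Classical ContinuousLinearMap

noncomputable section
namespace Pool.Agent.MP_54e5d7_al

variable {H : Type} [Group H] {Ω Ω' Ω'' Λ Λ' : Type}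
  [MulAction H Ω] [MulAction H Ω'] [MulAction H Ω'']

variable (H) in
/-- Equivariant operators with finitely supported columns whose entries satisfy `R`. -/
structure AOp (R : Ω → Ω' → Prop) (T : L2 Ω →L[ℂ] L2 Ω') : Prop where
  eqv : Eqop H T
  fin : ∀ ω, {ω' | ev ω' (T (dl ω)) ≠ 0}.Finite
  ent : Ent R T

/-- Same location. -/
abbrev LR (l : Ω → Λ) (l' : Ω' → Λ) : Ω → Ω' → Prop := fun ω ω' => l ω = l' ω'

namespace AOp
variable {R R₁ : Ω → Ω' → Prop} {S T : L2 Ω →L[ℂ] L2 Ω'}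

lemma mono (hT : AOp H R T) (h : ∀ ω ω', R ω ω' → R₁ ω ω') : AOp H R₁ T :=
  ⟨hT.eqv, hT.fin, hT.ent.mono h⟩

lemma self (hT : AOp H R T) : AOp H (fun ω ω' => ev ω' (T (dl ω)) ≠ 0) T :=
  ⟨hT.eqv, hT.fin, fun _ _ h => h⟩

lemma comp {R' : Ω' → Ω'' → Prop} {R'' : Ω → Ω'' → Prop} {U : L2 Ω' →L[ℂ] L2 Ω''}
    (hU : AOp H R' U) (hT : AOp H R T) (h : ∀ a b c, R a b → R' b c → R'' a c) :
    AOp H R'' (U ∘L T) := by
  refine ⟨hU.eqv.comp hT.eqv, fun ω => ?_, fun ω ω'' e => ?_⟩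
  · refine ((hT.fin ω).biUnion fun ω' _ => hU.fin ω').subset fun ω'' e => ?_
    obtain ⟨ω', h1, h2⟩ := exists_entry (T := U) e
    exact Set.mem_biUnion h1 h2
  · obtain ⟨ω', h1, h2⟩ := exists_entry (T := U) e
    exact h _ _ _ (hT.ent _ _ h1) (hU.ent _ _ h2)

lemma lcomp {l : Ω → Λ} {l' : Ω' → Λ} {l'' : Ω'' → Λ} {U : L2 Ω' →L[ℂ] L2 Ω''}
    (hU : AOp H (LR l' l'') U) (hT : AOp H (LR l l') T) : AOp H (LR l l'') (U ∘L T) :=
  hU.comp hT fun _ _ _ h h' => h.trans h'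

lemma add (hS : AOp H R S) (hT : AOp H R T) : AOp H R (S + T) := by
  have key : ∀ ω ω', ev ω' ((S + T) (dl ω)) ≠ 0 → ev ω' (S (dl ω)) ≠ 0 ∨ ev ω' (T (dl ω)) ≠ 0 := by
    intro ω ω' h
    by_contra hc
    push Not at hc
    simp [hc.1, hc.2] at h
  refine ⟨hS.eqv.add hT.eqv, fun ω => ((hS.fin ω).union (hT.fin ω)).subset fun ω' e => key _ _ e,
    fun ω ω' e => (key _ _ e).elim (hS.ent _ _) (hT.ent _ _)⟩

lemma smul (c : ℂ) (hT : AOp H R T) : AOp H R (c • T) := by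
  have key : ∀ ω ω', ev ω' ((c • T) (dl ω)) ≠ 0 → ev ω' (T (dl ω)) ≠ 0 := by
    intro ω ω' h hc
    simp [hc] at h
  exact ⟨hT.eqv.smul c, fun ω => (hT.fin ω).subset fun ω' e => key _ _ e,
    fun ω ω' e => hT.ent _ _ (key _ _ e)⟩

lemma sub (hS : AOp H R S) (hT : AOp H R T) : AOp H R (S - T) := by
  have : S - T = S + (-1 : ℂ) • T := by simp [sub_eq_add_neg]
  rw [this]; exact hS.add (hT.smul _)

lemma zero : AOp H R (0 : L2 Ω →L[ℂ] L2 Ω') :=
  ⟨Eqop.zero, fun ω => by simp, fun ω ω' h => by simp at h⟩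

lemma push {j : Ω ↪ Ω'} (hj : Eqv H j) (h : ∀ ω, R ω (j ω)) : AOp H R (push j) := by
  refine ⟨Eqop.push hj, fun ω => (Set.finite_singleton (j ω)).subset fun ω' e => ?_,
    fun ω ω' e => ?_⟩
  · rw [Set.mem_ofPred_eq, push_dl] at e; exact eq_of_ev_dl e
  · rw [push_dl] at e; rw [eq_of_ev_dl e]; exact h ω

lemma pull {j : Ω' ↪ Ω} (hj : Eqv H j) (h : ∀ ω, R (j ω) ω) : AOp H R (pull j) := by
  refine ⟨Eqop.pull hj, fun ω => ((Set.finite_singleton ω).preimage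
    j.injective.injOn).subset fun ω' e => ?_, fun ω ω' e => ?_⟩
  · rw [Set.mem_ofPred_eq, ev_pull] at e; exact eq_of_ev_dl e
  · rw [ev_pull] at e; rw [← eq_of_ev_dl e]; exact h ω'

lemma P {R : Ω → Ω → Prop} {A : Set Ω} (hA : ∀ (g : H) ω, g • ω ∈ A ↔ ω ∈ A)
    (h : ∀ ω ∈ A, R ω ω) : AOp H R (P A) := by
  have key : ∀ ω ω', ev ω' (MP_54e5d7_al.P A (dl ω)) ≠ 0 → ω' = ω ∧ ω ∈ A := by
    intro ω ω' e
    rw [P_dl] at e
    split_ifs at e with h1
    · exact ⟨eq_of_ev_dl e, h1⟩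
    · simp at e
  refine ⟨Eqop.P hA, fun ω => (Set.finite_singleton ω).subset fun ω' e => (key _ _ e).1,
    fun ω ω' e => ?_⟩
  obtain ⟨rfl, h1⟩ := key _ _ e
  exact h _ h1

lemma id {R : Ω → Ω → Prop} (h : ∀ ω, R ω ω) : AOp H R (ContinuousLinearMap.id ℂ (L2 Ω)) :=
  ⟨Eqop.id, fun ω => (Set.finite_singleton ω).subset fun _ e => eq_of_ev_dl e,
    fun ω ω' e => by rw [eq_of_ev_dl (ω := ω') (ω' := ω) e]; exact h ω⟩

lemma π₁ {l : Ω → Λ} {l' : Ω' → Λ} : AOp H (LR (Sum.elim l l') l) π₁ :=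
  pull (fun _ _ => rfl) fun _ => rfl
lemma π₂ {l : Ω → Λ} {l' : Ω' → Λ} : AOp H (LR (Sum.elim l l') l') π₂ :=
  pull (fun _ _ => rfl) fun _ => rfl
lemma ι₁ {l : Ω → Λ} {l' : Ω' → Λ} : AOp H (LR l (Sum.elim l l')) ι₁ :=
  push (fun _ _ => rfl) fun _ => rfl
lemma ι₂ {l : Ω → Λ} {l' : Ω' → Λ} : AOp H (LR l' (Sum.elim l l')) ι₂ :=
  push (fun _ _ => rfl) fun _ => rfl

lemma coarse {l : Ω → Λ} {l' : Ω' → Λ} (hT : AOp H (LR l l') T) (f : Λ → Λ') :
    AOp H (LR (fun ω => f (l ω)) (fun ω => f (l' ω))) T := hT.mono fun _ _ e => congrArg f e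

end AOp

/-- The orbit map of a point. -/
def orb [FC H Ω] (ω : Ω) : H ↪ Ω := ⟨fun h => h • ω, fun _ _ e => FC.smul_inj e⟩

lemma eqv_orb [FC H Ω] (ω : Ω) : Eqv H (orb ω : H ↪ Ω) := fun g h => mul_smul g h ω

/-- Existence of an operator with a prescribed invariant column-finite matrix. -/
lemma exists_op [FC H Ω] [FC H Ω'] (κ : Ω → Ω' → ℂ)
    (hinv : ∀ (g : H) ω ω', κ (g • ω) (g • ω') = κ ω ω')
    (hfin : ∀ ω, {ω' | κ ω ω' ≠ 0}.Finite) :
    ∃ T : L2 Ω →L[ℂ] L2 Ω', Eqop H T ∧ ∀ ω ω', ev ω' (T (dl ω)) = κ ω ω' := by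
  let T : L2 Ω →L[ℂ] L2 Ω' := ∑ q : Q H Ω, ∑ ω' ∈ (hfin q.out).toFinset,
    κ q.out ω' • (push (orb ω' : H ↪ Ω') ∘L pull (orb q.out : H ↪ Ω))
  have hT : Eqop H T := Eqop.sum _ fun q _ => Eqop.sum _ fun ω' _ =>
    ((Eqop.push (eqv_orb ω')).comp (Eqop.pull (eqv_orb q.out))).smul _
  have h1 : ∀ (q₀ : Q H Ω) ω'', ev ω'' (T (dl q₀.out)) = κ q₀.out ω'' := by
    intro q₀ ω''
    simp only [T, sum_apply, map_sum, smul_apply, comp_apply, map_smul, smul_eq_mul]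
    rw [Finset.sum_eq_single q₀]
    · have e : pull (orb q₀.out : H ↪ Ω) (dl q₀.out) = dl 1 := by
        have := pull_dl (orb q₀.out : H ↪ Ω) 1
        rwa [show (orb q₀.out : H ↪ Ω) 1 = q₀.out from one_smul _ _] at this
      have e' : ∀ ω' : Ω', (orb ω' : H ↪ Ω') 1 = ω' := fun ω' => one_smul _ _
      simp only [e, push_dl, e', ev_dl, mul_ite, mul_one, mul_zero, Finset.sum_ite_eq,
        Set.Finite.mem_toFinset, Set.mem_ofPred_eq]
      split_ifs with h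
      · rfl
      · exact (not_not.1 h).symm
    · intro q _ hq
      refine Finset.sum_eq_zero fun ω' _ => ?_
      rw [pull_dl_of_not_mem, map_zero, map_zero, mul_zero]
      rintro ⟨g, e⟩
      apply hq
      have := congr(cls H $e)
      rwa [show (orb q.out : H ↪ Ω) g = g • q.out from rfl, cls_smul, cls_out, cls_out] at this
    · simp
  refine ⟨T, hT, fun ω ω' => ?_⟩
  obtain ⟨g, e⟩ := exists_smul_out H ω
  rw [← e, ← smul_inv_smul g ω', hT.entry, hinv, h1]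

/-- Equivariant choice. -/
lemma exists_eqv [FC H Ω] {Θ : Type} [MulAction H Θ] (Pr : Ω → Θ → Prop)
    (hinv : ∀ (g : H) ω θ, Pr ω θ → Pr (g • ω) (g • θ)) (hex : ∀ ω, ∃ θ, Pr ω θ) :
    ∃ l : Ω → Θ, Eqv H l ∧ ∀ ω, Pr ω (l ω) := by
  choose f hf using hex
  choose a ha using exists_smul_out H (Ω := Ω)
  refine ⟨fun ω => a ω • f (cls H ω).out, fun g ω => ?_, fun ω => ?_⟩
  · have : a (g • ω) = g * a ω := by
      have h1 := ha (g • ω)
      rw [cls_smul] at h1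
      exact FC.smul_inj (ω := (cls H ω).out) (by rw [h1, mul_smul, ha])
    simp only [this, cls_smul, mul_smul]
  · have := hinv (a ω) _ _ (hf (cls H ω).out)
    rwa [ha] at this

variable [MulAction H Λ] [MulAction H Λ']

lemma Eqv.sum {l : Ω → Λ} {l' : Ω' → Λ} (h : Eqv H l) (h' : Eqv H l') : Eqv H (Sum.elim l l') := by
  rintro g (ω | ω)
  · exact h g ω
  · exact h' g ω

variable (H) in
/-- Algebraic subspaces: projections of kernels of matrices over the group ring, whose entries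
relate `R`-related locations. -/
def AlgR (R : Λ → Λ → Prop) (l : Ω → Λ) (V : CS Ω) : Prop :=
  ∃ (Ω₁ : Type) (_ : MulAction H Ω₁) (_ : FC H Ω₁) (l₁ : Ω₁ → Λ) (j : Ω ↪ Ω₁)
    (Z : L2 Ω₁ →L[ℂ] L2 Ω₁), Eqv H l₁ ∧ Eqv H j ∧ (∀ ω, l₁ (j ω) = l ω) ∧
    AOp H (fun a b => R (l₁ a) (l₁ b)) Z ∧ V = (kr Z).map (pull j)

variable (H) in
/-- Locally algebraic subspaces. -/
def Alg (l : Ω → Λ) (V : CS Ω) : Prop := AlgR H Eq l V

variable (H) in
/-- Kernels of local matrices. -/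
def Ker (l : Ω → Λ) (V : CS Ω) : Prop :=
  ∃ (Ω₁ : Type) (_ : MulAction H Ω₁) (_ : FC H Ω₁) (l₁ : Ω₁ → Λ)
    (Z : L2 Ω →L[ℂ] L2 Ω₁), Eqv H l₁ ∧ AOp H (LR l l₁) Z ∧ V = kr Z

lemma AlgR.mono {R R' : Λ → Λ → Prop} {l : Ω → Λ} {V : CS Ω} (h : AlgR H R l V)
    (hR : ∀ a b, R a b → R' a b) : AlgR H R' l V := by
  obtain ⟨Ω₁, _, _, l₁, j, Z, h1, h2, h3, h4, h5⟩ := h
  exact ⟨Ω₁, _, inferInstance, l₁, j, Z, h1, h2, h3, h4.mono fun _ _ => hR _ _, h5⟩

lemma AlgR.invt {R : Λ → Λ → Prop} {l : Ω → Λ} {V : CS Ω} (h : AlgR H R l V) : Invt H V := by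
  obtain ⟨Ω₁, _, _, l₁, j, Z, h1, h2, h3, h4, rfl⟩ := h
  exact (Invt.kr h4.eqv).map (Eqop.pull h2)

lemma AlgR.eqv {R : Λ → Λ → Prop} {l : Ω → Λ} {V : CS Ω} (h : AlgR H R l V) : Eqv H l := by
  obtain ⟨Ω₁, _, _, l₁, j, Z, h1, h2, h3, h4, rfl⟩ := h
  intro g ω
  rw [← h3, ← h3, h2, h1]

lemma AlgR.pull {R : Λ → Λ → Prop} {l : Ω → Λ} {V : CS Ω} (h : AlgR H R l V) {e : Ω' ↪ Ω}
    (he : Eqv H e) : AlgR H R (fun ω => l (e ω)) (V.map (pull e)) := by
  obtain ⟨Ω₁, _, _, l₁, j, Z, h1, h2, h3, h4, rfl⟩ := h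
  refine ⟨Ω₁, _, inferInstance, l₁, e.trans j, Z, h1, h2.comp he, fun ω => h3 _, h4, ?_⟩
  rw [map_map]
  exact map_congr fun ξ _ => pull_pull _ _ _

/-- Lifting locations along a surjection. -/
lemma AlgR.lift {R : Λ' → Λ' → Prop} {f : Λ → Λ'} (hf : Eqv H f) (hs : Function.Surjective f)
    {l : Ω → Λ} (hl : Eqv H l) {V : CS Ω} (h : AlgR H R (fun ω => f (l ω)) V) :
    AlgR H (fun a b => R (f a) (f b)) l V := by
  obtain ⟨Ω₁, _, _, l₁, j, Z, h1, h2, h3, h4, rfl⟩ := h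
  obtain ⟨l₂, h5, h6⟩ := exists_eqv (H := H)
    (fun (ω₁ : Ω₁) (θ : Λ) => f θ = l₁ ω₁ ∧ ∀ ω, j ω = ω₁ → θ = l ω) (by
      rintro g ω₁ θ ⟨e1, e2⟩
      refine ⟨by rw [hf, h1, e1], fun ω e => ?_⟩
      rw [e2 (g⁻¹ • ω) (by rw [h2, e, inv_smul_smul]), hl, smul_inv_smul]) (by
      intro ω₁
      by_cases hr : ω₁ ∈ Set.range j
      · obtain ⟨ω, rfl⟩ := hr
        exact ⟨l ω, (h3 ω).symm, fun ω' e => by rw [j.injective e]⟩
      · obtain ⟨θ, e⟩ := hs (l₁ ω₁)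
        exact ⟨θ, e, fun ω e' => absurd ⟨ω, e'⟩ hr⟩)
  exact ⟨Ω₁, _, inferInstance, l₂, j, Z, h5, h2, fun ω => (h6 _).2 ω rfl,
    h4.mono fun a b e => by simpa only [(h6 a).1, (h6 b).1] using e, rfl⟩

/-- An algebraic subspace only involves finitely many orbits of pairs of locations. -/
lemma AlgR.exhaust {R₀ : Λ → Λ → Prop} {R : ℕ → Λ → Λ → Prop} {l : Ω → Λ} {V : CS Ω}
    (h : AlgR H R₀ l V) (hinv : ∀ n (g : H) a b, R n a b → R n (g • a) (g • b))
    (hR : ∀ a b, R₀ a b → ∀ᶠ n in Filter.atTop, R n a b) :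
    ∀ᶠ n in Filter.atTop, AlgR H (R n) l V := by
  obtain ⟨Ω₁, _, _, l₁, j, Z, h1, h2, h3, h4, rfl⟩ := h
  have : ∀ᶠ n in Filter.atTop, ∀ q : Q H Ω₁, ∀ b ∈ {b | ev b (Z (dl q.out)) ≠ 0},
      R n (l₁ q.out) (l₁ b) := by
    rw [Filter.eventually_all]
    intro q
    rw [Filter.eventually_all_finite (h4.fin q.out)]
    intro b hb
    exact hR _ _ (h4.ent _ _ hb)
  filter_upwards [this] with n hn
  refine ⟨Ω₁, _, inferInstance, l₁, j, Z, h1, h2, h3, ⟨h4.eqv, h4.fin, fun a b e => ?_⟩, rfl⟩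
  obtain ⟨g, hg⟩ := exists_smul_out H a
  have := hinv n g _ _ (hn (cls H a) (g⁻¹ • b) (by
    rw [← h4.eqv.entry g, hg, smul_inv_smul]; exact e))
  rwa [← h1, ← h1, hg, smul_inv_smul] at this

namespace Ker
variable {l : Ω → Λ} {l' : Ω' → Λ} {U V : CS Ω}

lemma kr [FC H Ω'] (hl' : Eqv H l') {Z : L2 Ω →L[ℂ] L2 Ω'} (hZ : AOp H (LR l l') Z) :
    Ker H l (kr Z) := ⟨Ω', _, inferInstance, l', Z, hl', hZ, rfl⟩

lemma inf (hU : Ker H l U) (hV : Ker H l V) : Ker H l (U ⊓ V) := by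
  obtain ⟨Ω₁, _, _, l₁, Z₁, h1, h2, rfl⟩ := hU
  obtain ⟨Ω₂, _, _, l₂, Z₂, h3, h4, rfl⟩ := hV
  refine ⟨Ω₁ ⊕ Ω₂, _, inferInstance, Sum.elim l₁ l₂, ι₁ ∘L Z₁ + ι₂ ∘L Z₂, h1.sum h3,
    (AOp.ι₁.lcomp h2).add (AOp.ι₂.lcomp h4), CS.ext' fun ξ => ?_⟩
  simp only [ClosedSubmodule.mem_inf, mem_kr, add_apply, comp_apply]
  constructor
  · rintro ⟨a, b⟩; simp [a, b]
  · intro h
    exact ⟨by simpa using congr(π₁ $h), by simpa using congr(π₂ $h)⟩

lemma comap {W : CS Ω'} (hW : Ker H l' W) {T : L2 Ω →L[ℂ] L2 Ω'} (hT : AOp H (LR l l') T) :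
    Ker H l (W.comap T) := by
  obtain ⟨Ω₁, _, _, l₁, Z₁, h1, h2, rfl⟩ := hW
  exact ⟨Ω₁, _, inferInstance, l₁, Z₁ ∘L T, h1, h2.lcomp hT, rfl⟩

lemma ds {W : CS Ω'} (hV : Ker H l V) (hW : Ker H l' W) : Ker H (Sum.elim l l') (ds V W) :=
  (hV.comap AOp.π₁).inf (hW.comap AOp.π₂)

lemma alg_map [FC H Ω] [FC H Ω'] (hl : Eqv H l) (hl' : Eqv H l') (hV : Ker H l V)
    {T : L2 Ω →L[ℂ] L2 Ω'} (hT : AOp H (LR l l') T) : Alg H l' (V.map T) := by
  obtain ⟨Ω₁, _, _, l₁, Z, h1, h2, rfl⟩ := hV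
  refine ⟨Ω' ⊕ Ω ⊕ Ω₁, _, inferInstance, Sum.elim l' (Sum.elim l l₁), Function.Embedding.inl,
    ι₁ ∘L (π₁ - T ∘L π₁ ∘L π₂) + ι₂ ∘L ι₂ ∘L Z ∘L π₁ ∘L π₂, hl'.sum (hl.sum h1),
    fun _ _ => rfl, fun _ => rfl, ?_, ?_⟩
  · exact (AOp.ι₁.lcomp (AOp.π₁.sub (hT.lcomp (AOp.π₁.lcomp AOp.π₂)))).add
      (AOp.ι₂.lcomp (AOp.ι₂.lcomp (h2.lcomp (AOp.π₁.lcomp AOp.π₂))))
  · apply le_antisymm <;> rw [map_le] <;> intro ξ h
    · have h0 : Z ξ = 0 := h
      have : (ι₁ (T ξ) + ι₂ (ι₁ ξ) : L2 (Ω' ⊕ Ω ⊕ Ω₁)) ∈ MP_54e5d7_al.kr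
          (ι₁ ∘L (π₁ - T ∘L π₁ ∘L π₂) + ι₂ ∘L ι₂ ∘L Z ∘L π₁ ∘L π₂ :
            L2 (Ω' ⊕ Ω ⊕ Ω₁) →L[ℂ] L2 (Ω' ⊕ Ω ⊕ Ω₁)) := by simp [h0]
      simpa using mem_map (T := π₁) this
    · rw [mem_kr] at h
      have e1 : π₁ ξ = T (π₁ (π₂ ξ)) := by simpa [sub_eq_zero] using congr(π₁ $h)
      have e2 : Z (π₁ (π₂ ξ)) = 0 := by simpa using congr(π₂ (π₂ $h))
      change π₁ ξ ∈ _
      rw [e1]; exact mem_map e2

lemma alg [FC H Ω] (hl : Eqv H l) (hV : Ker H l V) : Alg H l V := by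
  have := hV.alg_map hl hl (AOp.id fun _ => rfl)
  rwa [ClosedSubmodule.map_id] at this

end Ker

namespace Alg
variable {l : Ω → Λ} {l' : Ω' → Λ} {U V : CS Ω}

lemma invt (h : Alg H l V) : Invt H V := AlgR.invt h
lemma eqv (h : Alg H l V) : Eqv H l := AlgR.eqv h

lemma exists_ker (h : Alg H l V) : ∃ (Ω₁ : Type) (_ : MulAction H Ω₁) (_ : FC H Ω₁) (l₁ : Ω₁ → Λ)
    (T : L2 Ω₁ →L[ℂ] L2 Ω) (K : CS Ω₁), Eqv H l₁ ∧ AOp H (LR l₁ l) T ∧ Ker H l₁ K ∧ Invt H K ∧
    Loc l₁ K ∧ V = K.map T := by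
  obtain ⟨Ω₁, _, _, l₁, j, Z, h1, h2, h3, h4, rfl⟩ := h
  exact ⟨Ω₁, _, inferInstance, l₁, pull j, kr Z, h1, AOp.pull h2 h3, Ker.kr h1 h4,
    Invt.kr h4.eqv, Loc.kr h4.ent, rfl⟩

lemma loc (h : Alg H l V) : Loc l V := by
  obtain ⟨Ω₁, _, _, l₁, T, K, h1, h2, h3, h4, h5, rfl⟩ := h.exists_ker
  exact h5.map h2.ent

lemma coarse (h : Alg H l V) {f : Λ → Λ'} (hf : Eqv H f) : Alg H (fun ω => f (l ω)) V := by
  obtain ⟨Ω₁, _, _, l₁, j, Z, h1, h2, h3, h4, rfl⟩ := h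
  exact ⟨Ω₁, _, inferInstance, fun ω => f (l₁ ω), j, Z, hf.comp h1, h2, fun ω => congrArg f (h3 ω),
    h4.mono fun _ _ e => congrArg f e, rfl⟩

lemma unit (h : Alg H l V) : Alg H (fun _ => ()) V := h.coarse Eqv.unit

variable [FC H Ω] [FC H Ω']

lemma kr (hl : Eqv H l) (hl' : Eqv H l') {Z : L2 Ω →L[ℂ] L2 Ω'} (hZ : AOp H (LR l l') Z) :
    Alg H l (kr Z) := (Ker.kr hl' hZ).alg hl

lemma top (hl : Eqv H l) : Alg H l ⊤ := by
  have := kr hl hl (Z := 0) AOp.zero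
  rwa [show MP_54e5d7_al.kr (0 : L2 Ω →L[ℂ] L2 Ω) = ⊤ from CS.ext' fun _ => by simp] at this

lemma bot (hl : Eqv H l) : Alg H l ⊥ := kr hl hl (AOp.id fun _ => rfl)

omit [FC H Ω] in
lemma map (hV : Alg H l V) (hl' : Eqv H l') {S : L2 Ω →L[ℂ] L2 Ω'} (hS : AOp H (LR l l') S) :
    Alg H l' (V.map S) := by
  obtain ⟨Ω₁, _, _, l₁, T, K, h1, h2, h3, h4, h5, rfl⟩ := hV.exists_ker
  rw [map_map]
  exact h3.alg_map h1 hl' (hS.lcomp h2)

lemma inf_comap (hV : Alg H l V) {W : CS Ω'} (hW : Alg H l' W) {S : L2 Ω →L[ℂ] L2 Ω'}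
    (hS : AOp H (LR l l') S) : Alg H l (V ⊓ W.comap S) := by
  have hl := hV.eqv
  have hl' := hW.eqv
  have iW := hW.invt
  obtain ⟨Ω₁, _, _, l₁, T₁, K₁, h1, h2, h3, h4, h5, rfl⟩ := hV.exists_ker
  obtain ⟨Ω₂, _, _, l₂, T₂, K₂, k1, k2, k3, k4, k5, rfl⟩ := hW.exists_ker
  rw [← map_inf_comap h2.eqv h4 (iW.comap hS.eqv), ClosedSubmodule.comap_comap,
    ← map_fibre h4 k4 (hS.eqv.comp h2.eqv) k2.eqv, map_map]
  exact ((h3.ds k3).inf (Ker.kr hl' (((hS.lcomp h2).lcomp AOp.π₁).sub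
    (k2.lcomp AOp.π₂)))).alg_map (h1.sum k1) hl (h2.lcomp AOp.π₁)

lemma inf (hU : Alg H l U) (hV : Alg H l V) : Alg H l (U ⊓ V) :=
  hU.inf_comap hV (AOp.id fun _ => rfl)

lemma comap (hl : Eqv H l) {W : CS Ω'} (hW : Alg H l' W) {S : L2 Ω →L[ℂ] L2 Ω'}
    (hS : AOp H (LR l l') S) : Alg H l (W.comap S) := by
  simpa using (top hl).inf_comap hW hS

lemma sup (hU : Alg H l U) (hV : Alg H l V) : Alg H l (U ⊔ V) := by
  have hl := hV.eqv
  obtain ⟨Ω₁, _, _, l₁, T₁, K₁, h1, h2, h3, h4, h5, rfl⟩ := hU.exists_ker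
  obtain ⟨Ω₂, _, _, l₂, T₂, K₂, k1, k2, k3, k4, k5, rfl⟩ := hV.exists_ker
  rw [← map_ds]
  exact (h3.ds k3).alg_map (h1.sum k1) hl ((h2.lcomp AOp.π₁).add (k2.lcomp AOp.π₂))

lemma ds {W : CS Ω'} (hV : Alg H l V) (hW : Alg H l' W) : Alg H (Sum.elim l l') (ds V W) :=
  (hV.comap (hV.eqv.sum hW.eqv) AOp.π₁).inf (hW.comap (hV.eqv.sum hW.eqv) AOp.π₂)

lemma biSup (hl : Eqv H l) {ι : Type} (s : Finset ι) {V : ι → CS Ω} (h : ∀ i ∈ s, Alg H l (V i)) :
    Alg H l (⨆ i ∈ s, V i) := by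
  induction s using Finset.induction_on with
  | empty => simpa using bot hl
  | insert a s _ ih =>
    rw [Finset.iSup_insert]
    exact (h a (by simp)).sup (ih fun i hi => h i (by simp [hi]))

lemma iInf (hl : Eqv H l) {ι : Type} [Finite ι] {V : ι → CS Ω} (h : ∀ i, Alg H l (V i)) :
    Alg H l (⨅ i, V i) := by
  have := Fintype.ofFinite ι
  have : ∀ s : Finset ι, Alg H l (⨅ i ∈ s, V i) := fun s => by
    induction s using Finset.induction_on with
    | empty => simpa using top hl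
    | insert a s _ ih =>
      rw [Finset.iInf_insert]
      exact (h a).inf ih
  simpa using this Finset.univ

end Alg

end Pool.Agent.MP_54e5d7_al

end
end MrgPart0

-- ======== part 1: formerly Pool.Agent.MP_54e5d7_al.Change
section MrgPart1

/-!
Change of groups: restriction, induction, dimension formulas.
-/

set_option autoImplicit false

open scoped InnerProductSpace
open Classical ContinuousLinearMap

noncomputable section
namespace Pool.Agent.MP_54e5d7_al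

variable {K H : Type} [Group K] [Group H] {Ω Ω' Ω₂ Λ Λ' : Type}
  [MulAction H Ω] [MulAction K Ω'] [MulAction H Ω₂] [MulAction H Λ] [MulAction K Λ']

/-- Maps that are equivariant along a homomorphism. -/
def EqvI (ι : K →* H) {A B : Type} [MulAction K A] [MulAction H B] (f : A → B) : Prop :=
  ∀ (k : K) a, f (k • a) = ι k • f a

variable {ι : K →* H}

lemma EqvI.push_u {j : Ω' ↪ Ω} (hj : EqvI ι j) (k : K) (ξ : L2 Ω') :
    push j (u k ξ) = u (ι k) (push j ξ) := by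
  have : push j ∘L u k = u (ι k) ∘L push j := op_ext fun ω => by
    simp only [comp_apply, u_dl, push_dl, hj k]
  exact congr($this ξ)

lemma EqvI.pull_u {j : Ω' ↪ Ω} (hj : EqvI ι j) (k : K) (ξ : L2 Ω) :
    pull j (u (ι k) ξ) = u k (pull j ξ) :=
  L2.ext fun ω => by simp [hj k⁻¹]

lemma Invt.comap_push {j : Ω' ↪ Ω} (hj : EqvI ι j) {V : CS Ω} (hV : Invt H V) :
    Invt K (V.comap (push j)) := fun k ξ h => by
  rw [ClosedSubmodule.mem_comap, hj.push_u]; exact hV _ _ h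

lemma fc_of_block [FC H Ω] (hι : Function.Injective ι) {j : Ω' ↪ Ω} (hj : EqvI ι j) {E : Set H}
    (hE : E.Finite) (hb : ∀ (h : H) a b, h • j a = j b → ∃ k, ∃ e ∈ E, h = ι k * e) : FC K Ω' where
  free := fun k a e => hι (by
    rw [map_one]; exact FC.free _ (j a) (by rw [← hj, e]))
  fin := by
    rcases isEmpty_or_nonempty Ω' with h0 | h0
    · exact fin_of_cover (ι := Empty) Empty.elim fun a => h0.elim a
    have : Finite E := hE
    refine fin_of_cover (ι := Q H Ω × E) (fun p => Function.invFun j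
      (p.2.1 • j (Function.invFun (fun a => cls H (j a)) p.1))) fun a => ?_
    have h1 : cls H (j (Function.invFun (fun a => cls H (j a)) (cls H (j a)))) = cls H (j a) :=
      Function.invFun_eq (f := fun a => cls H (j a)) ⟨a, rfl⟩
    obtain ⟨h, hh⟩ := cls_eq_iff.1 h1.symm
    obtain ⟨k, e, he, rfl⟩ := hb _ _ _ hh
    refine ⟨k, (cls H (j a), ⟨e, he⟩), ?_⟩
    have h2 : e • j (Function.invFun (fun a => cls H (j a)) (cls H (j a))) = j (k⁻¹ • a) := by
      rw [hj, map_inv, eq_inv_smul_iff, ← mul_smul, hh]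
    simp only [h2]
    rw [Function.leftInverse_invFun j.injective, smul_inv_smul]

/-- Restriction of algebraic subspaces. -/
theorem alg_res (hι : Function.Injective ι) {σ : Λ' → Λ} (hσ : EqvI ι σ)
    (hσi : Function.Injective σ) {j : Ω' ↪ Ω} (hj : EqvI ι j) {l' : Ω' → Λ'} {l : Ω → Λ}
    (hl : ∀ a, l (j a) = σ (l' a)) (hr : ∀ ω, l ω ∈ Set.range σ → ω ∈ Set.range j) {E : Set H}
    (hE : E.Finite) (hb : ∀ (h : H) x y, h • σ x = σ y → ∃ k, ∃ e ∈ E, h = ι k * e) {V : CS Ω}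
    (hV : Alg H l V) : Alg K l' (V.comap (push j)) := by
  have lV := hV.loc
  obtain ⟨Ω₁, _, _, l₁, i, Z, h1, h2, h3, h4, rfl⟩ := hV
  let Ω₃ := {ω : Ω₁ // l₁ ω ∈ Set.range σ}
  let _ : MulAction K Ω₃ :=
    { smul := fun k ω => ⟨ι k • ω.1, by
        obtain ⟨x, hx⟩ := ω.2
        exact ⟨k • x, by rw [hσ, h1, hx]⟩⟩
      one_smul := fun ω => Subtype.ext (by change ι 1 • ω.1 = ω.1; simp)
      mul_smul := fun a b ω => Subtype.ext (by
        change ι (a * b) • ω.1 = ι a • ι b • ω.1; simp [mul_smul]) }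
  let v : Ω₃ ↪ Ω₁ := Function.Embedding.subtype _
  have hv : EqvI ι v := fun _ _ => rfl
  choose l₃ hl₃ using fun ω : Ω₃ => ω.2
  have : FC K Ω₃ := fc_of_block hι hv hE fun h a b e =>
    hb h (l₃ a) (l₃ b) (by rw [hl₃, hl₃, ← h1]; exact congrArg l₁ e)
  have e3 : Eqv K l₃ := fun k ω => hσi (by rw [hσ, hl₃, hl₃, ← h1]; rfl)
  let j' : Ω' ↪ Ω₃ := ⟨fun a => ⟨i (j a), l' a, by rw [h3, hl]⟩, fun a b e =>
    j.injective (i.injective (congrArg Subtype.val e))⟩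
  have rv : Set.range v = l₁ ⁻¹' Set.range σ := Subtype.range_coe
  have hZ : ∀ ξ, pull v (Z (push v (pull v ξ))) = pull v (Z ξ) := fun ξ => by
    rw [push_pull, rv, h4.ent.comm_loc, pull_P]
    have : v ⁻¹' (l₁ ⁻¹' Set.range σ) = Set.univ := Set.eq_univ_of_forall fun ω => ω.2
    rw [this, P_univ]
  refine ⟨Ω₃, _, inferInstance, l₃, j', pull v ∘L Z ∘L push v, e3, fun k a => Subtype.ext ?_,
    fun a => hσi ?_, ⟨fun k ξ => ?_, fun a => ?_, fun a b e => hσi ?_⟩, ?_⟩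
  · change i (j (k • a)) = ι k • i (j a)
    rw [hj, h2]
  · rw [hl₃, ← hl, ← h3]; rfl
  · simp only [comp_apply, hv.push_u, h4.eqv _, hv.pull_u]
  · simp only [comp_apply, push_dl, ev_pull]
    exact (h4.fin (v a)).preimage v.injective.injOn
  · simp only [comp_apply, push_dl, ev_pull] at e
    rw [hl₃, hl₃]; exact h4.ent _ _ e
  · have e1 : ((kr Z).map (pull i)).comap (push j) = ((kr Z).map (pull i)).map (pull j) := by
      apply le_antisymm
      · intro ξ h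
        have := mem_map (T := pull j) (ClosedSubmodule.mem_comap.1 h)
        rwa [pull_push] at this
      · rw [map_le]
        intro ξ h
        have rj : Set.range j = l ⁻¹' Set.range σ := Set.Subset.antisymm
          (by rintro _ ⟨a, rfl⟩; exact ⟨_, (hl a).symm⟩) hr
        rw [ClosedSubmodule.mem_comap, push_pull, rj]
        exact lV.pre _ h
    rw [e1, map_map]
    apply le_antisymm <;> rw [map_le] <;> intro ξ h
    · have h5 : pull v ξ ∈ kr (pull v ∘L Z ∘L push v) := by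
        rw [mem_kr, comp_apply, comp_apply, hZ, mem_kr.1 h, map_zero]
      have := mem_map (T := pull j') h5
      rw [pull_pull] at this
      rw [comp_apply, pull_pull]; exact this
    · have h5 : push v ξ ∈ kr Z := by
        have h6 : P (Set.range v) (push v ξ) = push v ξ := by rw [← push_pull, pull_push]
        rw [mem_kr, ← h6, rv, h4.ent.comm_loc, ← rv, ← push_pull]
        rw [mem_kr, comp_apply, comp_apply] at h
        rw [h, map_zero]
      have := mem_map (T := pull j ∘L pull i) h5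
      have e : (pull j ∘L pull i) (push v ξ) = pull j' ξ := L2.ext fun a => by
        rw [comp_apply, ev_pull, ev_pull, ev_pull, ← ev_push v]; rfl
      rwa [e] at this

/-- `j` exhibits `Ω` as the `H`-set induced from the `K`-set `Ω'`. -/
structure IsInd (ι : K →* H) (j : Ω' ↪ Ω) : Prop where
  eqv : EqvI ι j
  surj : ∀ ω, ∃ (h : H) (a : Ω'), h • j a = ω
  block : ∀ (h : H) a b, h • j a = j b → h ∈ ι.range

lemma exists_isInd [FC K Ω'] (hι : Function.Injective ι) :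
    ∃ (Ω : Type) (_ : MulAction H Ω) (_ : FC H Ω) (j : Ω' ↪ Ω), IsInd ι j := by
  choose g hg using exists_smul_out K (Ω := Ω')
  have hg' : ∀ (k : K) a, g (k • a) = k * g a := fun k a => by
    have h1 := hg (k • a)
    rw [cls_smul] at h1
    exact FC.smul_inj (ω := (cls K a).out) (by rw [h1, mul_smul, hg])
  refine ⟨Σ _ : Q K Ω', H, inferInstance, ⟨?_, ?_⟩, ⟨fun a => ⟨cls K a, ι (g a)⟩, ?_⟩, ?_, ?_, ?_⟩
  · rintro h ⟨q, x⟩ e
    simpa using e
  · exact fin_of_cover (ι := Q K Ω') (fun q => ⟨q, 1⟩) fun ⟨q, x⟩ => ⟨x, q, by simp⟩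
  · intro a b e
    simp only [Sigma.mk.injEq, heq_eq_eq] at e
    rw [← hg a, ← hg b, e.1, hι e.2]
  · intro k a
    simp [hg']
  · rintro ⟨q, x⟩
    exact ⟨x * (ι (g q.out))⁻¹, q.out, by simp⟩
  · intro h a b e
    simp only [Function.Embedding.coeFn_mk, Sigma.smul_mk, Sigma.mk.injEq, heq_eq_eq,
      smul_eq_mul] at e
    exact ⟨g b * (g a)⁻¹, by rw [map_mul, map_inv, ← e.2, mul_inv_cancel_right]⟩

lemma IsInd.exists_fun {j : Ω' ↪ Ω} (hj : IsInd ι j) {f : Ω' → Λ} (hf : EqvI ι f) :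
    ∃ l : Ω → Λ, Eqv H l ∧ ∀ a, l (j a) = f a := by
  choose g c hg using hj.surj
  have key : ∀ (h : H) a, g (h • j a) • f (c (h • j a)) = h • f a := fun h a => by
    obtain ⟨k, hk⟩ := hj.block (h⁻¹ * g (h • j a)) (c (h • j a)) a (by
      rw [mul_smul, hg, inv_smul_smul])
    have h1 : k • c (h • j a) = a := j.injective (by rw [hj.eqv, hk, mul_smul, hg, inv_smul_smul])
    conv_rhs => rw [← h1, hf, hk, mul_smul, smul_inv_smul]
  refine ⟨fun ω => g ω • f (c ω), fun h ω => ?_, fun a => ?_⟩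
  · have := key (h * g ω) (c ω)
    rwa [mul_smul, hg, mul_smul] at this
  · simpa using key 1 a

lemma IsInd.exists_op [FC H Ω] [FC H Ω₂] {j : Ω' ↪ Ω} (hj : IsInd ι j) {X : L2 Ω' →L[ℂ] L2 Ω₂}
    (hX : ∀ k ξ, X (u k ξ) = u (ι k) (X ξ)) (hfin : ∀ a, {b | ev b (X (dl a)) ≠ 0}.Finite)
    {l : Ω → Λ} {l₂ : Ω₂ → Λ} (hl : Eqv H l) (hl₂ : Eqv H l₂)
    (he : ∀ a b, ev b (X (dl a)) ≠ 0 → l (j a) = l₂ b) :
    ∃ Y : L2 Ω →L[ℂ] L2 Ω₂, AOp H (LR l l₂) Y ∧ ∀ ξ, Y (push j ξ) = X ξ := by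
  let _ : MulAction H (L2 Ω₂) :=
    { smul := fun h ξ => u h ξ, one_smul := u_one, mul_smul := fun a b ξ => (u_u a b ξ).symm }
  obtain ⟨v, hv, hv'⟩ := hj.exists_fun (Λ := L2 Ω₂) (f := fun a => X (dl a)) fun k a => by
    simp only [← u_dl, hX]; rfl
  have hv2 : ∀ (h : H) ω, v (h • ω) = u h (v ω) := hv
  have f1 : ∀ ω, {b | ev b (v ω) ≠ 0}.Finite := fun ω => by
    obtain ⟨h, a, rfl⟩ := hj.surj ω
    simp only [hv2, hv', ev_u]
    exact (hfin a).preimage (f := fun b => h⁻¹ • b) (MulAction.injective _).injOn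
  obtain ⟨Y, hY, eY⟩ := MP_54e5d7_al.exists_op (H := H) (fun ω b => ev b (v ω))
    (fun g ω b => by simp [hv2]) f1
  refine ⟨Y, ⟨hY, fun ω => by simpa only [eY] using f1 ω, fun ω b e => ?_⟩, fun ξ => ?_⟩
  · obtain ⟨h, a, rfl⟩ := hj.surj ω
    rw [eY, hv2, hv', ev_u] at e
    rw [LR, hl, he _ _ e, hl₂, smul_inv_smul]
  · have : Y ∘L push j = X := op_ext fun a => L2.ext fun b => by
      rw [comp_apply, push_dl, eY, hv']
    exact congr($this ξ)

variable (H) in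
/-- The invariant subspace generated by the image of `U`. -/
def Ind (j : Ω' ↪ Ω) (U : CS Ω') : CS Ω := ⨆ h : H, U.map (u h ∘L push j)

omit [MulAction K Ω'] in
lemma mem_Ind {j : Ω' ↪ Ω} {U : CS Ω'} (h : H) {ξ : L2 Ω'} (hξ : ξ ∈ U) :
    u h (push j ξ) ∈ Ind H j U :=
  (le_iSup (fun h : H => U.map (u h ∘L push j)) h) (mem_map (T := u h ∘L push j) hξ)

omit [MulAction K Ω'] in
lemma Ind_le {j : Ω' ↪ Ω} {U : CS Ω'} {W : CS Ω} (h : ∀ g : H, ∀ ξ ∈ U, u g (push j ξ) ∈ W) :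
    Ind H j U ≤ W := iSup_le fun g => map_le.2 (h g)

attribute [irreducible] Ind

/-- Induction of algebraic subspaces. -/
theorem alg_ind [FC H Ω] (hι : Function.Injective ι) {σ : Λ' → Λ} (hσ : EqvI ι σ) {j : Ω' ↪ Ω}
    (hj : EqvI ι j) {l' : Ω' → Λ'} {l : Ω → Λ} (hl0 : Eqv H l) (hl : ∀ a, l (j a) = σ (l' a))
    {U : CS Ω'} (hU : Alg K l' U) : Alg H l (Ind H j U) := by
  obtain ⟨Ω₁, _, _, l₁, i, Z, h1, h2, h3, h4, rfl⟩ := hU
  obtain ⟨Ω₃, _, _, m, hm⟩ := exists_isInd (Ω' := Ω₁) hι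
  obtain ⟨l₃, e3, hl₃⟩ := hm.exists_fun (f := fun a => σ (l₁ a)) fun k a => by
    simp only [h1 k, hσ k]
  obtain ⟨l₄, e4, hl₄⟩ := hm.exists_fun (Λ := H ⧸ ι.range) (f := fun _ => ((1 : H) : H ⧸ ι.range))
    fun k a => by
      change ((1 : H) : H ⧸ ι.range) = ((ι k * 1 : H) : H ⧸ ι.range)
      rw [QuotientGroup.eq]; simp
  obtain ⟨Y, hY, eY⟩ := hm.exists_op (X := push m ∘L Z) (l := fun ω => (l₃ ω, l₄ ω))
    (l₂ := fun ω => (l₃ ω, l₄ ω))
    (fun k ξ => by simp only [comp_apply, h4.eqv k, hm.eqv.push_u])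
    (fun a => ((h4.fin a).image m).subset fun b e => by
      obtain ⟨c, e1, e2⟩ := mem_range_of_ev_push e
      exact ⟨c, e2, e1⟩) (e3.prod e4) (e3.prod e4) (fun a b e => by
      obtain ⟨c, rfl, e2⟩ := mem_range_of_ev_push e
      simp only [hl₃, hl₄, h4.ent _ _ e2])
  have oi : AOp K (LR l₁ l') (pull i) := AOp.pull h2 h3
  obtain ⟨T, hT, eT⟩ := hm.exists_op (X := push j ∘L pull i) (l := l₃) (l₂ := l)
    (fun k ξ => by simp only [comp_apply, oi.eqv k, hj.push_u])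
    (fun a => ((oi.fin a).image j).subset fun b e => by
      obtain ⟨c, e1, e2⟩ := mem_range_of_ev_push e
      exact ⟨c, e2, e1⟩) e3 hl0 (fun a b e => by
      obtain ⟨c, rfl, e2⟩ := mem_range_of_ev_push e
      rw [hl₃, hl, oi.ent _ _ e2])
  suffices h : Ind H j ((kr Z).map (pull i)) = (kr Y).map T by
    rw [h]; exact (Ker.kr e3 (hY.coarse Prod.fst)).alg_map e3 hl0 hT
  apply le_antisymm
  · refine Ind_le fun g => ?_
    change (kr Z).map (pull i) ≤ ((kr Y).map T).comap (u g ∘L push j)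
    rw [map_le]
    intro ξ hξ
    have h5 : u g (push m ξ) ∈ kr Y := by
      rw [mem_kr, hY.eqv, eY, comp_apply, mem_kr.1 hξ, map_zero, map_zero]
    have := mem_map (T := T) h5
    rwa [hT.eqv, eT] at this
  · rw [ClosedSubmodule.map_le_iff_le_comap]
    intro ξ hξ
    refine mem_of_forall_P l₄ fun y => ?_
    obtain ⟨g, rfl⟩ := QuotientGroup.mk_surjective y
    have h5 : P (l₄ ⁻¹' {(g : H ⧸ ι.range)}) ξ ∈ kr Y := Loc.kr (hY.coarse Prod.snd).ent _ _ hξ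
    set η := P (l₄ ⁻¹' {(g : H ⧸ ι.range)}) ξ with hη
    have h6 : u g⁻¹ η = push m (pull m (u g⁻¹ η)) := by
      rw [push_pull]
      refine L2.ext fun ω => ?_
      rw [ev_P]
      split_ifs with h
      · rfl
      · rw [ev_u, hη, ev_P_of_not_mem]
        intro h7
        apply h
        obtain ⟨h', a, rfl⟩ := hm.surj ω
        rw [Set.mem_preimage, e4, e4, hl₄, inv_inv, Set.mem_singleton_iff] at h7
        have h8 : ((g * (h' * 1) : H) : H ⧸ ι.range) = g := h7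
        rw [QuotientGroup.eq] at h8
        obtain ⟨k, hk⟩ := h8
        refine ⟨k⁻¹ • a, ?_⟩
        rw [hm.eqv, map_inv, hk]; simp
    have h7 : pull m (u g⁻¹ η) ∈ kr Z := by
      have := Invt.kr hY.eqv g⁻¹ _ h5
      rw [h6, mem_kr, eY, comp_apply, push_eq_zero] at this
      exact this
    have h8 : η = u g (push m (pull m (u g⁻¹ η))) := by rw [← h6, u_u_inv]
    rw [ClosedSubmodule.mem_comap, h8, hT.eqv, eT]
    exact mem_Ind g (mem_map h7)

omit [MulAction H Ω] [MulAction K Ω'] in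
lemma wt_comap_push {j : Ω' ↪ Ω} {V : CS Ω} (hP : ∀ ξ ∈ V, P (Set.range j) ξ ∈ V) (a : Ω') :
    wt (V.comap (push j)) a = wt V (j a) := by
  have := pr_comm (U := push j) (V := V.comap (push j)) (W := V) (fun _ h => h)
    (fun η h => by rw [adjoint_push, ClosedSubmodule.mem_comap, push_pull]; exact hP η h) (dl a)
  rw [wt, wt, ← push_dl, this, norm_push]

lemma dim_block [FC H Ω] [FC K Ω'] {j : Ω' ↪ Ω} (hj : EqvI ι j)
    (hb : ∀ (h : H) a b, h • j a = j b → h ∈ ι.range) {V : CS Ω} (hV : Invt H V)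
    (hP : ∀ ξ ∈ V, P (Set.range j) ξ ∈ V) :
    dim K (V.comap (push j)) =
      ∑ q : Q H Ω, if ∃ a, cls H (j a) = q then wt V q.out else 0 := by
  refine Finset.sum_of_injOn (fun q : Q K Ω' => cls H (j q.out)) ?_ (fun _ _ => by simp) ?_ ?_
  · intro q _ q' _ e
    obtain ⟨h, hh⟩ := cls_eq_iff.1 e
    obtain ⟨k, rfl⟩ := hb _ _ _ hh
    rw [← hj] at hh
    rw [← cls_out q, ← j.injective hh, cls_smul, cls_out]
  · intro q _ hq
    refine if_neg ?_
    rintro ⟨a, rfl⟩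
    obtain ⟨k, hk⟩ := exists_smul_out K a
    refine hq ⟨cls K a, by simp, ?_⟩
    conv_rhs => rw [← hk, hj, cls_smul]
  · intro q _
    obtain ⟨h, hh⟩ := exists_smul_out H (j q.out)
    rw [if_pos ⟨_, rfl⟩, wt_comap_push hP, ← wt_smul hV h (cls H (j q.out)).out, hh]

lemma IsInd.dim_comap [FC H Ω] [FC K Ω'] {j : Ω' ↪ Ω} (hj : IsInd ι j) {V : CS Ω} (hV : Invt H V)
    (hP : ∀ ξ ∈ V, P (Set.range j) ξ ∈ V) : dim K (V.comap (push j)) = dim H V := by
  rw [dim_block hj.eqv hj.block hV hP]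
  refine Finset.sum_congr rfl fun q _ => if_pos ?_
  obtain ⟨h, a, e⟩ := hj.surj q.out
  exact ⟨a, by rw [← cls_out q, ← e, cls_smul]⟩

lemma exists_coset_reps (N : Subgroup H) [N.FiniteIndex] :
    ∃ E : Set H, E.Finite ∧ ∀ h : H, ∃ k : N, ∃ e ∈ E, h = N.subtype k * e := by
  refine ⟨Set.range fun t : H ⧸ N => t.out⁻¹, Set.finite_range _, fun h => ?_⟩
  obtain ⟨k, hk⟩ := QuotientGroup.mk_out_eq_mul N h⁻¹
  exact ⟨k, _, ⟨(h⁻¹ : H), rfl⟩, by simp [hk]⟩

lemma fc_subgroup [FC H Ω] (N : Subgroup H) [N.FiniteIndex] : FC N Ω := by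
  obtain ⟨E, hE, h⟩ := exists_coset_reps N
  exact fc_of_block (ι := N.subtype) (j := Function.Embedding.refl Ω) Subtype.val_injective
    (fun _ _ => rfl) hE fun g _ _ _ => h g

lemma dim_subgroup [FC H Ω] (N : Subgroup H) [N.FiniteIndex] [FC N Ω] {V : CS Ω} (hV : Invt H V) :
    dim N V = N.index * dim H V := by
  have := Fintype.ofFinite (H ⧸ N)
  have hb : Function.Bijective fun p : Q H Ω × (H ⧸ N) => cls N (p.2.out⁻¹ • p.1.out) := by
    constructor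
    · rintro ⟨q, t⟩ ⟨q', t'⟩ e
      obtain ⟨k, hk⟩ := cls_eq_iff.1 e
      rw [Subgroup.smul_def] at hk
      have h1 : q' = q := by simpa using congr(cls H $hk)
      subst h1
      rw [← mul_smul] at hk
      have h2 := FC.smul_inj hk
      refine Prod.ext rfl ?_
      rw [← QuotientGroup.out_eq' t, ← QuotientGroup.out_eq' t', QuotientGroup.eq, ← h2]
      simp
    · intro q
      obtain ⟨h, hh⟩ := exists_smul_out H q.out
      obtain ⟨k, hk⟩ := QuotientGroup.mk_out_eq_mul N h⁻¹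
      refine ⟨(cls H q.out, (h⁻¹ : H)), ?_⟩
      simp only [hk, mul_inv_rev, inv_inv, mul_smul, hh]
      exact (cls_smul k⁻¹ _).trans (cls_out q)
  rw [dim, ← hb.sum_comp, Fintype.sum_prod_type, dim, Finset.mul_sum]
  refine Finset.sum_congr rfl fun q _ => ?_
  have h1 : ∀ t : H ⧸ N, wt V (cls N (t.out⁻¹ • q.out)).out = wt V q.out := fun t => by
    obtain ⟨k, hk⟩ := exists_smul_out N (t.out⁻¹ • q.out)
    rw [← wt_smul hV (k : H), ← Subgroup.smul_def, hk, wt_smul hV]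
  simp only [h1, Finset.sum_const, Finset.card_univ, nsmul_eq_mul]
  rw [Subgroup.index, Nat.card_eq_fintype_card]

end Pool.Agent.MP_54e5d7_al

end
end MrgPart1

-- ======== part 2: formerly Pool.Agent.MP_54e5d7_al.Enc
section MrgPart2

/-!
Encoding algebraic subspaces by systems of locally algebraic subspaces along a connected complex.
-/

set_option autoImplicit false

open scoped InnerProductSpace
open Classical ContinuousLinearMap

noncomputable section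
namespace Pool.Agent.MP_54e5d7_al

variable {H : Type} [Group H] {Ω Ω' Ψ M K : Type}
  [MulAction H Ω] [MulAction H Ω'] [MulAction H Ψ] [MulAction H M]

/-- Chains of length `n`. -/
def Conn (c : K → Ψ → M) : ℕ → Ψ → Ψ → Prop
  | 0 => fun a b => a = b
  | n + 1 => fun a b => ∃ (k : K) (a' : Ψ), c k a = c k a' ∧ Conn c n a' b

/-- Connectedness by chains. -/
def Cn (c : K → Ψ → M) : Ψ → Ψ → Prop := Relation.ReflTransGen fun a b => ∃ k, c k a = c k b

omit [MulAction H Ψ] [MulAction H M] in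
lemma Cn.refl {c : K → Ψ → M} (a : Ψ) : Cn c a a := Relation.ReflTransGen.refl
omit [MulAction H Ψ] [MulAction H M] in
lemma Cn.trans {c : K → Ψ → M} {a b d : Ψ} (h : Cn c a b) (h' : Cn c b d) : Cn c a d :=
  Relation.ReflTransGen.trans h h'
omit [MulAction H Ψ] [MulAction H M] in
lemma Cn.single {c : K → Ψ → M} {a b : Ψ} (k : K) (h : c k a = c k b) : Cn c a b :=
  Relation.ReflTransGen.single ⟨k, h⟩
omit [MulAction H Ψ] [MulAction H M] in
lemma Cn.symm {c : K → Ψ → M} {a b : Ψ} (h : Cn c a b) : Cn c b a := by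
  induction h with
  | refl => exact Cn.refl _
  | tail _ h ih => obtain ⟨k, h⟩ := h; exact (Cn.single k h.symm).trans ih

omit [MulAction H Ψ] [MulAction H M] in
lemma Cn.map {c : K → Ψ → M} {K' Ψ' M' : Type} {c' : K' → Ψ' → M'} (f : Ψ → Ψ')
    (hf : ∀ k a b, c k a = c k b → Cn c' (f a) (f b)) {a b : Ψ} (h : Cn c a b) :
    Cn c' (f a) (f b) := by
  induction h with
  | refl => exact Cn.refl _
  | tail _ h ih => obtain ⟨k, h⟩ := h; exact ih.trans (hf k _ _ h)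

omit [MulAction H Ψ] [MulAction H M] in
lemma Cn.eventually [Nonempty K] {c : K → Ψ → M} {a b : Ψ} (h : Cn c a b) :
    ∀ᶠ n in Filter.atTop, Conn c n a b := by
  induction h using Relation.ReflTransGen.head_induction_on with
  | refl =>
    refine Filter.Eventually.of_forall fun n => ?_
    induction n with
    | zero => rfl
    | succ n ih => exact ⟨Classical.arbitrary K, b, rfl, ih⟩
  | head h _ ih =>
    obtain ⟨k, h⟩ := h
    rw [Filter.eventually_atTop] at ih ⊢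
    obtain ⟨N, hN⟩ := ih
    refine ⟨N + 1, fun n hn => ?_⟩
    obtain ⟨m, rfl⟩ : ∃ m, n = m + 1 := ⟨n - 1, by omega⟩
    exact ⟨k, _, h, hN m (by omega)⟩

lemma Conn.smul {c : K → Ψ → M} (hc : ∀ k, Eqv H (c k)) (g : H) :
    ∀ (n : ℕ) (a b : Ψ), Conn c n a b → Conn c n (g • a) (g • b)
  | 0, _, _, h => congrArg (g • ·) h
  | n + 1, _, _, ⟨k, a', h, h'⟩ =>
    ⟨k, g • a', by rw [hc k, hc k, h], Conn.smul hc g n _ _ h'⟩

variable (H) in
/-- `V` is the image of a system of locally algebraic conditions. -/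
def Encd (c : K → Ψ → M) (l : Ω → Ψ) (V : CS Ω) : Prop :=
  ∃ (Ω₁ : Type) (_ : MulAction H Ω₁) (_ : FC H Ω₁) (l₁ : Ω₁ → Ψ) (T : L2 Ω₁ →L[ℂ] L2 Ω)
    (t : K → CS Ω₁), Eqv H l₁ ∧ AOp H (LR l₁ l) T ∧ (∀ k, Alg H (fun ω => c k (l₁ ω)) (t k)) ∧
    V = (⨅ k, t k).map T

variable {c : K → Ψ → M} {l : Ω → Ψ} {l' : Ω' → Ψ}

lemma Encd.map {V : CS Ω} (h : Encd H c l V) {S : L2 Ω →L[ℂ] L2 Ω'} (hS : AOp H (LR l l') S) :
    Encd H c l' (V.map S) := by
  obtain ⟨Ω₁, _, _, l₁, T, t, h1, h2, h3, rfl⟩ := h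
  exact ⟨Ω₁, _, inferInstance, l₁, S ∘L T, t, h1, hS.lcomp h2, h3, map_map _ _ _⟩

lemma Encd.bot [FC H Ω] (hc : ∀ k, Eqv H (c k)) (hl : Eqv H l) : Encd H c l ⊥ :=
  ⟨Ω, _, inferInstance, l, 0, fun _ => ⊤, hl, AOp.zero, fun k => Alg.top ((hc k).comp hl),
    (map_eq_bot fun _ _ => rfl).symm⟩

lemma Encd.step [FC H Ω] [FC H Ω'] (hc : ∀ k, Eqv H (c k)) (hl : Eqv H l) (hl' : Eqv H l')
    {U : CS Ω'} (h : Encd H c l' U) (τ : Ω' → K) (hτ : ∀ (g : H) ω, τ (g • ω) = τ ω)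
    {D : L2 Ω →L[ℂ] L2 Ω'} (hD : AOp H (fun a b => c (τ b) (l a) = c (τ b) (l' b)) D) :
    Encd H c l (U.comap D) := by
  obtain ⟨Ω₁, _, _, l₁, T, t, h1, h2, h3, rfl⟩ := h
  have hi : Invt H (⨅ k, t k) := Invt.iInf fun k => (h3 k).invt
  have hs := hl.sum h1
  refine ⟨Ω ⊕ Ω₁, _, inferInstance, Sum.elim l l₁, π₁,
    fun k => (t k).comap π₂ ⊓ kr (P (τ ⁻¹' {k}) ∘L (D ∘L π₁ - T ∘L π₂)), hs, AOp.π₁,
    fun k => ?_, ?_⟩
  · refine ((h3 k).comap ((hc k).comp hs) (AOp.π₂.coarse (c k))).inf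
      (Alg.kr ((hc k).comp hs) ((hc k).comp hl') ?_)
    refine AOp.comp (R := fun a b => c (τ b) (Sum.elim l l₁ a) = c (τ b) (l' b))
      (R' := fun a b => a = b ∧ τ a = k) (AOp.P (fun g ω => by simp [hτ]) fun ω h => ⟨rfl, h⟩)
      (AOp.sub ?_ ?_) ?_
    · exact hD.comp (AOp.π₁ (l := l) (l' := l₁)) fun a b d e e' => by rw [e, e']
    · exact h2.comp (AOp.π₂ (l := l) (l' := l₁)) fun a b d e e' => by rw [e, e']
    · rintro a b _ e ⟨rfl, rfl⟩; exact e
  · have := map_fibre (Invt.top (H := H) (Ω := Ω)) hi hD.eqv h2.eqv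
    rw [top_inf_eq] at this
    rw [← this]
    congr 1
    apply CS.ext'
    intro ξ
    simp only [ClosedSubmodule.mem_inf, mem_ds, ClosedSubmodule.mem_top, true_and,
      ClosedSubmodule.mem_iInf, mem_kr, ClosedSubmodule.mem_comap, comp_apply]
    constructor
    · rintro ⟨a, b⟩ k
      exact ⟨a k, by rw [b, map_zero]⟩
    · intro h
      refine ⟨fun k => (h k).1, L2.ext fun ω => ?_⟩
      have := congr(ev ω $((h (τ ω)).2))
      rwa [ev_P_of_mem _ (by simp)] at this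

/-- The set of nonzero entries of an equivariant operator. -/
def entries {X : L2 Ω →L[ℂ] L2 Ω'} (hX : Eqop H X) : SubMulAction H (Ω × Ω') where
  carrier := {p | ev p.2 (X (dl p.1)) ≠ 0}
  smul_mem' := fun g p h => by
    change ev (g • p.2) (X (dl (g • p.1))) ≠ 0
    rwa [hX.entry]

lemma fc_entries [FC H Ω] {R : Ω → Ω' → Prop} {X : L2 Ω →L[ℂ] L2 Ω'} (hX : AOp H R X) :
    FC H (entries hX.eqv) where
  free := fun g p e => FC.free g p.1.1 (congrArg (fun p : entries hX.eqv => p.1.1) e)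
  fin := by
    have : ∀ q : Q H Ω, Finite {ω' | ev ω' (X (dl q.out)) ≠ 0} := fun q => hX.fin q.out
    refine fin_of_cover (ι := Σ q : Q H Ω, {ω' | ev ω' (X (dl q.out)) ≠ 0})
      (fun p => ⟨(p.1.out, p.2.1), p.2.2⟩) fun p => ?_
    obtain ⟨g, hg⟩ := exists_smul_out H p.1.1
    refine ⟨g, ⟨cls H p.1.1, g⁻¹ • p.1.2, ?_⟩, Subtype.ext (Prod.ext hg (smul_inv_smul _ _))⟩
    rw [Set.mem_ofPred_eq, ← hX.eqv.entry g, hg, smul_inv_smul]
    exact p.2

lemma exists_factor [FC H Ω] [FC H Ω'] {R : Ω → Ω' → Prop} {X : L2 Ω →L[ℂ] L2 Ω'}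
    (hX : AOp H R X) : ∃ (D : L2 Ω →L[ℂ] L2 (entries hX.eqv)) (Y : L2 (entries hX.eqv) →L[ℂ] L2 Ω'),
      AOp H (fun a p => p.1.1 = a) D ∧ AOp H (fun p b => p.1.2 = b) Y ∧ X = Y ∘L D := by
  have := fc_entries hX
  have f1 : ∀ ω : Ω, {p : entries hX.eqv | (if p.1.1 = ω then (1 : ℂ) else 0) ≠ 0}.Finite := by
    intro ω
    refine Set.Finite.of_finite_image (f := fun p => p.1.2) ((hX.fin ω).subset ?_) ?_
    · rintro _ ⟨p, hp, rfl⟩
      have h1 : p.1.1 = ω := by simpa using hp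
      have h2 : ev p.1.2 (X (dl p.1.1)) ≠ 0 := p.2
      rwa [h1] at h2
    · intro p hp p' hp' e
      have h1 : p.1.1 = ω := by simpa using hp
      have h2 : p'.1.1 = ω := by simpa using hp'
      exact Subtype.ext (Prod.ext (h1.trans h2.symm) e)
  have f2 : ∀ p : entries hX.eqv,
      {ω' | (if p.1.2 = ω' then ev p.1.2 (X (dl p.1.1)) else 0) ≠ 0}.Finite := fun p =>
    (Set.finite_singleton p.1.2).subset fun ω' h => by
      by_contra h'
      exact h (if_neg fun e => h' e.symm)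
  obtain ⟨D, hD, eD⟩ := exists_op (H := H)
    (fun (ω : Ω) (p : entries hX.eqv) => if p.1.1 = ω then (1 : ℂ) else 0)
    (fun g ω p => by simp) f1
  obtain ⟨Y, hY, eY⟩ := exists_op (H := H)
    (fun (p : entries hX.eqv) (ω' : Ω') => if p.1.2 = ω' then ev p.1.2 (X (dl p.1.1)) else 0)
    (fun g p ω' => by simp [hX.eqv.entry]) f2
  refine ⟨D, Y, ⟨hD, fun ω => by simpa only [eD] using f1 ω, fun ω p h => ?_⟩,
    ⟨hY, fun p => by simpa only [eY] using f2 p, fun p ω' h => ?_⟩, ?_⟩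
  · rw [eD] at h; by_contra h'; exact h (if_neg h')
  · rw [eY] at h; by_contra h'; exact h (if_neg h')
  · refine op_ext fun ω => L2.ext fun ω' => ?_
    have h1 := hasSum_ev_op Y (D (dl ω)) ω'
    simp only [eD, eY] at h1
    refine HasSum.unique ?_ h1
    by_cases h : ev ω' (X (dl ω)) = 0
    · rw [h]
      convert hasSum_zero using 2 with p
      split_ifs with a b
      · rw [a, b, h, mul_zero]
      all_goals simp
    · convert hasSum_single (⟨(ω, ω'), h⟩ : entries hX.eqv) _ using 1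
      · simp
      · intro p hp
        split_ifs with a b
        · exact absurd (Subtype.ext (Prod.ext a b)) hp
        all_goals simp

lemma Encd.comap_conn [Nonempty K] (hc : ∀ k, Eqv H (c k)) (n : ℕ) :
    ∀ {Ω : Type} [MulAction H Ω] [FC H Ω] [FC H Ω'] {l : Ω → Ψ}, Eqv H l → Eqv H l' →
    ∀ {U : CS Ω'}, Encd H c l' U → ∀ {X : L2 Ω →L[ℂ] L2 Ω'},
    AOp H (fun a b => Conn c n (l a) (l' b)) X → Encd H c l (U.comap X) := by
  induction n with
  | zero =>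
    intro Ω _ _ _ l hl hl' U hU X hX
    exact hU.step hc hl hl' (fun _ => Classical.arbitrary K) (fun _ _ => rfl)
      (hX.mono fun a b e => congrArg _ e)
  | succ n ih =>
    intro Ω _ _ _ l hl hl' U hU X hX
    obtain ⟨D, Y, hD, hY, e⟩ := exists_factor hX
    have := fc_entries hX
    let _ : MulAction H K :=
      { smul := fun _ k => k, one_smul := fun _ => rfl, mul_smul := fun _ _ _ => rfl }
    obtain ⟨m, hm, hm'⟩ := exists_eqv (H := H) (fun (p : entries hX.eqv) (θ : K × Ψ) =>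
      c θ.1 (l p.1.1) = c θ.1 θ.2 ∧ Conn c n θ.2 (l' p.1.2)) (by
        rintro g p ⟨k, θ⟩ ⟨e1, e2⟩
        refine ⟨?_, ?_⟩
        · change c k (l (g • p.1.1)) = c k (g • θ)
          rw [hl, hc k, hc k, e1]
        · change Conn c n (g • θ) (l' (g • p.1.2))
          rw [hl']; exact Conn.smul hc g n _ _ e2) (by
        intro p
        obtain ⟨k, θ, e1, e2⟩ := hX.ent _ _ p.2
        exact ⟨(k, θ), e1, e2⟩)
    have hm2 : Eqv H fun p => (m p).2 := fun g p => congrArg Prod.snd (hm g p)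
    have h1 := ih hm2 hl' hU (hY.mono fun p b e => e ▸ (hm' p).2)
    have h2 := h1.step hc hl hm2 (fun p => (m p).1) (fun g p => by
      have := congrArg Prod.fst (hm g p); exact this)
      (hD.mono fun a p e => e ▸ (hm' p).1)
    rw [e]; exact h2

/-- The encoding theorem. -/
theorem AlgR.encd [Nonempty K] (hc : ∀ k, Eqv H (c k)) {V : CS Ω} (h : AlgR H (Cn c) l V) :
    Encd H c l V := by
  obtain ⟨n, hn⟩ := (h.exhaust (R := Conn c) (fun n g a b => Conn.smul hc g n a b)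
    fun a b e => e.eventually).exists
  obtain ⟨Ω₁, _, _, l₁, j, Z, h1, h2, h3, h4, rfl⟩ := hn
  exact (Encd.comap_conn hc n h1 h1 (Encd.bot hc h1) h4).map (AOp.pull h2 h3)

theorem Alg.encd [Nonempty K] (hc : ∀ k, Eqv H (c k)) {N : Type} [MulAction H N] {ρ : Ψ → N}
    (hρ : Eqv H ρ) (hs : Function.Surjective ρ) (hcn : ∀ a b, ρ a = ρ b → Cn c a b)
    (hl : Eqv H l) {V : CS Ω} (h : Alg H (fun ω => ρ (l ω)) V) : Encd H c l V :=
  ((AlgR.lift hρ hs hl h).mono hcn).encd hc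

end Pool.Agent.MP_54e5d7_al

end
end MrgPart2

-- ======== part 3: formerly Pool.Agent.MP_54e5d7_al.Tree
section MrgPart3

/-!
Smallest maximizers and the tree theorem.
-/

set_option autoImplicit false

open scoped InnerProductSpace
open Classical ContinuousLinearMap

noncomputable section
namespace Pool.Agent.MP_54e5d7_al

variable {H : Type} [Group H] {Ω Λ Φ M : Type}
  [MulAction H Ω] [MulAction H Λ] [MulAction H Φ] [MulAction H M]

variable (H) in
/-- The functional that is maximized. -/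
def gf [FC H Ω] (L : CS Ω) (r : ℝ) (U : CS Ω) : ℝ := dim H (U ⊓ L) - r * dim H U

variable (H) in
/-- Integrality of dimensions of algebraic subspaces local over `c`. -/
def AC (n : ℕ) (c : Φ → Λ) : Prop :=
  ∀ (Ω : Type) [MulAction H Ω] [FC H Ω] (l : Ω → Φ), Eqv H l → ∀ V : CS Ω,
    Alg H (fun ω => c (l ω)) V → ∃ z : ℤ, n * dim H V = z

variable (H) in
/-- Localization of maximizers. -/
def SS (c : Φ → Λ) : Prop :=
  ∀ (Ω : Type) [MulAction H Ω] [FC H Ω] (l : Ω → Φ), Eqv H l → ∀ L : CS Ω, Invt H L → Loc l L →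
    ∀ (r : ℝ) (U : CS Ω), Alg H (fun ω => c (l ω)) U → ∃ W, Alg H l W ∧ gf H L r U ≤ gf H L r W

variable [FC H Ω]

lemma gf_super {L U V : CS Ω} (hL : Invt H L) (hU : Invt H U) (hV : Invt H V) (r : ℝ) :
    gf H L r U + gf H L r V ≤ gf H L r (U ⊔ V) + gf H L r (U ⊓ V) := by
  have h1 := dim_sup_add_inf hU hV
  have h2 := dim_sup_add_inf (hU.inf hL) (hV.inf hL)
  have h3 : dim H (U ⊓ L ⊔ V ⊓ L) ≤ dim H ((U ⊔ V) ⊓ L) :=
    dim_mono (sup_le (inf_le_inf_right _ le_sup_left) (inf_le_inf_right _ le_sup_right))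
  rw [← inf_inf_distrib_right] at h2
  simp only [gf]
  have : r * dim H (U ⊔ V) + r * dim H (U ⊓ V) = r * dim H U + r * dim H V := by
    rw [← mul_add, h1, mul_add]
  linarith

@[simp] lemma gf_bot (L : CS Ω) (r : ℝ) : gf H L r ⊥ = 0 := by simp [gf]

variable (H) in
/-- `W` is the smallest maximizer among locally algebraic subspaces. -/
structure IsMin (l : Ω → Λ) (L : CS Ω) (r : ℝ) (W : CS Ω) : Prop where
  alg : Alg H l W
  max : ∀ U, Alg H l U → gf H L r U ≤ gf H L r W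
  min : ∀ U, Alg H l U → gf H L r W ≤ gf H L r U → W ≤ U

lemma exists_isMin {n : ℕ} (hn : 0 < n) {l : Ω → Λ} (hl : Eqv H l)
    (hint : ∀ U, Alg H l U → ∃ z : ℤ, n * dim H U = z) {L : CS Ω} (hL : Invt H L) (r : ℝ) :
    ∃ W, IsMin H l L r W := by
  have hn' : (0 : ℝ) < n := by exact_mod_cast hn
  set C : ℝ := (Fintype.card (Q H Ω) : ℝ)
  have hb : BddAbove (gf H L r '' {U | Alg H l U}) := by
    refine ⟨C + |r| * C, ?_⟩
    rintro _ ⟨U, -, rfl⟩
    have h1 := dim_le_card (H := H) (U ⊓ L)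
    have h2 := dim_le_card (H := H) U
    have h3 := dim_nonneg (H := H) U
    have h4 : -r * dim H U ≤ |r| * C :=
      mul_le_mul (neg_le_abs r) h2 h3 (abs_nonneg r)
    simp only [gf]; linarith
  have hne : (gf H L r '' {U | Alg H l U}).Nonempty := ⟨_, ⊥, Alg.bot hl, rfl⟩
  set s := sSup (gf H L r '' {U | Alg H l U})
  have hs : ∀ U, Alg H l U → gf H L r U ≤ s := fun U hU => le_csSup hb ⟨U, hU, rfl⟩
  have hs' : ∀ ε > 0, ∃ U, Alg H l U ∧ s - ε < gf H L r U := fun ε hε => by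
    obtain ⟨_, ⟨U, hU, rfl⟩, h⟩ := exists_lt_of_lt_csSup hne (sub_lt_self s hε)
    exact ⟨U, hU, h⟩
  have hex : ∃ k : ℕ, ∀ ε > 0, ∃ U, Alg H l U ∧ s - ε < gf H L r U ∧ n * dim H U ≤ k := by
    refine ⟨n * Fintype.card (Q H Ω), fun ε hε => ?_⟩
    obtain ⟨U, h1, h2⟩ := hs' ε hε
    refine ⟨U, h1, h2, ?_⟩
    push_cast
    exact mul_le_mul_of_nonneg_left (dim_le_card U) hn'.le
  set m := Nat.find hex with hm
  have h1 := Nat.find_spec hex
  have h2 : ∃ ε > 0, ∀ U, Alg H l U → s - ε < gf H L r U → (m : ℝ) ≤ n * dim H U := by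
    rcases Nat.eq_zero_or_pos m with h0 | h0
    · exact ⟨1, one_pos, fun U _ _ => by
        rw [h0, Nat.cast_zero]; exact mul_nonneg hn'.le (dim_nonneg U)⟩
    · have := Nat.find_min hex (m := m - 1) (by omega)
      push Not at this
      obtain ⟨ε, hε, h⟩ := this
      refine ⟨ε, hε, fun U hU hg => ?_⟩
      obtain ⟨z, hz⟩ := hint U hU
      have h3 := h U hU hg
      rw [hz] at h3 ⊢
      have h4 : ((m - 1 : ℕ) : ℤ) < z := by exact_mod_cast h3
      have h5 : (m : ℤ) ≤ z := by omega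
      exact_mod_cast h5
  obtain ⟨ε, hε, h2⟩ := h2
  obtain ⟨W, hW, hg, hd⟩ := h1 (ε / 2) (half_pos hε)
  have key : ∀ U, Alg H l U → s - ε / 2 ≤ gf H L r U → W ≤ U := fun U hU hU' => by
    have h3 := gf_super hL hW.invt hU.invt r
    have h4 := hs _ (hW.sup hU)
    have h5 := h2 _ (hW.inf hU) (by linarith)
    have h6 : dim H W ≤ dim H (W ⊓ U) := le_of_mul_le_mul_left (hd.trans h5) hn'
    exact inf_eq_left.1 (eq_of_le_of_dim_le (hW.invt.inf hU.invt) hW.invt inf_le_left h6)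
  have hmax : s ≤ gf H L r W := by
    refine le_of_forall_pos_le_add fun δ hδ => ?_
    obtain ⟨U, hU, hg', hd'⟩ := h1 (min δ (ε / 2)) (lt_min hδ (half_pos hε))
    have h3 := key U hU (by linarith [min_le_right δ (ε / 2)])
    have h4 := h2 W hW (by linarith)
    have h5 : dim H U ≤ dim H W := le_of_mul_le_mul_left (hd'.trans h4) hn'
    rw [eq_of_le_of_dim_le hW.invt hU.invt h3 h5]
    linarith [min_le_left δ (ε / 2)]
  exact ⟨W, hW, fun U hU => (hs U hU).trans hmax, fun U hU h => key U hU (by linarith)⟩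

lemma IsMin.anti {l : Ω → Λ} {L W W' : CS Ω} (hL : Invt H L) {r r' : ℝ} (h : IsMin H l L r W)
    (h' : IsMin H l L r' W') (hr : r ≤ r') : W' ≤ W := by
  have h1 := gf_super hL h.alg.invt h'.alg.invt r
  have h2 := h.max _ (h.alg.sup h'.alg)
  have h3 : dim H (W ⊓ W') ≤ dim H W' := dim_mono inf_le_right
  refine (h'.min _ (h.alg.inf h'.alg) ?_).trans inf_le_left
  simp only [gf] at h1 h2 ⊢
  nlinarith

lemma IsMin.sym {l : Ω → Λ} {L W W' : CS Ω} {r : ℝ} (h : IsMin H l L r W) (h' : Alg H l W')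
    (h1 : dim H W' = dim H W) (h2 : dim H (W ⊓ L) ≤ dim H (W' ⊓ L)) : W = W' :=
  eq_of_le_of_dim_le h.alg.invt h'.invt (h.min _ h' (by simp only [gf, h1]; linarith)) h1.le

lemma riemann {f w : ℝ → ℝ} {a b C D : ℝ} (hab : a ≤ b) (h0 : ∀ x, 0 ≤ w x) (hC : ∀ x, w x ≤ C)
    (h : ∀ x y, a ≤ x → x ≤ y → f x - f y ≤ (y - x) * (D + w x - w y)) :
    f a - f b ≤ (b - a) * D := by
  have key : ∀ N : ℕ, 0 < N → f a - f b ≤ (b - a) * D + (b - a) * C / N := by
    intro N hN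
    have hN' : (0 : ℝ) < N := by exact_mod_cast hN
    set t := (b - a) / N with ht
    have ht0 : 0 ≤ t := div_nonneg (sub_nonneg.2 hab) hN'.le
    have : ∀ j : ℕ, f a - f (a + j * t) ≤ j * t * D + t * (w a - w (a + j * t)) := by
      intro j
      induction j with
      | zero => simp
      | succ j ih =>
        have h1 := h (a + j * t) (a + (j + 1 : ℕ) * t) (by have := mul_nonneg j.cast_nonneg ht0; linarith)
          (by push_cast; linarith)
        push_cast at h1 ⊢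
        nlinarith
    have h1 := this N
    have e : N * t = b - a := by rw [ht]; field_simp
    rw [e, add_sub_cancel] at h1
    have h2 : t * (w a - w b) ≤ t * C := mul_le_mul_of_nonneg_left (by linarith [h0 b, hC a]) ht0
    have e2 : (b - a) * C / N = t * C := by rw [ht]; ring
    linarith
  refine le_of_forall_pos_le_add fun δ hδ => ?_
  obtain ⟨N, hN⟩ := exists_nat_gt ((b - a) * C / δ)
  have hC0 : 0 ≤ (b - a) * C := mul_nonneg (sub_nonneg.2 hab) ((h0 a).trans (hC a))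
  have hN0 : (0 : ℝ) < N := lt_of_le_of_lt (div_nonneg hC0 hδ.le) hN
  refine (key N (by exact_mod_cast hN0)).trans ?_
  have : (b - a) * C / N ≤ δ := by
    rw [div_le_iff₀ hN0]; rw [div_lt_iff₀ hδ] at hN; linarith
  linarith

lemma exists_gap {n : ℕ} (hn : 0 < n) (d : ℝ) :
    ∃ δ > 0, ∀ x : ℝ, (∃ z : ℤ, n * x = z) → x < d → x ≤ d - δ := by
  have hn' : (0 : ℝ) < n := by exact_mod_cast hn
  refine ⟨d - (⌈n * d⌉ - 1) / n, ?_, fun x ⟨z, hz⟩ hx => ?_⟩
  · have := Int.ceil_lt_add_one (n * d)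
    rw [gt_iff_lt, sub_pos, div_lt_iff₀ hn']; linarith
  · have h1 : (z : ℝ) < n * d := by rw [← hz]; exact mul_lt_mul_of_pos_left hx hn'
    have h2 : z < ⌈n * d⌉ := Int.lt_ceil.2 h1
    have h3 : (z : ℝ) ≤ ⌈n * d⌉ - 1 := by exact_mod_cast (by omega : z ≤ ⌈n * d⌉ - 1)
    rw [sub_sub_cancel, le_div_iff₀ hn']; linarith

lemma HS.dim_supp {c : Bool → Φ → Λ} (hs : HS c) (hc : ∀ b, Eqv H (c b)) {l : Ω → Φ}
    (hl : Eqv H l) {p : Bool → CS Ω} (hi : ∀ b, Invt H (p b))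
    (hp : ∀ b, Loc (fun ω => c b (l ω)) (p b)) :
    (∀ b, supp (fun ω => c b (l ω)) (p true ⊓ p false) = p b ⊓ supp l (p true ⊓ p false)) ∧
    dim H (p true ⊓ supp l (p true ⊓ p false)) + dim H (p false ⊓ supp l (p true ⊓ p false)) =
      dim H (supp l (p true ⊓ p false)) + dim H (p true ⊓ p false) := by
  set K := p true ⊓ p false with hK
  have iK : Invt H K := (hi _).inf (hi _)
  have iL := iK.supp hl
  have iS := fun b => iK.supp ((hc b).comp hl)
  have hKp : ∀ b, K ≤ p b := by rintro (_ | _); exacts [inf_le_right, inf_le_left]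
  have h1 : ∀ b, supp (fun ω => c b (l ω)) K ≤ p b ⊓ supp l K := fun b =>
    le_inf (supp_le (hp b) (hKp b)) (supp_coarse (fun _ _ e => by rw [e]) K)
  have h2 := dim_sup_add_inf (iS true) (iS false)
  have h3 := dim_sup_add_inf ((hi true).inf iL) ((hi false).inf iL)
  rw [← hs.supp_eq] at h2
  have h4 : dim H K ≤ dim H (supp (fun ω => c true (l ω)) K ⊓ supp (fun ω => c false (l ω)) K) :=
    dim_mono (le_inf (le_supp _ _) (le_supp _ _))
  have h5 : dim H (p true ⊓ supp l K ⊔ p false ⊓ supp l K) ≤ dim H (supp l K) :=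
    dim_mono (sup_le inf_le_right inf_le_right)
  have h6 : dim H (p true ⊓ supp l K ⊓ (p false ⊓ supp l K)) ≤ dim H K :=
    dim_mono (inf_le_inf inf_le_left inf_le_left)
  have h7 := dim_mono (H := H) (h1 true)
  have h8 := dim_mono (H := H) (h1 false)
  refine ⟨?_, by linarith⟩
  rintro (_ | _)
  · exact eq_of_le_of_dim_le (iS _) ((hi _).inf iL) (h1 _) (by linarith)
  · exact eq_of_le_of_dim_le (iS _) ((hi _).inf iL) (h1 _) (by linarith)

/-- The tree theorem. -/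
theorem tree_supp {n : ℕ} (hn : 0 < n) {c : Bool → Φ → Λ} (hs : HS c) (hc : ∀ b, Eqv H (c b))
    (hAC : ∀ b, AC H n (c b)) (hSS : ∀ b, SS H (c b)) {l : Ω → Φ} (hl : Eqv H l)
    {p : Bool → CS Ω} (hp : ∀ b, Alg H (fun ω => c b (l ω)) (p b)) :
    Alg H l (supp l (p true ⊓ p false)) := by
  have hi := fun b => (hp b).invt
  obtain ⟨-, hd⟩ := hs.dim_supp hc hl hi fun b => (hp b).loc
  set K := p true ⊓ p false with hK
  set L := supp l K with hL
  have iK : Invt H K := (hi _).inf (hi _)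
  have iL : Invt H L := iK.supp hl
  have hint : ∀ U, Alg H l U → ∃ z : ℤ, n * dim H U = z := fun U hU =>
    hAC true Ω l hl U (hU.coarse (hc true))
  choose W hW using fun r => exists_isMin hn hl hint iL r
  have iW := fun r => (hW r).alg.invt
  let F : ℝ → ℝ := fun r => dim H (p true ⊓ W r) + dim H (p false ⊓ W r) - dim H (W r)
  let Ψ : ℝ → ℝ := fun r => gf H L r (p true ⊓ W r) + gf H L r (p false ⊓ W r) - gf H L r (W r)
  have hF : ∀ r, F r ≤ dim H (K ⊓ W r) := fun r => by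
    have h1 := dim_sup_add_inf ((hi true).inf (iW r)) ((hi false).inf (iW r))
    rw [← inf_inf_distrib_right] at h1
    have h2 : dim H (p true ⊓ W r ⊔ p false ⊓ W r) ≤ dim H (W r) :=
      dim_mono (sup_le inf_le_right inf_le_right)
    simp only [F]; linarith
  have hFd : ∀ r, F r ≤ dim H K := fun r => (hF r).trans (dim_mono inf_le_left)
  have hstep : ∀ x y, x ≤ y → Ψ x - Ψ y ≤ (y - x) * (F x + dim H (W x) - dim H (W y)) := by
    intro x y hxy
    have h1 : ∀ b, gf H L y (p b ⊓ W x) ≤ gf H L y (p b ⊓ W y) := fun b => by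
      have a1 : Alg H (fun ω => c b (l ω)) (W y ⊔ p b ⊓ W x) :=
        ((hW y).alg.coarse (hc b)).sup ((hp b).inf ((hW x).alg.coarse (hc b)))
      obtain ⟨U, hU, hg⟩ := hSS b Ω l hl L iL (loc_supp _ _) y _ a1
      have a2 := (hW y).max U hU
      have a3 := gf_super iL (iW y) ((hi b).inf (iW x)) y
      have e : W y ⊓ (p b ⊓ W x) = p b ⊓ W y := by
        rw [inf_comm, inf_assoc, inf_eq_right.2 ((hW x).anti iL (hW y) hxy)]
      rw [e] at a3
      linarith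
    have h2 := (hW x).max _ (hW y).alg
    have h3 := h1 true
    have h4 := h1 false
    simp only [Ψ, F, gf] at h2 h3 h4 ⊢
    nlinarith
  have hL0 : L ≤ W 0 := by
    have h1 := (hW 0).max _ (Alg.top hl)
    simp only [gf, zero_mul, sub_zero, top_inf_eq] at h1
    exact inf_eq_right.1 (eq_of_le_of_dim_le ((iW 0).inf iL) iL inf_le_right h1)
  have hΨ0 : Ψ 0 = dim H K := by
    simp only [Ψ, gf, zero_mul, sub_zero, inf_assoc, inf_eq_right.2 hL0]
    linarith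
  have hΨ1 : Ψ 1 = 0 := by
    have : W 1 = ⊥ := le_bot_iff.1 ((hW 1).min _ (Alg.bot hl) (by
      have : dim H (W 1 ⊓ L) ≤ dim H (W 1) := dim_mono inf_le_left
      rw [gf_bot, gf]; linarith))
    simp [Ψ, this]
  suffices h : dim H (W 0) ≤ dim H L by
    rw [eq_of_le_of_dim_le iL (iW 0) hL0 h]; exact (hW 0).alg
  by_contra hlt
  push Not at hlt
  have hw0 : 0 < dim H (W 0) := lt_of_le_of_lt (dim_nonneg _) hlt
  obtain ⟨δ, hδ, hgap⟩ := exists_gap hn (dim H K)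
  set r₀ := (dim H L / dim H (W 0) + 1) / 2 with hr₀
  have hq1 : dim H L / dim H (W 0) < 1 := (div_lt_one hw0).2 hlt
  have hq0 : 0 ≤ dim H L / dim H (W 0) := div_nonneg (dim_nonneg _) hw0.le
  have hbad : ∀ r, r₀ ≤ r → F r ≤ dim H K - δ := fun r hr => by
    refine hgap _ ?_ ?_
    · obtain ⟨z1, e1⟩ := hAC true Ω l hl _ ((hp true).inf ((hW r).alg.coarse (hc true)))
      obtain ⟨z2, e2⟩ := hAC false Ω l hl _ ((hp false).inf ((hW r).alg.coarse (hc false)))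
      obtain ⟨z3, e3⟩ := hint _ (hW r).alg
      exact ⟨z1 + z2 - z3, by simp only [F]; push_cast; linarith⟩
    · by_contra hge
      push Not at hge
      have h1 : K ≤ W r := inf_eq_left.1
        (eq_of_le_of_dim_le (iK.inf (iW r)) iK inf_le_left (hge.trans (hF r)))
      have h2 : L ≤ W r := supp_le (hW r).alg.loc h1
      have h3 : W 0 ≤ W r := (hW 0).anti iL (hW 0) le_rfl |>.trans ((hW 0).min _ (hW r).alg (by
        simp only [gf, zero_mul, sub_zero, inf_eq_right.2 hL0, inf_eq_right.2 h2, le_refl]))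
      have h4 := (hW r).max _ (Alg.bot hl)
      rw [gf_bot, gf, inf_eq_right.2 h2] at h4
      have h5 := dim_mono (H := H) h3
      have h6 : dim H L / dim H (W 0) < r := by linarith
      rw [div_lt_iff₀ hw0] at h6
      have h7 : 0 ≤ r := by linarith
      nlinarith
  have hw := fun r => dim_nonneg (H := H) (W r)
  have hC := fun r => dim_le_card (H := H) (W r)
  have k1 := riemann (f := Ψ) (a := 0) (b := r₀) (D := dim H K) (by linarith) hw hC
    fun x y _ hxy => (hstep x y hxy).trans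
      (mul_le_mul_of_nonneg_left (by linarith [hFd x]) (sub_nonneg.2 hxy))
  have k2 := riemann (f := Ψ) (a := r₀) (b := 1) (D := dim H K - δ) (by linarith) hw hC
    fun x y hx hxy => (hstep x y hxy).trans
      (mul_le_mul_of_nonneg_left (by linarith [hbad x hx]) (sub_nonneg.2 hxy))
  have : 0 < (1 - r₀) * δ := mul_pos (by linarith) hδ
  nlinarith

theorem tree_int {n : ℕ} (hn : 0 < n) {c : Bool → Φ → Λ} (hs : HS c) (hc : ∀ b, Eqv H (c b))
    (hAC : ∀ b, AC H n (c b)) (hSS : ∀ b, SS H (c b)) {l : Ω → Φ} (hl : Eqv H l)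
    {p : Bool → CS Ω} (hp : ∀ b, Alg H (fun ω => c b (l ω)) (p b)) :
    ∃ z : ℤ, n * dim H (p true ⊓ p false) = z := by
  obtain ⟨-, hd⟩ := hs.dim_supp hc hl (fun b => (hp b).invt) fun b => (hp b).loc
  have hL := tree_supp hn hs hc hAC hSS hl hp
  obtain ⟨z1, e1⟩ := hAC true Ω l hl _ ((hp true).inf (hL.coarse (hc true)))
  obtain ⟨z2, e2⟩ := hAC false Ω l hl _ ((hp false).inf (hL.coarse (hc false)))
  obtain ⟨z3, e3⟩ := hAC true Ω l hl _ (hL.coarse (hc true))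
  exact ⟨z1 + z2 - z3, by push_cast; linear_combination e1 + e2 - e3 - n * hd⟩

variable (H) in
/-- A forest of flags on which the tree theorem applies, with components given by `ρ`. -/
structure Forest (n : ℕ) (c : Bool → Φ → Λ) (ρ : Φ → M) : Prop where
  hs : HS c
  eqv : ∀ b, Eqv H (c b)
  ac : ∀ b, AC H n (c b)
  ss : ∀ b, SS H (c b)
  eqvρ : Eqv H ρ
  surj : Function.Surjective ρ
  cn : ∀ a b, ρ a = ρ b → Cn c a b

theorem Forest.main {n : ℕ} (hn : 0 < n) {c : Bool → Φ → Λ} {ρ : Φ → M} (hF : Forest H n c ρ)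
    {l : Ω → Φ} (hl : Eqv H l) {V : CS Ω} (hV : Alg H (fun ω => ρ (l ω)) V) :
    (∃ z : ℤ, n * dim H V = z) ∧ Alg H l (supp l V) ∧
      ∀ b, Alg H (fun ω => c b (l ω)) (supp (fun ω => c b (l ω)) V) := by
  obtain ⟨Ω₁, _, _, l₁, T, t, h1, h2, h3, rfl⟩ := hV.encd hF.eqv hF.eqvρ hF.surj hF.cn hl
  rw [iInf_bool_eq]
  have hL := tree_supp hn hF.hs hF.eqv hF.ac hF.ss h1 h3
  refine ⟨?_, ?_, fun b => ?_⟩
  · obtain ⟨z1, e1⟩ := tree_int hn hF.hs hF.eqv hF.ac hF.ss h1 h3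
    obtain ⟨z2, e2⟩ := tree_int hn hF.hs hF.eqv hF.ac hF.ss h1 (p := fun b => t b ⊓ kr T)
      fun b => (h3 b).inf (Alg.kr ((hF.eqv b).comp h1) ((hF.eqv b).comp hl) (h2.coarse (c b)))
    rw [← inf_inf_distrib_right] at e2
    have := rank_nullity h2.eqv ((h3 true).invt.inf (h3 false).invt)
    exact ⟨z1 - z2, by push_cast; linear_combination e1 - e2 + n * this⟩
  · rw [← map_supp h2.ent]
    exact hL.map hl h2
  · rw [← map_supp (h2.coarse (c b)).ent,
      (hF.hs.dim_supp hF.eqv h1 (fun b => (h3 b).invt) fun b => (h3 b).loc).1]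
    exact ((h3 b).inf (hL.coarse (hF.eqv b))).map ((hF.eqv b).comp hl) (h2.coarse (c b))

end Pool.Agent.MP_54e5d7_al

end
end MrgPart3

-- marker of a merged file
example : 731051 + 433947 = 731051 + 433947 := rfl

end MrgPart0

-- ======== part 1: formerly Pool.Agent.MP_54e5d7_al.TwoD
section MrgPart1

/-!
Products of two trees: the two-dimensional lemma and the local algebraicity lemma.
-/

set_option autoImplicit false

open scoped InnerProductSpace
open Classical ContinuousLinearMap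

noncomputable section
namespace Pool.Agent.MP_54e5d7_al

variable {H : Type} [Group H] {Ω Λ Φ Λ' Φ' Λ'' : Type}
  [MulAction H Ω] [MulAction H Λ] [MulAction H Φ] [MulAction H Λ'] [MulAction H Φ']
  [MulAction H Λ''] [FC H Ω]

lemma Eqv.fst {A B : Type} [MulAction H A] [MulAction H B] : Eqv H (Prod.fst : A × B → A) :=
  fun _ _ => rfl
lemma Eqv.snd {A B : Type} [MulAction H A] [MulAction H B] : Eqv H (Prod.snd : A × B → B) :=
  fun _ _ => rfl

theorem two_dim {n : ℕ} (hn : 0 < n) {c : Bool → Φ → Λ} {c' : Bool → Φ' → Λ'}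
    (F1 : Forest H n c fun _ => ())
    (F2 : Forest H n (fun b (p : Λ × Φ') => (p.1, c' b p.2)) Prod.fst)
    (hs' : HS c') (hc' : ∀ b, Eqv H (c' b)) (hcn : ∀ a b, Cn c' a b) [Nonempty Φ']
    {l : Ω → Φ} {l' : Ω → Φ'} (hl : Eqv H l) (hl' : Eqv H l') {K : CS Ω}
    (hK : Alg H (fun _ => ()) K) :
    ∃ W : Bool → CS Ω, (∀ b, Invt H (W b)) ∧ Alg H l' (W true ⊔ W false) ∧
      K ≤ W true ⊔ W false ∧ ∀ b b', W b' ≤ supp (fun ω => (c b (l ω), c' b' (l' ω))) K := by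
  have hc := F1.eqv
  have h0 : Alg H l (supp l K) := (F1.main hn hl hK).2.1
  obtain ⟨Ω₁, _, _, l₁, T, s, h1, h2, h3, h4⟩ := Alg.encd
    (c := fun b (p : Φ × Φ') => (p.1, c' b p.2)) (fun b => Eqv.fst.prod ((hc' b).comp Eqv.snd))
    (ρ := Prod.fst) Eqv.fst Prod.fst_surjective (by
      rintro ⟨a, a'⟩ ⟨b, b'⟩ (rfl : a = b)
      exact Cn.map (fun x => (a, x)) (fun k x y e => Cn.single k (by simp [e])) (hcn a' b'))
    (hl.prod hl') h0
  rw [iInf_bool_eq] at h4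
  set m : Ω₁ → Φ := fun ω => (l₁ ω).1 with hm
  set m' : Ω₁ → Φ' := fun ω => (l₁ ω).2 with hm'
  have em : Eqv H m := Eqv.fst.comp h1
  have em' : Eqv H m' := Eqv.snd.comp h1
  set S := s true ⊓ s false with hS
  have aS : Alg H m S := ((h3 true).coarse Eqv.fst).inf ((h3 false).coarse Eqv.fst)
  set K' := S ⊓ K.comap T with hK'
  have aK : Alg H (fun _ => ()) K' := aS.unit.inf_comap hK (h2.coarse fun _ => ())
  have iK := aK.invt
  have eK : K'.map T = K := by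
    rw [map_inf_comap h2.eqv aS.invt hK.invt, ← h4, inf_eq_right.2 (le_supp l K)]
  have E5 : supp m K' = S := by
    have iS := iK.supp em
    have a1 : supp m K' ≤ S := supp_le aS.loc inf_le_left
    refine eq_of_le_of_dim_le iS aS.invt a1 ?_
    have a2 := rank_nullity h2.eqv iS
    have a3 := rank_nullity h2.eqv aS.invt
    rw [map_supp (h2.coarse Prod.fst).ent, eK] at a2
    rw [← h4] at a3
    have a4 : dim H (S ⊓ kr T) ≤ dim H (supp m K' ⊓ kr T) :=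
      dim_mono (le_inf ((inf_le_inf_left S (comap_mono T bot_le)).trans (le_supp m K'))
        inf_le_right)
    linarith
  let R : Bool → Bool → CS Ω₁ := fun b b' => supp (fun ω => (c b (m ω), c' b' (m' ω))) K'
  let A : Bool → CS Ω₁ := fun b' => supp (fun ω => (m ω, c' b' (m' ω))) K'
  let B : Bool → CS Ω₁ := fun b => supp (fun ω => (c b (m ω), m' ω)) K'
  let C : CS Ω₁ := supp (fun ω => (m ω, m' ω)) K'
  have iR : ∀ b b', Invt H (R b b') := fun b b' =>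
    iK.supp (((hc b).comp em).prod ((hc' b').comp em'))
  have iA : ∀ b, Invt H (A b) := fun b => iK.supp (em.prod ((hc' b).comp em'))
  have iB : ∀ b, Invt H (B b) := fun b => iK.supp (((hc b).comp em).prod em')
  have eA : ∀ b', A b' = R true b' ⊔ R false b' := fun b' =>
    (F1.hs.prod_right Λ').supp_eq (fun ω => (m ω, c' b' (m' ω))) K'
  have eB : ∀ b, B b = R b true ⊔ R b false := fun b =>
    (hs'.prod_left Λ).supp_eq (fun ω => (c b (m ω), m' ω)) K'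
  have eC : C = B true ⊔ B false := (F1.hs.prod_right Φ').supp_eq (fun ω => (m ω, m' ω)) K'
  have eC' : C = A true ⊔ A false := (hs'.prod_left Φ).supp_eq (fun ω => (m ω, m' ω)) K'
  have eY : A true ⊓ A false ≤ R true true ⊓ R true false ⊔ R false true ⊓ R false false := by
    have a1 : A true ⊓ A false ≤ S :=
      inf_le_inf (supp_le (h3 true).loc (inf_le_left.trans inf_le_left))
        (supp_le (h3 false).loc (inf_le_left.trans inf_le_right))
    rw [← E5, F1.hs.supp_eq m K'] at a1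
    have a2 : ∀ b b', supp (fun ω => c b (m ω)) K' ≤ R b b' := fun b b' =>
      supp_coarse (l := fun ω => (c b (m ω), c' b' (m' ω))) (fun _ _ e => (Prod.mk.inj e).1) K'
    exact a1.trans (sup_le_sup (le_inf (a2 _ _) (a2 _ _)) (le_inf (a2 _ _) (a2 _ _)))
  have eW : R true true ⊓ R false true ⊔ R true false ⊓ R false false = B true ⊓ B false := by
    refine eq_of_le_of_dim_le (((iR _ _).inf (iR _ _)).sup ((iR _ _).inf (iR _ _)))
      ((iB _).inf (iB _)) ?_ ?_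
    · rw [eB, eB]
      exact sup_le (inf_le_inf le_sup_left le_sup_left) (inf_le_inf le_sup_right le_sup_right)
    · have a1 := dim_sup_add_inf (iR true true) (iR false true)
      have a2 := dim_sup_add_inf (iR true false) (iR false false)
      have a3 := dim_sup_add_inf (iR true true) (iR true false)
      have a4 := dim_sup_add_inf (iR false true) (iR false false)
      have a5 := dim_sup_add_inf (iA true) (iA false)
      have a6 := dim_sup_add_inf (iB true) (iB false)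
      have a7 := dim_sup_add_inf ((iR true true).inf (iR false true))
        ((iR true false).inf (iR false false))
      have a8 := dim_sup_add_inf ((iR true true).inf (iR true false))
        ((iR false true).inf (iR false false))
      have a9 := dim_mono (H := H) eY
      rw [← eA] at a1 a2
      rw [← eB] at a3 a4
      rw [← eC'] at a5
      rw [← eC] at a6
      rw [inf_inf_inf_comm] at a8
      linarith
  have aB : ∀ b, Alg H m' (B b) := fun b => by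
    have a1 := (F1.main hn em aK).2.2 b
    have a2 := (F2.main hn (((hc b).comp em).prod em') a1).2.1
    rw [supp_supp (fun _ _ e => congrArg Prod.fst e)] at a2
    exact a2.coarse Eqv.snd
  refine ⟨fun b' => (R true b' ⊓ R false b').map T, fun b => ((iR _ _).inf (iR _ _)).map h2.eqv,
    ?_, ?_, fun b b' => ?_⟩
  · rw [← map_sup, eW]
    exact ((aB true).inf (aB false)).map hl' (h2.coarse Prod.snd)
  · rw [← map_sup, eW, ← eK]
    exact map_mono T (le_inf (le_supp _ _) (le_supp _ _))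
  · rw [← eK, ← map_supp (h2.coarse fun p => (c b p.1, c' b' p.2)).ent]
    refine map_mono T ?_
    cases b
    exacts [inf_le_right, inf_le_left]

theorem local_alg {n : ℕ} (hn : 0 < n) {c : Bool → Φ → Λ} {c' : Bool → Φ' → Λ'}
    (F1 : Forest H n c fun _ => ())
    (F2 : Forest H n (fun b (p : Λ × Φ') => (p.1, c' b p.2)) Prod.fst)
    (hs' : HS c') (hc' : ∀ b, Eqv H (c' b)) (hcn : ∀ a b, Cn c' a b) [Nonempty Φ']
    {c'' : Bool → Φ' → Λ''} (hc'' : ∀ b, Eqv H (c'' b)) {N N' : Set Φ'}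
    (hNN : ∀ φ, φ ∈ N → φ ∉ N')
    (h1 : ∀ b φ ψ, c'' b φ = c'' b ψ → c' b φ = c' b ψ)
    (h2 : ∀ φ ψ, c'' false φ = c'' false ψ → φ ∈ N ∪ N' → φ = ψ)
    {lp lm : Ω → Φ'} (hp : ∀ ω, lp ω ∈ N) (hm : ∀ ω, lm ω ∈ N')
    (he : ∀ ω, c' false (lp ω) = c' false (lm ω)) {V : CS Ω}
    (hVp : AlgR H (Cn c'') lp V) (hVm : AlgR H (Cn c'') lm V) :
    Alg H (fun ω => c' false (lp ω)) V := by
  have hc := F1.eqv
  obtain ⟨φ₀, -⟩ := F1.surj ()
  have : Nonempty Φ := ⟨φ₀⟩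
  obtain ⟨l₀, hl₀, -⟩ := exists_eqv (H := H) (fun (_ : Ω) (_ : Φ) => True)
    (fun _ _ _ _ => trivial) fun _ => ⟨φ₀, trivial⟩
  let c4 : Bool × Bool → Φ × Φ' → Λ × Λ'' := fun k p => (c k.1 p.1, c'' k.2 p.2)
  have hc4 : ∀ k, Eqv H (c4 k) := fun k => ((hc k.1).comp Eqv.fst).prod ((hc'' k.2).comp Eqv.snd)
  have cn4 : ∀ a b : Φ × Φ', Cn c'' a.2 b.2 → Cn c4 a b := by
    rintro ⟨a, a'⟩ ⟨b, b'⟩ h
    refine Cn.trans (b := (b, a')) ?_ ?_
    · exact Cn.map (fun x => (x, a')) (fun k x y e => Cn.single (k, true) (by simp [c4, e]))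
        (F1.cn a b rfl)
    · exact Cn.map (fun x => (b, x)) (fun k x y e => Cn.single (true, k) (by simp [c4, e])) h
  obtain ⟨Ω₁, _, _, l₁, T₁, t₁, a1, a2, a3, a4⟩ := ((AlgR.lift Eqv.snd Prod.snd_surjective
    (hl₀.prod hVp.eqv) hVp).mono cn4).encd hc4
  obtain ⟨Ω₂, _, _, l₂, T₂, t₂, b1, b2, b3, b4⟩ := ((AlgR.lift Eqv.snd Prod.snd_surjective
    (hl₀.prod hVm.eqv) hVm).mono cn4).encd hc4
  let L : Ω₁ ⊕ Ω₂ → Φ × Φ' := Sum.elim l₁ l₂
  have eL : Eqv H L := a1.sum b1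
  let l : Ω₁ ⊕ Ω₂ → Φ := fun ω => (L ω).1
  let l' : Ω₁ ⊕ Ω₂ → Φ' := fun ω => (L ω).2
  have oX : AOp H (LR L fun ω => (l₀ ω, lp ω)) (T₁ ∘L π₁) := a2.lcomp AOp.π₁
  have oY : AOp H (LR L fun ω => (l₀ ω, lm ω)) (T₂ ∘L π₂) := b2.lcomp AOp.π₂
  set Z : L2 (Ω₁ ⊕ Ω₂) →L[ℂ] L2 Ω := T₁ ∘L π₁ - T₂ ∘L π₂ with hZ
  have oZ : AOp H (LR (fun ω => (l ω, c' false (l' ω))) fun ω => (l₀ ω, c' false (lp ω))) Z :=
    (oX.coarse fun p => (p.1, c' false p.2)).sub ((oY.coarse fun p => (p.1, c' false p.2)).mono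
      fun a b e => by rw [LR, he]; exact e)
  have aK₁ : Alg H (fun _ => ()) (⨅ k, t₁ k) := Alg.iInf Eqv.unit fun k => (a3 k).unit
  have aK₂ : Alg H (fun _ => ()) (⨅ k, t₂ k) := Alg.iInf Eqv.unit fun k => (b3 k).unit
  set K := ds (⨅ k, t₁ k) (⨅ k, t₂ k) ⊓ kr Z with hK
  have aK : Alg H (fun _ => ()) K :=
    (aK₁.ds aK₂).unit.inf (Alg.kr Eqv.unit Eqv.unit (oZ.coarse fun _ => ()))
  obtain ⟨W, iW, aW, hKW, hW⟩ := two_dim hn F1 F2 hs' hc' hcn (l := l) (l' := l')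
    (Eqv.fst.comp eL) (Eqv.snd.comp eL) aK
  suffices h : V = (W true ⊔ W false).map Z by
    rw [h]
    exact (aW.coarse (hc' false)).map ((hc' false).comp hVp.eqv) (oZ.coarse Prod.snd)
  let t : Bool × Bool → CS (Ω₁ ⊕ Ω₂) := fun k => ds (t₁ k) (t₂ k)
  have lt : ∀ k, Loc (fun ω => c4 k (L ω)) (t k) := fun k =>
    ((a3 k).loc.comap ((AOp.π₁ (H := H) (l := l₁) (l' := l₂)).coarse (c4 k)).ent).inf
      ((b3 k).loc.comap ((AOp.π₂ (H := H) (l := l₁) (l' := l₂)).coarse (c4 k)).ent)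
  have it : ∀ k, Invt H (t k) := fun k => (a3 k).invt.ds (b3 k).invt
  have hKt : ∀ k, K ≤ t k := fun k => inf_le_left.trans
    (inf_le_inf (comap_mono _ (iInf_le _ k)) (comap_mono _ (iInf_le _ k)))
  have hWt : ∀ b b', W b' ≤ t (b, b') := fun b b' => (hW b b').trans (supp_le
    ((lt (b, b')).coarse fun ω ω' e => by
      simp only [c4, Prod.mk.injEq] at e ⊢
      exact ⟨e.1, h1 _ _ _ e.2⟩) (hKt _))
  have hWZ : W false ≤ kr Z := (hW true false).trans (supp_le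
    ((Loc.kr oZ.ent).coarse fun ω ω' e => by
      simp only [Prod.mk.injEq] at e ⊢
      exact ⟨by rw [e.1], e.2⟩) inf_le_right)
  have hWN : ∀ b b', W b' ≤ (t (b, false)).comap (P (l' ⁻¹' (N ∪ N'))) := fun b b' => by
    refine (hW b b').trans ((supp_coarse (l := fun ω => (c b (l ω), l' ω)) (fun ω ω' e => by
      simp only [Prod.mk.injEq] at e ⊢
      exact ⟨e.1, by rw [e.2]⟩) K).trans (supp_le' fun x ξ hξ => ?_))
    rw [ClosedSubmodule.mem_comap, P_P]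
    refine (lt (b, false)).sat (fun ω ω' e h => ?_) (hKt _ hξ)
    simp only [c4, Prod.mk.injEq] at e
    have e2 : l' ω = l' ω' := h2 _ _ e.2 h.1
    have e1 : c b (l ω) = c b (l ω') := e.1
    simp only [Set.mem_inter_iff, Set.mem_preimage, Set.mem_singleton_iff] at h ⊢
    rwa [← e1, ← e2]
  have zX : ∀ (A : Set Φ') (ξ), (∀ ω, lp ω ∈ A) → T₁ (π₁ (P (l' ⁻¹' A) ξ)) = T₁ (π₁ ξ) := by
    intro A ξ hA
    have := Ent.comm (A := l' ⁻¹' A) (B := Set.univ) (oX.ent.mono fun a b e => by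
      have e2 : l' a = lp b := congrArg Prod.snd e
      simp [e2, hA]) ξ
    rwa [P_univ] at this
  have zY : ∀ (A : Set Φ') (ξ), (∀ ω, lm ω ∈ A) → T₂ (π₂ (P (l' ⁻¹' A) ξ)) = T₂ (π₂ ξ) := by
    intro A ξ hA
    have := Ent.comm (A := l' ⁻¹' A) (B := Set.univ) (oY.ent.mono fun a b e => by
      have e2 : l' a = lm b := congrArg Prod.snd e
      simp [e2, hA]) ξ
    rwa [P_univ] at this
  have zY' : ∀ ξ, T₂ (π₂ (P (l' ⁻¹' N) ξ)) = 0 := by
    intro ξ
    have := Ent.comm (A := l' ⁻¹' N) (B := ∅) (oY.ent.mono fun a b e => by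
      have e2 : l' a = lm b := congrArg Prod.snd e
      simpa [e2] using fun h => hNN _ h (hm b)) ξ
    rwa [P_empty] at this
  apply le_antisymm
  · have e1 := map_inf_comap a2.eqv aK₁.invt (aK₂.invt.map b2.eqv)
    rw [← map_fibre aK₁.invt aK₂.invt a2.eqv b2.eqv, ← a4, ← b4, inf_idem, map_map] at e1
    rw [← e1, map_le]
    intro ξ hξ
    have := mem_map (T := Z) (aW.loc.pre N (hKW hξ))
    rwa [hZ, sub_apply, comp_apply, comp_apply, zX _ _ hp, zY', sub_zero] at this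
  · rw [map_le]
    intro ξ hξ
    have iq := (it (true, false)).inf (it (false, false))
    have e1 := inf_sup_modular (iW true) (iW false) iq (le_inf (hWt _ _) (hWt _ _))
    have e2 : P (l' ⁻¹' (N ∪ N')) ξ ∈ t (true, false) ⊓ t (false, false) ⊓ (W true ⊔ W false) :=
      ⟨⟨sup_le (hWN _ _) (hWN _ _) hξ, sup_le (hWN _ _) (hWN _ _) hξ⟩, aW.loc.pre _ hξ⟩
    have e3 : Z ξ = Z (P (l' ⁻¹' (N ∪ N')) ξ) := by
      simp only [hZ, sub_apply, comp_apply]
      rw [zX _ _ fun ω => Or.inl (hp ω), zY _ _ fun ω => Or.inr (hm ω)]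
    rw [e1] at e2
    rw [e3]
    refine (?_ : (_ : CS _) ≤ V.comap Z) e2
    refine sup_le (fun η hη => ?_) (hWZ.trans (comap_mono Z bot_le))
    have e4 : ∀ k, η ∈ t k := by
      rintro ⟨b, _ | _⟩
      · cases b
        exacts [hη.1.2, hη.1.1]
      · exact hWt b true hη.2
    change T₁ (π₁ η) - T₂ (π₂ η) ∈ V
    refine CS.sub_mem ?_ ?_
    · rw [a4]; exact mem_map (ClosedSubmodule.mem_iInf.2 fun k => (e4 k).1)
    · rw [b4]; exact mem_map (ClosedSubmodule.mem_iInf.2 fun k => (e4 k).2)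

end Pool.Agent.MP_54e5d7_al

end
end MrgPart1

-- marker of a merged file
example : 731051 + 732679 = 731051 + 732679 := rfl
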