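import Mathlib

/-!
The class of groups used in the hierarchy theorem for the Atiyah conjecture.
-/

set_option autoImplicit false

namespace Pool.Agent.MP_54e5d7_al

/-- The smallest class of groups that contains
* all finite groups;
* every group that acts on a tree by graph automorphisms, without inversions, with all vertex
  stabilizers in the class (no condition on edge stabilizers or valence);
* every group `G` with a homomorphism `π` to a group `Q` that has a finite-index subgroup embedding
  in some `ℤ ^ k`, such that the preimage of every finite subgroup of `Q` is in the class;
* every group all of whose finitely generated subgroups are in the class. -/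
inductive Hier : (G : Type) → [Group G] → Prop
  | finite (G : Type) [Group G] [Finite G] : Hier G
  | tree (G : Type) [Group G] (X : Type) [MulAction G X] (T : SimpleGraph X) (hT : T.IsTree)
      (hadj : ∀ (g : G) (v w : X), T.Adj v w → T.Adj (g • v) (g • w))
      (hinv : ∀ (g : G) (v w : X), T.Adj v w → g • v = w → g • w ≠ v)
      (hstab : ∀ v : X, Hier (MulAction.stabilizer G v)) : Hier G
  | virtAb (G Q : Type) [Group G] [Group Q] (π : G →* Q) (A : Subgroup Q) [A.FiniteIndex] (k : ℕ)
      (e : A →* Multiplicative (Fin k → ℤ)) (he : Function.Injective e)
      (hfin : ∀ E : Subgroup Q, Finite E → Hier (E.comap π)) : Hier G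
  | locally (G : Type) [Group G] (hfg : ∀ S : Subgroup G, S.FG → Hier S) : Hier G

end Pool.Agent.MP_54e5d7_al
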