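import Mathlib

/-!
The definitions used in the statements about the Atiyah conjecture.
-/

set_option autoImplicit false

open Classical

namespace Pool.Agent.MP_54e5d7_al

/-- The smallest class of groups that contains all finite groups and contains every group that
acts on a tree by graph automorphisms, without inversions, with all vertex stabilizers in the
class. No condition is imposed on the edge stabilizers or on the valence. -/
inductive TreeHier : (G : Type) → [Group G] → Prop
  | finite (G : Type) [Group G] [Finite G] : TreeHier G
  | tree (G : Type) [Group G] (X : Type) [MulAction G X] (T : SimpleGraph X) (hT : T.IsTree)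
      (hadj : ∀ (g : G) (v w : X), T.Adj v w → T.Adj (g • v) (g • w))
      (hinv : ∀ (g : G) (v w : X), T.Adj v w → g • v = w → g • w ≠ v)
      (hstab : ∀ v : X, TreeHier (MulAction.stabilizer G v)) : TreeHier G

/-- For every matrix `A` over the complex group ring of `G`, `d` times the von Neumann dimension
of the module presented by `A` is an integer; the formula is the one of the frozen statement
`S01499`: `n - m` plus the dimension of the kernel of right multiplication by `A` on the
`m`-th power of the Hilbert space of square-summable functions on `G`. -/
def Atiyah (G : Type) [Group G] (d : ℕ) : Prop :=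
  ∀ (m n : ℕ) (A : Matrix (Fin m) (Fin n) (G →₀ ℂ)),
    ∃ z : ℤ, (d : ℝ) * ((n : ℝ) - (m : ℝ) + ∑ i : Fin m,
      (1 - (Metric.infDist
        (lp.single 2 (i, (1 : G)) (1 : ℂ) : lp (fun _ : Fin m × G => ℂ) 2)
        {x : lp (fun _ : Fin m × G => ℂ) 2 | ∀ (j : Fin n) (g : G),
          ∑ i' : Fin m, (A i' j).sum (fun h c => x (i', g * h⁻¹) * c) = 0}) ^ 2)) = z

end Pool.Agent.MP_54e5d7_al
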