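import Mathlib
import Pool.Agent.MP_54e5d7_al.TwoD

-- ======== part 0: formerly Pool.Agent.MP_54e5d7_al.Localize
section MrgPart0

/-!
Localization to stabilizers, the finite-index case, finite groups.
-/

set_option autoImplicit false

open scoped InnerProductSpace
open Classical ContinuousLinearMap MulAction

noncomputable section
namespace Pool.Agent.MP_54e5d7_al

variable {H : Type} [Group H] {Ω Λ Φ : Type} [MulAction H Ω] [MulAction H Λ] [MulAction H Φ]

variable (H) in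
/-- Integrality of the dimensions of all algebraic subspaces. -/
def AC0 (n : ℕ) : Prop :=
  ∀ (Ω : Type) [MulAction H Ω] [FC H Ω] (V : CS Ω), Alg H (fun _ => ()) V → ∃ z : ℤ, n * dim H V = z

/-- A fibre of an equivariant map, with the action of the stabilizer. -/
def fibS {m : Ω → Λ} (hm : Eqv H m) (x : Λ) : SubMulAction (stabilizer H x) Ω where
  carrier := {ω | m ω = x}
  smul_mem' := fun k ω h => by
    change m ((k : H) • ω) = x
    rw [hm, h]; exact k.2

/-- The inclusion of a fibre. -/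
def fibE {m : Ω → Λ} (hm : Eqv H m) (x : Λ) : fibS hm x ↪ Ω := Function.Embedding.subtype _

lemma eqvI_fibE {m : Ω → Λ} (hm : Eqv H m) (x : Λ) : EqvI (stabilizer H x).subtype (fibE hm x) :=
  fun _ _ => rfl

lemma range_fibE {m : Ω → Λ} (hm : Eqv H m) (x : Λ) : Set.range (fibE hm x) = m ⁻¹' {x} :=
  Subtype.range_coe

lemma block_fibE {m : Ω → Λ} (hm : Eqv H m) (x : Λ) (h : H) (a b : fibS hm x)
    (e : h • fibE hm x a = fibE hm x b) : h ∈ stabilizer H x := by
  have h1 : m (fibE hm x a) = x := a.2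
  have h2 : m (fibE hm x b) = x := b.2
  rw [mem_stabilizer_iff]
  rw [← e, hm, h1] at h2; exact h2

instance [FC H Ω] {m : Ω → Λ} (hm : Eqv H m) (x : Λ) : FC (stabilizer H x) (fibS hm x) :=
  fc_of_block Subtype.val_injective (eqvI_fibE hm x) (Set.finite_singleton 1) fun h a b e =>
    ⟨⟨h, block_fibE hm x h a b e⟩, 1, rfl, by simp⟩

variable [FC H Ω]

variable (H) in
/-- The finite set of orbits of locations that occur. -/
def orbs (m : Ω → Λ) : Finset (Q H Λ) := Finset.univ.image fun q : Q H Ω => cls H (m q.out)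

lemma exists_of_mem_orbs {m : Ω → Λ} (hm : Eqv H m) {y : Q H Λ} (hy : y ∈ orbs H m) :
    ∃ ω, m ω = y.out := by
  obtain ⟨q, -, rfl⟩ := Finset.mem_image.1 hy
  obtain ⟨g, hg⟩ := exists_smul_out H (m q.out)
  exact ⟨g⁻¹ • q.out, by rw [hm, inv_smul_eq_iff, hg]⟩

lemma dim_eq_sum_fib {m : Ω → Λ} (hm : Eqv H m) {V : CS Ω} (hV : Invt H V) (hl : Loc m V) :
    dim H V = ∑ y ∈ orbs H m, dim (stabilizer H y.out) (V.comap (push (fibE hm y.out))) := by
  have h1 : ∀ y : Q H Λ, dim (stabilizer H y.out) (V.comap (push (fibE hm y.out))) =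
      ∑ q : Q H Ω, if cls H (m q.out) = y then wt V q.out else 0 := fun y => by
    rw [dim_block (eqvI_fibE hm _) (fun h a b e => by simpa using block_fibE hm _ h a b e) hV
      (fun ξ h => by rw [range_fibE]; exact hl _ _ h)]
    refine Finset.sum_congr rfl fun q _ => if_congr ⟨?_, ?_⟩ rfl rfl
    · rintro ⟨a, rfl⟩
      obtain ⟨g, hg⟩ := exists_smul_out H (fibE hm y.out a)
      have h2 : m (fibE hm y.out a) = y.out := a.2
      rw [← cls_smul g, ← hm, hg, h2, cls_out]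
    · rintro rfl
      obtain ⟨g, hg⟩ := exists_smul_out H (m q.out)
      refine ⟨⟨g⁻¹ • q.out, ?_⟩, (cls_smul _ _).trans (cls_out q)⟩
      change m _ = _
      rw [hm, inv_smul_eq_iff, hg]
  simp only [h1]
  rw [Finset.sum_comm]
  refine Finset.sum_congr rfl fun q _ => ?_
  rw [Finset.sum_ite_eq, if_pos]
  exact Finset.mem_image_of_mem (fun q : Q H Ω => cls H (m q.out)) (Finset.mem_univ q)

omit [FC H Ω] in
lemma alg_res_fib {m : Ω → Λ} (hm : Eqv H m) (x : Λ) {V : CS Ω} (hV : Alg H m V) :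
    Alg (stabilizer H x) (fun _ => ()) (V.comap (push (fibE hm x))) :=
  alg_res (σ := fun _ : Unit => x) Subtype.val_injective (fun k _ => k.2.symm)
    (fun _ _ _ => rfl) (eqvI_fibE hm x) (fun a => a.2)
    (fun ω ⟨_, h⟩ => ⟨⟨ω, h.symm⟩, rfl⟩) (Set.finite_singleton 1)
    (fun h _ _ e => ⟨⟨h, e⟩, 1, rfl, by simp⟩) hV

omit [FC H Ω] in
theorem ac_of_stab {n : ℕ} {c : Φ → Λ} (hc : Eqv H c) (h : ∀ φ, AC0 (stabilizer H (c φ)) n) :
    AC H n c := by
  intro Ω _ _ l hl V hV
  have hm := hc.comp hl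
  have : ∀ y ∈ orbs H fun ω => c (l ω), ∃ z : ℤ,
      n * dim (stabilizer H y.out) (V.comap (push (fibE hm y.out))) = z := fun y hy => by
    obtain ⟨ω, e⟩ := exists_of_mem_orbs hm hy
    have := h (l ω)
    rw [e] at this
    exact this _ _ (alg_res_fib hm _ hV)
  choose! z hz using this
  refine ⟨∑ y ∈ orbs H fun ω => c (l ω), z y, ?_⟩
  rw [dim_eq_sum_fib hm hV.invt hV.loc, Finset.mul_sum]
  push_cast
  exact Finset.sum_congr rfl hz

omit [FC H Ω] in
theorem ss_of_stab {c : Φ → Λ} (hc : Eqv H c)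
    (h : ∀ φ, SS (stabilizer H (c φ)) fun _ : fibS hc (c φ) => ()) : SS H c := by
  intro Ω _ _ l hl L iL lL r U hU
  have hm := hc.comp hl
  let lx : ∀ x, fibS hm x → fibS hc x := fun x ω => ⟨l ω.1, ω.2⟩
  have ex : ∀ x, Eqv (stabilizer H x) (lx x) := fun x k ω => Subtype.ext (hl k ω.1)
  have : ∀ y : Q H Λ, ∃ W : CS (fibS hm y.out), y ∈ (orbs H fun ω => c (l ω)) →
      Alg (stabilizer H y.out) (lx y.out) W ∧
      gf (stabilizer H y.out) (L.comap (push (fibE hm y.out))) r (U.comap (push (fibE hm y.out))) ≤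
        gf (stabilizer H y.out) (L.comap (push (fibE hm y.out))) r W := fun y => by
    by_cases hy : y ∈ orbs H fun ω => c (l ω)
    swap
    · exact ⟨⊥, fun h => absurd h hy⟩
    obtain ⟨ω, e⟩ := exists_of_mem_orbs hm hy
    have h1 := h (l ω)
    rw [e] at h1
    obtain ⟨W, hW⟩ := h1 _ (lx y.out) (ex _) _ (iL.comap_push (eqvI_fibE hm _))
      ((lL.comap (l := fun ω : fibS hm y.out => l ω.1) fun a b e => by
        rw [push_dl] at e; rw [eq_of_ev_dl e]; rfl).coarse fun a b e => Subtype.ext e) r _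
      (alg_res_fib hm _ hU)
    exact ⟨W, fun _ => hW⟩
  choose W hW using this
  have aW : Alg H l (⨆ y ∈ orbs H fun ω => c (l ω), Ind H (fibE hm y.out) (W y)) :=
    Alg.biSup hl _ fun y hy => alg_ind (σ := fibE hc y.out) Subtype.val_injective
      (eqvI_fibE hc _) (eqvI_fibE hm _) hl (fun _ => rfl) (hW y hy).1
  refine ⟨_, aW, ?_⟩
  set W' := ⨆ y ∈ orbs H fun ω => c (l ω), Ind H (fibE hm y.out) (W y) with hW'
  have key : ∀ y ∈ orbs H fun ω => c (l ω), W'.comap (push (fibE hm y.out)) = W y := by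
    intro y hy
    apply le_antisymm
    · have : W' ≤ (W y).comap (pull (fibE hm y.out)) := by
        refine iSup₂_le fun y' hy' => Ind_le fun g ξ hξ => ?_
        rw [ClosedSubmodule.mem_comap]
        by_cases hg : g • y'.out = y.out
        · have e : y' = y := by rw [← cls_out y', ← cls_smul g, hg, cls_out]
          subst e
          have := (eqvI_fibE hm y'.out).pull_u ⟨g, hg⟩ (push (fibE hm y'.out) ξ)
          rw [pull_push] at this
          exact this ▸ (hW y' hy).1.invt _ _ hξ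
        · have : pull (fibE hm y.out) (u g (push (fibE hm y'.out) ξ)) = 0 := L2.ext fun a => by
            rw [ev_pull, ev_u, ev_push_of_not_mem, map_zero]
            rw [range_fibE]
            intro e
            have e1 : c (l (fibE hm y.out a)) = y.out := a.2
            have e2 : c (l (g⁻¹ • fibE hm y.out a)) = y'.out := e
            rw [hl, hc, e1, inv_smul_eq_iff] at e2
            exact hg e2.symm
          rw [this]; exact zero_mem _
      intro ξ hξ
      have h1 := this (ClosedSubmodule.mem_comap.1 hξ)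
      rwa [ClosedSubmodule.mem_comap, pull_push] at h1
    · intro ξ hξ
      have h1 : Ind H (fibE hm y.out) (W y) ≤ W' :=
        le_iSup₂_of_le (f := fun y (_ : y ∈ orbs H fun ω => c (l ω)) =>
          Ind H (fibE hm y.out) (W y)) y hy le_rfl
      have := h1 (mem_Ind (1 : H) hξ)
      rwa [u_one] at this
  have lL' : Loc (fun ω => c (l ω)) L := lL.coarse fun _ _ e => by rw [e]
  have lW : Loc (fun ω => c (l ω)) W' := aW.loc.coarse fun _ _ e => by rw [e]
  simp only [gf] at hW ⊢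
  rw [dim_eq_sum_fib hm (hU.invt.inf iL) (hU.loc.inf lL'), dim_eq_sum_fib hm hU.invt hU.loc,
    dim_eq_sum_fib hm (aW.invt.inf iL) (lW.inf lL'), dim_eq_sum_fib hm aW.invt lW,
    Finset.mul_sum, Finset.mul_sum, ← Finset.sum_sub_distrib, ← Finset.sum_sub_distrib]
  refine Finset.sum_le_sum fun y hy => ?_
  rw [comap_inf, comap_inf, key y hy]
  exact (hW y hy).2

omit [MulAction H Ω] [FC H Ω] in
lemma push_refl : push (Function.Embedding.refl Ω) = ContinuousLinearMap.id ℂ (L2 Ω) :=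
  op_ext fun _ => push_dl _ _

omit [FC H Ω] in
lemma u_coe (N : Subgroup H) (k : N) (ξ : L2 Ω) : u k ξ = u (k : H) ξ :=
  L2.ext fun ω => by simp [Subgroup.smul_def]

omit [FC H Ω] in
lemma Invt.subgroup (N : Subgroup H) {V : CS Ω} (h : Invt H V) : Invt N V :=
  fun k ξ hξ => by rw [u_coe]; exact h _ _ hξ

omit [FC H Ω] in
lemma isInd_conj (N : Subgroup H) [N.Normal] (g : H) :
    IsInd (MulAut.conjNormal (H := N) g).toMonoidHom (toPerm g : Equiv.Perm Ω).toEmbedding where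
  eqv := fun k a => by simp [Subgroup.smul_def, mul_smul]
  surj := fun ω => ⟨1, g⁻¹ • ω, by simp⟩
  block := fun h _ _ _ => (MulAut.conjNormal (H := N) g).surjective h

omit [FC H Ω] in
lemma invt_map_u (N : Subgroup H) [hN : N.Normal] (g : H) {V : CS Ω} (hV : Invt N V) :
    Invt N (V.map (u g)) := fun k => by
  rw [← map_le, map_map, map_le]
  intro ξ hξ
  have := mem_map (T := u g) (hV ⟨_, hN.conj_mem' _ k.2 g⟩ ξ hξ)
  rw [u_coe, u_u] at this
  rw [comp_apply, u_coe, u_u]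
  convert this using 3
  simp [← mul_assoc]

omit [FC H Ω] in
lemma dim_map_u (N : Subgroup H) [N.Normal] [FC N Ω] (g : H) {V : CS Ω} (hV : Invt N V) :
    dim N (V.map (u g)) = dim N V := by
  rw [← (isInd_conj N g).dim_comap (invt_map_u N g hV) (fun ξ h => by
    have : Set.range (toPerm g : Equiv.Perm Ω).toEmbedding = Set.univ :=
      (toPerm g : Equiv.Perm Ω).surjective.range_eq
    rwa [this, P_univ]), ← u_eq_push]
  congr 1
  apply le_antisymm
  · intro ξ h
    have h1 : V.map (u g) ≤ V.comap (u g⁻¹) := map_le.2 fun η hη => by simpa using hη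
    simpa using h1 h
  · exact fun ξ h => mem_map (T := u g) h

omit [FC H Ω] in
lemma alg_map_u (N : Subgroup H) [N.Normal] [FC N Ω] (g : H) {V : CS Ω}
    (hV : Alg N (fun _ => ()) V) : Alg N (fun _ => ()) (V.map (u g)) := by
  have := alg_ind (σ := fun _ : Unit => ()) (MulAut.conjNormal (H := N) g).injective
    (fun _ _ => rfl) (isInd_conj N g).eqv Eqv.unit (fun _ => rfl) hV
  suffices e : V.map (u g) = Ind N (toPerm g : Equiv.Perm Ω).toEmbedding V by rw [e]; exact this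
  apply le_antisymm
  · rw [map_le]; intro ξ h
    have := mem_Ind (j := (toPerm g : Equiv.Perm Ω).toEmbedding) (1 : N) h
    rwa [u_one, ← u_eq_push] at this
  · refine Ind_le fun k ξ h => invt_map_u N g hV.invt k _ ?_
    rw [← u_eq_push]; exact mem_map h

lemma alg_map_P_const {Λ' : Type} [MulAction H Λ'] {l' : Ω → Λ'} {V : CS Ω} (hV : Alg H l' V)
    {l : Ω → Λ} (hl : Eqv H l) {y : Λ} (hy : ∀ h : H, h • y = y) :
    Alg H l (V.map (P (l ⁻¹' {y}))) := by
  obtain ⟨Ω₁, _, _, l₁, j, Z, h1, h2, h3, h4, rfl⟩ := hV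
  have e : ∀ {A : Type} [MulAction H A], Eqv H fun _ : A => y := fun g _ => (hy g).symm
  rw [map_map]
  refine (Ker.kr (l := fun _ => y) e (h4.mono fun _ _ _ => rfl)).alg_map e hl ?_
  refine AOp.comp (R := fun _ _ => True) (R' := fun a b => l b = y) (AOp.P (fun g ω => ?_) ?_)
    (AOp.pull h2 fun _ => trivial) fun _ _ _ _ e => e.symm
  · simp only [Set.mem_preimage, Set.mem_singleton_iff, hl g]
    rw [smul_eq_iff_eq_inv_smul, hy]
  · exact fun ω h => h

omit [FC H Ω] in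
theorem ss_of_normal {n : ℕ} (hn : 0 < n) (N : Subgroup H) [N.Normal] [N.FiniteIndex]
    (hN : ∀ k ∈ N, ∀ y : Λ, k • y = y) (hAC : AC0 N n) : SS H fun _ : Λ => () := by
  intro Ω _ _ l hl L iL lL r U hU
  have := fc_subgroup (Ω := Ω) N
  obtain ⟨E, hE, hE'⟩ := exists_coset_reps N
  have hU' : Alg N (fun _ => ()) U := by
    have := alg_res (ι := N.subtype) (σ := fun _ : Unit => ()) (l' := fun _ => ())
      Subtype.val_injective (fun _ _ => rfl) (fun _ _ _ => rfl) (j := Function.Embedding.refl Ω)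
      (fun _ _ => rfl) (fun _ => rfl) (fun ω _ => ⟨ω, rfl⟩) hE (fun h _ _ _ => hE' h) hU
    rwa [push_refl] at this
  have iL' := iL.subgroup N
  obtain ⟨W, hW⟩ := exists_isMin (H := N) hn Eqv.unit (hAC Ω) iL' r
  have iW := hW.alg.invt
  have h1 : Invt H W := fun g ξ hξ => by
    have := hW.sym (alg_map_u N g hW.alg) (dim_map_u N g iW) (by
      rw [← dim_map_u N g (iW.inf iL')]
      exact dim_mono (map_le.2 fun η hη => ⟨mem_map hη.1, iL g η hη.2⟩))
    rw [this]; exact mem_map hξ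
  have hlN : Eqv N l := fun k ω => hl k ω
  have h2 : Loc l W := fun y ξ hξ => by
    have oR : AOp N (LR (fun _ : Ω => ()) fun _ => ())
        (ContinuousLinearMap.id ℂ (L2 Ω) - (2 : ℂ) • P (l ⁻¹' {y})) :=
      AOp.sub (AOp.id fun _ => rfl) (AOp.smul _ (AOp.P (fun (k : N) ω => by
        simp only [Set.mem_preimage, hl k, Subgroup.smul_def, hN _ k.2]) fun _ _ => rfl))
    have hi : ∀ ξ, (ContinuousLinearMap.id ℂ (L2 Ω) - (2 : ℂ) • P (l ⁻¹' {y})) ξ = 0 → ξ = 0 :=
      fun ξ h => L2.ext fun ω => by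
        have := congr(ev ω $h)
        simp only [sub_apply, id_apply, smul_apply, map_sub, map_smul, ev_P, map_zero,
          smul_eq_mul] at this ⊢
        split_ifs at this
        · linear_combination -this
        · linear_combination this
    have := hW.sym (hW.alg.map Eqv.unit oR) (dim_map_of_inj oR.eqv iW fun ξ _ => hi ξ) (by
      rw [← dim_map_of_inj oR.eqv (iW.inf iL') fun ξ _ => hi ξ]
      exact dim_mono (map_le.2 fun η hη =>
        ⟨mem_map hη.1, CS.sub_mem hη.2 (CS.smul_mem _ (lL y η hη.2))⟩))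
    have h3 : (ContinuousLinearMap.id ℂ (L2 Ω) - (2 : ℂ) • P (l ⁻¹' {y})) ξ ∈ W := by
      rw [this]; exact mem_map hξ
    have h4 := CS.smul_mem (2 : ℂ)⁻¹ (CS.sub_mem hξ h3)
    simpa [smul_smul] using h4
  have h3 : Alg N l W := by
    have a := Alg.biSup hlN (Finset.univ.image fun q : Q N Ω => l q.out)
      fun y _ => alg_map_P_const hW.alg hlN (y := y) fun k => hN _ k.2 y
    convert a using 1
    apply le_antisymm
    · intro ξ hξ
      refine mem_of_forall_P l fun y => ?_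
      by_cases hy : y ∈ Finset.univ.image fun q : Q N Ω => l q.out
      · exact (le_iSup₂_of_le (f := fun y (_ : y ∈ Finset.univ.image fun q : Q N Ω => l q.out) =>
          W.map (P (l ⁻¹' {y}))) y hy le_rfl) (mem_map hξ)
      · have : l ⁻¹' {y} = ∅ := Set.eq_empty_of_forall_notMem fun ω h => hy (by
          obtain ⟨k, hk⟩ := exists_smul_out N ω
          refine Finset.mem_image.2 ⟨cls N ω, Finset.mem_univ _, ?_⟩
          rw [← hN _ k.2 (l _), ← hl, ← Subgroup.smul_def, hk]; exact h)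
        rw [this, P_empty]; exact zero_mem _
    · exact iSup₂_le fun y _ => map_le.2 (h2 y)
  refine ⟨W, ?_, ?_⟩
  · have := alg_ind (ι := N.subtype) (σ := fun y : Λ => y) Subtype.val_injective (fun _ _ => rfl)
      (j := Function.Embedding.refl Ω) (fun _ _ => rfl) hl (fun _ => rfl) h3
    convert this using 1
    apply le_antisymm
    · intro ξ h
      have := mem_Ind (j := Function.Embedding.refl Ω) (1 : H) h
      rwa [u_one, push_refl] at this
    · refine Ind_le fun k ξ h => h1 k _ ?_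
      rw [push_refl]; exact h
  · have h4 := hW.max U hU'
    simp only [gf] at h4 ⊢
    rw [dim_subgroup N (hU.invt.inf iL), dim_subgroup N hU.invt, dim_subgroup N (h1.inf iL),
      dim_subgroup N h1] at h4
    have h5 : (0 : ℝ) < N.index := by exact_mod_cast Nat.pos_of_ne_zero Subgroup.FiniteIndex.index_ne_zero
    refine le_of_mul_le_mul_left ?_ h5
    linarith

omit [MulAction H Ω] [FC H Ω] in
lemma sum_wt [Fintype Ω] (V : CS Ω) : ∃ k : ℕ, ∑ ω, wt V ω = k := by
  have hon : Orthonormal ℂ (dl : Ω → L2 Ω) := orthonormal_iff_ite.2 fun a b => by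
    rw [inner_dl, ev_dl]
  have hsp : ⊤ ≤ Submodule.span ℂ (Set.range (dl : Ω → L2 Ω)) := fun ξ _ => by
    rw [← (hasSum_fintype _).unique (hasSum_dl ξ)]
    exact Submodule.sum_mem _ fun ω _ => Submodule.smul_mem _ _ (Submodule.subset_span ⟨ω, rfl⟩)
  let b := OrthonormalBasis.mk hon hsp
  have : FiniteDimensional ℂ (L2 Ω) := b.toBasis.finiteDimensional_of_finite
  have h1 : LinearMap.IsProj V.toSubmodule (pr V).toLinearMap :=
    ⟨fun ξ => pr_mem V ξ, fun ξ h => pr_eq_self.2 h⟩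
  have h2 := h1.trace
  rw [LinearMap.trace_eq_sum_inner _ b] at h2
  simp only [b, OrthonormalBasis.coe_mk, inner_dl, ContinuousLinearMap.coe_coe, ev_pr_dl] at h2
  exact ⟨_, by simp only [wt]; exact_mod_cast h2⟩

omit [MulAction H Ω] [FC H Ω] in
theorem ac0_of_finite [Finite H] {n : ℕ} (hn : Nat.card H ∣ n) : AC0 H n := by
  intro Ω _ _ V hV
  have := Fintype.ofFinite H
  have : Finite Ω := Finite.of_surjective _ (bij_out H Ω).2
  have := Fintype.ofFinite Ω
  obtain ⟨k, hk⟩ := sum_wt V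
  obtain ⟨m, rfl⟩ := hn
  rw [← (bij_out H Ω).sum_comp, Fintype.sum_prod_type] at hk
  simp only [wt_smul hV.invt, Finset.sum_const, Finset.card_univ, nsmul_eq_mul,
    ← Finset.mul_sum] at hk
  refine ⟨m * k, ?_⟩
  rw [Nat.card_eq_fintype_card]
  push_cast
  rw [← hk, dim]; ring

end Pool.Agent.MP_54e5d7_al

end
end MrgPart0

-- ======== part 1: formerly Pool.Agent.MP_54e5d7_al.Free
section MrgPart1

/-!
The free extension used for symmetrization and its Cayley tree.
-/

set_option autoImplicit false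

open scoped InnerProductSpace
open Classical ContinuousLinearMap MulAction

noncomputable section
namespace Pool.Agent.MP_54e5d7_al

section pot
variable {X : Type}

lemma exists_pot (κ : FreeGroup X → X → ℤ) :
    ∃ χ : FreeGroup X → ℤ, ∀ w x, χ (w * FreeGroup.of x) = χ w + κ w x := by
  let τ : X → Equiv.Perm (FreeGroup X × ℤ) := fun x =>
    { toFun := fun p => (p.1 * FreeGroup.of x, p.2 + κ p.1 x)
      invFun := fun p => (p.1 * (FreeGroup.of x)⁻¹, p.2 - κ (p.1 * (FreeGroup.of x)⁻¹) x)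
      left_inv := fun p => by simp
      right_inv := fun p => by simp }
  let σ : FreeGroup X →* Equiv.Perm (FreeGroup X × ℤ) := FreeGroup.lift fun x => (τ x)⁻¹
  have h1 : ∀ g p, (σ g p).1 = p.1 * g⁻¹ := fun g => by
    induction g using FreeGroup.induction_on with
    | C1 => simp
    | of x => intro p; simp [σ, τ, Equiv.Perm.inv_def]
    | inv_of x _ => intro p; simp [σ, τ]
    | mul a b ha hb => intro p; simp [ha, hb, mul_assoc]
  refine ⟨fun w => (σ w⁻¹ (1, 0)).2, fun w x => ?_⟩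
  have h2 := h1 w⁻¹ (1, 0)
  simp only [one_mul, inv_inv] at h2
  simp only [mul_inv_rev, map_mul, Equiv.Perm.mul_apply]
  have h3 : σ (FreeGroup.of x)⁻¹ = τ x := by simp [σ]
  rw [h3]
  simp only [τ, Equiv.coe_fn_mk, h2]

end pot

variable {Γ : Type} [Group Γ] {Λ : Type} [MulAction Γ Λ]

/-- The free group on countably many copies of `Λ`. -/
abbrev FG (Λ : Type) := FreeGroup (Λ × ℕ)

/-- Generators. -/
abbrev gen (x : Λ) (m : ℕ) : FG Λ := FreeGroup.of (x, m)

variable (Γ Λ) in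
/-- The action on the free group by automorphisms. -/
def autF : Γ →* MulAut (FG Λ) where
  toFun γ := FreeGroup.freeGroupCongr (Equiv.prodCongr (toPerm γ) (Equiv.refl ℕ))
  map_one' := by
    apply MulEquiv.toMonoidHom_injective
    ext ⟨x, k⟩; simp
  map_mul' a b := by
    apply MulEquiv.toMonoidHom_injective
    ext ⟨x, k⟩; simp [mul_smul]

@[simp] lemma autF_gen (γ : Γ) (x : Λ) (m : ℕ) : autF Γ Λ γ (gen x m) = gen (γ • x) m := by
  simp [autF]

variable (Γ Λ) in
/-- The free extension. -/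
abbrev DG := SemidirectProduct (FG Λ) Γ (autF Γ Λ)

instance : MulAction (DG Γ Λ) (FG Λ) where
  smul d w := d.left * autF Γ Λ d.right w
  one_smul w := by change 1 * autF Γ Λ 1 w = w; simp
  mul_smul a b w := by
    change (a * b).left * autF Γ Λ (a * b).right w =
      a.left * autF Γ Λ a.right (b.left * autF Γ Λ b.right w)
    simp [mul_assoc]

lemma smul_FG (d : DG Γ Λ) (w : FG Λ) : d • w = d.left * autF Γ Λ d.right w := rfl

lemma smul_mul_FG (d : DG Γ Λ) (w v : FG Λ) : d • (w * v) = d • w * autF Γ Λ d.right v := by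
  simp [smul_FG, mul_assoc]

variable (Λ) in
/-- Pairs of a vertex and a point. -/
@[ext] structure FO (Ω : Type) where
  /-- vertex -/
  w : FG Λ
  /-- point -/
  p : Ω

instance {Ω : Type} [MulAction Γ Ω] : MulAction (DG Γ Λ) (FO Λ Ω) where
  smul d a := ⟨d • a.w, d.right • a.p⟩
  one_smul _ := FO.ext (one_smul _ _) (one_smul Γ _)
  mul_smul a b _ := FO.ext (mul_smul _ _ _) (mul_smul a.right b.right _)

@[simp] lemma FO.smul_w {Ω : Type} [MulAction Γ Ω] (d : DG Γ Λ) (a : FO Λ Ω) :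
    (d • a).w = d • a.w := rfl
@[simp] lemma FO.smul_p {Ω : Type} [MulAction Γ Ω] (d : DG Γ Λ) (a : FO Λ Ω) :
    (d • a).p = d.right • a.p := rfl

variable (Λ) in
/-- Half-edges of the Cayley tree. -/
@[ext] structure Fl where
  /-- vertex -/
  w : FG Λ
  /-- colour -/
  x : Λ
  /-- label -/
  n : ℕ
  /-- direction -/
  e : Bool

instance : MulAction (DG Γ Λ) (Fl Λ) where
  smul d a := ⟨d • a.w, d.right • a.x, a.n, a.e⟩
  one_smul _ := Fl.ext (one_smul _ _) (one_smul Γ _) rfl rfl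
  mul_smul a b _ := Fl.ext (mul_smul _ _ _) (mul_smul a.right b.right _) rfl rfl

@[simp] lemma Fl.smul_w (d : DG Γ Λ) (a : Fl Λ) : (d • a).w = d • a.w := rfl
@[simp] lemma Fl.smul_x (d : DG Γ Λ) (a : Fl Λ) : (d • a).x = d.right • a.x := rfl
@[simp] lemma Fl.smul_n (d : DG Γ Λ) (a : Fl Λ) : (d • a).n = a.n := rfl
@[simp] lemma Fl.smul_e (d : DG Γ Λ) (a : Fl Λ) : (d • a).e = a.e := rfl

/-- The initial half-edge of the edge. -/
def Fl.edge (a : Fl Λ) : Fl Λ := ⟨if a.e then a.w else a.w * (gen a.x a.n)⁻¹, a.x, a.n, true⟩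

lemma Fl.edge_smul (d : DG Γ Λ) (a : Fl Λ) : (d • a).edge = d • a.edge := by
  refine Fl.ext ?_ rfl rfl rfl
  simp only [Fl.edge, Fl.smul_w, Fl.smul_e, Fl.smul_x, Fl.smul_n]
  split_ifs
  · rfl
  · simp [smul_mul_FG]

/-- Vertex and edge of a half-edge. -/
def cT : Bool → Fl Λ → Fl Λ ⊕ FG Λ
  | true => fun a => Sum.inr a.w
  | false => fun a => Sum.inl a.edge

/-- The same with the edges of label `m` cut. -/
def cN (m : ℕ) : Bool → Fl Λ → Fl Λ ⊕ FG Λ
  | true => fun a => Sum.inr a.w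
  | false => fun a => Sum.inl (if a.n = m then a else a.edge)

lemma eqv_cT : ∀ b, Eqv (DG Γ Λ) (cT (Λ := Λ) b)
  | true => fun _ _ => rfl
  | false => fun d a => congrArg Sum.inl (Fl.edge_smul d a)

lemma eqv_cN (m : ℕ) : ∀ b, Eqv (DG Γ Λ) (cN (Λ := Λ) m b)
  | true => fun _ _ => rfl
  | false => fun d a => by
    simp only [cN, Fl.smul_n, Sum.smul_inl]
    split_ifs
    · rfl
    · rw [Fl.edge_smul]

omit [MulAction Γ Λ] in
lemma cN_fresh {m : ℕ} {a b : Fl Λ} (h : cN m false a = cN m false b) (ha : a.n = m) : a = b := by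
  simp only [cN, Sum.inl.injEq, if_pos ha] at h
  split_ifs at h with hb
  · exact h
  · exact absurd ((congrArg Fl.n h).symm.trans ha) hb

omit [MulAction Γ Λ] in
lemma cT_of_cN (m : ℕ) : ∀ (k : Bool) (a b : Fl Λ), cN m k a = cN m k b → cT k a = cT k b
  | true => fun _ _ h => h
  | false => fun a b h => by
    by_cases ha : a.n = m
    · rw [cN_fresh h ha]
    · by_cases hb : b.n = m
      · rw [cN_fresh h.symm hb]
      · simpa only [cN, cT, if_neg ha, if_neg hb] using h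

omit [MulAction Γ Λ] in
lemma hs_cT : HS (cT (Λ := Λ)) := by
  intro φ
  obtain ⟨χ, hχ⟩ := exists_pot fun w (x : Λ × ℕ) =>
    if (⟨w, x.1, x.2, true⟩ : Fl Λ) = φ.edge then 1 else 0
  have key : ∀ a : Fl Λ, χ a.w = χ a.edge.w + if a.e = false ∧ a.edge = φ.edge then 1 else 0 := by
    rintro ⟨w, x, n, _ | _⟩
    · have := hχ (w * (gen x n)⁻¹) (x, n)
      simpa [Fl.edge] using this
    · simp [Fl.edge]
  have inj : ∀ a b : Fl Λ, a.edge = b.edge → a.e = b.e → a = b := by
    rintro ⟨w, x, n, e⟩ ⟨w', x', n', e'⟩ h (rfl : e = e')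
    simp only [Fl.edge, Fl.mk.injEq] at h
    obtain ⟨h1, rfl, rfl, -⟩ := h
    cases e
    · simpa using h1
    · simpa using h1
  refine ⟨{a | χ a.w = χ φ.w}, rfl, fun a b e h => ?_, fun a b e h hne => ?_⟩
  · simp only [cT, Sum.inr.injEq] at e
    rwa [Set.mem_ofPred_eq, ← e]
  · simp only [cT, Sum.inl.injEq] at e
    have h1 : a.edge ≠ φ.edge := fun h1 => by
      have h2 := key a
      have h3 := key φ
      have h4 : a.e ≠ φ.e := fun h4 => hne (inj _ _ h1 h4)
      rw [Set.mem_ofPred_eq] at h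
      rw [h1, h, h3] at h2
      revert h2 h4
      cases a.e <;> cases φ.e <;> simp
    refine ⟨?_, fun h2 => h1 (by rw [e, h2])⟩
    have h2 := key a
    have h3 := key b
    rw [if_neg (fun h => h1 h.2)] at h2
    rw [← e, if_neg (fun h => h1 h.2)] at h3
    rw [Set.mem_ofPred_eq, h3, ← h2]; exact h

variable (Λ) in
/-- The subgroup generated by the generators of label different from `m`. -/
def Fne (m : ℕ) : Subgroup (FG Λ) := Subgroup.closure {w | ∃ x k, k ≠ m ∧ w = gen x k}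

omit [MulAction Γ Λ] in
lemma eventually_mem_Fne (v : FG Λ) : ∀ᶠ m in Filter.atTop, v ∈ Fne Λ m := by
  induction v using FreeGroup.induction_on with
  | C1 => exact Filter.Eventually.of_forall fun m => one_mem _
  | of x =>
    filter_upwards [Filter.eventually_gt_atTop x.2] with m hm
    exact Subgroup.subset_closure ⟨x.1, x.2, hm.ne, rfl⟩
  | inv_of x h => exact h.mono fun m => inv_mem
  | mul a b ha hb => filter_upwards [ha, hb] with m h h' using mul_mem h h'

lemma autF_mem_Fne {m : ℕ} (γ : Γ) {v : FG Λ} (h : v ∈ Fne Λ m) : autF Γ Λ γ v ∈ Fne Λ m := by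
  induction h using Subgroup.closure_induction with
  | mem x h =>
    obtain ⟨y, k, hk, rfl⟩ := h
    exact Subgroup.subset_closure ⟨γ • y, k, hk, by simp⟩
  | one => simp
  | mul a b _ _ ha hb => rw [map_mul]; exact mul_mem ha hb
  | inv a _ ha => rw [map_inv]; exact inv_mem ha

omit [MulAction Γ Λ] in
lemma cn_cN {m : ℕ} {v : FG Λ} (h : v ∈ Fne Λ m) : ∀ a b : Fl Λ, a.w * v = b.w → Cn (cN m) a b := by
  induction h using Subgroup.closure_induction with
  | mem x h =>
    obtain ⟨y, k, hk, rfl⟩ := h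
    intro a b e
    refine Cn.trans (b := ⟨a.w, y, k, true⟩) (Cn.single true rfl)
      (Cn.trans (b := ⟨b.w, y, k, false⟩) (Cn.single false ?_) (Cn.single true rfl))
    simp [cN, hk, Fl.edge, ← e]
  | one => exact fun a b e => Cn.single true (by simpa [cN] using e)
  | mul v v' _ _ h h' =>
    exact fun a b e => (h a ⟨a.w * v, a.x, a.n, a.e⟩ rfl).trans (h' _ b (by rw [← e, mul_assoc]))
  | inv v _ h => exact fun a b e => (h b a (by rw [← e]; simp)).symm

omit [MulAction Γ Λ] in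
lemma cn_cT (a b : Fl Λ) : Cn cT a b := by
  obtain ⟨m, hm⟩ := (eventually_mem_Fne (a.w⁻¹ * b.w)).exists
  exact Cn.map id (fun k x y e => Cn.single k (cT_of_cN m k x y e)) (cn_cN hm a b (by simp))

omit [MulAction Γ Λ] in
lemma eq_of_gen_mul {m : ℕ} {z v : FG Λ} (hz : z ∈ Fne Λ m) (hv : v ∈ Fne Λ m) {x y : Λ}
    (h : gen x m * z = v * gen y m) : v = 1 ∧ x = y := by
  obtain ⟨χ, hχ⟩ := exists_pot fun w (p : Λ × ℕ) => if w = v ∧ p = (y, m) then 1 else 0
  have key : ∀ f ∈ Fne Λ m, ∀ w, χ (w * f) = χ w := fun f hf => by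
    induction hf using Subgroup.closure_induction with
    | mem x h =>
      obtain ⟨y, k, hk, rfl⟩ := h
      intro w
      simp [hχ, hk]
    | one => simp
    | mul a b _ _ ha hb => intro w; rw [← mul_assoc, hb, ha]
    | inv a _ ha => intro w; rw [← ha (w * a⁻¹)]; simp
  have h1 := congrArg χ h
  have h2 := hχ 1 (x, m)
  have h3 := key v hv 1
  rw [one_mul] at h2 h3
  rw [key z hz, hχ, h2, h3] at h1
  by_contra hc
  rw [if_neg (fun h => hc ⟨h.1.symm, congrArg Prod.fst h.2⟩)] at h1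
  simp at h1

end Pool.Agent.MP_54e5d7_al

end
end MrgPart1

-- ======== part 2: formerly Pool.Agent.MP_54e5d7_al.Sym
section MrgPart2

/-!
Symmetrization: localization of maximizers over arbitrary sets.
-/

set_option autoImplicit false

open scoped InnerProductSpace
open Classical ContinuousLinearMap MulAction

noncomputable section
namespace Pool.Agent.MP_54e5d7_al

section Ind
variable {K H : Type} [Group K] [Group H] {Ω Ω' Θ : Type}
  [MulAction H Ω] [MulAction K Ω'] [MulAction H Θ] {ι : K →* H}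

omit [MulAction K Ω'] in
lemma invt_Ind (j : Ω' ↪ Ω) (U : CS Ω') : Invt H (Ind H j U) := fun g => by
  change Ind H j U ≤ (Ind H j U).comap (u g)
  refine Ind_le fun h ξ hξ => ?_
  rw [ClosedSubmodule.mem_comap, u_u]; exact mem_Ind _ hξ

omit [MulAction K Ω'] in
lemma loc_Ind {j : Ω' ↪ Ω} {U : CS Ω'} {l : Ω → Θ} (hl : Eqv H l) (hU : Loc (fun a => l (j a)) U) :
    Loc l (Ind H j U) := fun y => by
  change Ind H j U ≤ (Ind H j U).comap (P (l ⁻¹' {y}))
  refine Ind_le fun h ξ hξ => ?_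
  rw [ClosedSubmodule.mem_comap, ← smul_inv_smul h y, ← u_P hl, P_push]
  exact mem_Ind _ (hU _ _ hξ)

lemma IsInd.comap_Ind {j : Ω' ↪ Ω} (hj : IsInd ι j) {U : CS Ω'} (hU : Invt K U) :
    (Ind H j U).comap (push j) = U := by
  apply le_antisymm
  · have : Ind H j U ≤ U.comap (pull j) := by
      refine Ind_le fun g ξ hξ => ?_
      rw [ClosedSubmodule.mem_comap]
      by_cases hg : g ∈ ι.range
      · obtain ⟨k, rfl⟩ := hg
        rw [hj.eqv.pull_u, pull_push]; exact hU _ _ hξ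
      · have : pull j (u g (push j ξ)) = 0 := L2.ext fun a => by
          rw [ev_pull, ev_u, ev_push_of_not_mem, map_zero]
          rintro ⟨b, e⟩
          exact hg (hj.block g b a (by rw [e, smul_inv_smul]))
        rw [this]; exact zero_mem _
    intro ξ hξ
    have h1 := this (ClosedSubmodule.mem_comap.1 hξ)
    rwa [ClosedSubmodule.mem_comap, pull_push] at h1
  · intro ξ hξ
    have := mem_Ind (j := j) (1 : H) hξ
    rwa [u_one] at this

omit [MulAction H Θ] in
lemma pull_mem_of_loc {l : Ω → Θ} {V : CS Ω} (iV : Invt H V) (lV : Loc l V)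
    {e : Ω ↪ Ω} (he : ∀ y, ∃ g : H, ∀ ω, l ω = y → e ω = g • ω) {ξ : L2 Ω} (hξ : ξ ∈ V) :
    pull e ξ ∈ V := by
  refine mem_of_forall_P l fun y => ?_
  obtain ⟨g, hg⟩ := he y
  have : P (l ⁻¹' {y}) (pull e ξ) = P (l ⁻¹' {y}) (u g⁻¹ ξ) := L2.ext fun ω => by
    simp only [ev_P, ev_pull, ev_u, inv_inv]
    split_ifs with h
    · rw [hg ω h]
    · rfl
  rw [this]; exact lV _ _ (iV _ _ hξ)

omit [MulAction H Ω] in
lemma finite_level (ξ : L2 Ω) {c : ℂ} (hc : c ≠ 0) : {ω | ev ω ξ = c}.Finite := by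
  have h1 := (hasSum_norm_sq ξ).summable.tendsto_cofinite_zero
  have h2 := h1.eventually (gt_mem_nhds (show (0 : ℝ) < ‖c‖ ^ 2 by positivity))
  refine (Filter.eventually_cofinite.1 h2).subset fun ω h => ?_
  rw [Set.mem_ofPred_eq] at h ⊢
  rw [h]; exact lt_irrefl _

lemma Forest.ac0 {Φ : Type} [MulAction H Φ] {n : ℕ} (hn : 0 < n) {c : Bool → Φ → Θ}
    (hF : Forest H n c fun _ => ()) : AC0 H n := by
  intro Ω _ _ V hV
  obtain ⟨φ₀, -⟩ := hF.surj ()
  obtain ⟨l, hl, -⟩ := exists_eqv (H := H) (fun (_ : Ω) (_ : Φ) => True)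
    (fun _ _ _ _ => trivial) fun _ => ⟨φ₀, trivial⟩
  exact (hF.main hn hl hV).1

end Ind

variable {Γ : Type} [Group Γ] {Λ Ω : Type} [MulAction Γ Λ] [MulAction Γ Ω]

variable (Λ Ω) in
/-- The base copy of `Ω`. -/
def baseE : Ω ↪ FO Λ Ω := ⟨fun p => ⟨1, p⟩, fun _ _ e => congrArg FO.p e⟩

lemma isInd_baseE : IsInd (SemidirectProduct.inr : Γ →* DG Γ Λ) (baseE Λ Ω) where
  eqv := fun k a => FO.ext (by simp [baseE, smul_FG]) rfl
  surj := fun a => ⟨SemidirectProduct.inl a.w, a.p, FO.ext (by simp [baseE, smul_FG])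
    (by simp [baseE])⟩
  block := fun d a b e => ⟨d.right, by
    have := congrArg FO.w e
    ext
    · simpa [baseE, smul_FG, eq_comm] using this
    · rfl⟩

instance [FC Γ Ω] : FC (DG Γ Λ) (FO Λ Ω) where
  free := fun d a e => by
    have h1 : d.right = 1 := FC.free _ a.p (congrArg FO.p e)
    have h2 := congrArg FO.w e
    ext
    · simpa [smul_FG, h1] using h2
    · exact h1
  fin := fin_of_cover (fun q : Q Γ Ω => baseE Λ Ω q.out) fun a => by
    obtain ⟨g, hg⟩ := exists_smul_out Γ a.p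
    exact ⟨⟨a.w, g⟩, cls Γ a.p, FO.ext (by simp [baseE, smul_FG]) hg⟩

/-- Right multiplication by a generator depending on the location. -/
def rmul (l : Ω → Λ) (m : ℕ) : FO Λ Ω ≃ FO Λ Ω where
  toFun a := ⟨a.w * gen (l a.p) m, a.p⟩
  invFun a := ⟨a.w * (gen (l a.p) m)⁻¹, a.p⟩
  left_inv a := by simp
  right_inv a := by simp

lemma eqv_rmul {l : Ω → Λ} (hl : Eqv Γ l) (m : ℕ) : Eqv (DG Γ Λ) (rmul l m).toEmbedding :=
  fun d a => FO.ext (by simp [rmul, smul_mul_FG, hl d.right]) rfl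

lemma eqv_rmul_symm {l : Ω → Λ} (hl : Eqv Γ l) (m : ℕ) :
    Eqv (DG Γ Λ) (rmul l m).symm.toEmbedding :=
  fun d a => FO.ext (by simp [rmul, smul_mul_FG, hl d.right]) rfl

theorem ss_of_forests {n : ℕ} (hn : 0 < n) {Φ Θ : Type} [MulAction (DG Γ Λ) Φ]
    [MulAction (DG Γ Λ) Θ] {c : Bool → Φ → Θ} (F1 : Forest (DG Γ Λ) n c fun _ => ())
    (F2 : Forest (DG Γ Λ) n (fun b (p : Θ × Fl Λ) => (p.1, cT b p.2)) Prod.fst) [Nonempty Λ] :
    SS Γ fun _ : Λ => () := by
  intro Ω _ _ l hl L iL lL r U hU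
  have hj := isInd_baseE (Γ := Γ) (Λ := Λ) (Ω := Ω)
  set j := baseE Λ Ω with ej
  let l₀ : FO Λ Ω → FO Λ Λ := fun a => ⟨a.w, l a.p⟩
  have hl₀ : Eqv (DG Γ Λ) l₀ := fun d a => FO.ext rfl (hl d.right a.p)
  have hw : Eqv (DG Γ Λ) (FO.w : FO Λ Ω → FG Λ) := fun _ _ => rfl
  have rj : Set.range j = FO.w ⁻¹' {1} := by
    ext a
    exact ⟨by rintro ⟨p, rfl⟩; rfl, fun h => ⟨a.p, FO.ext (Eq.symm h) rfl⟩⟩
  set L' := Ind (DG Γ Λ) j L with hL'
  have iL' : Invt (DG Γ Λ) L' := invt_Ind j L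
  have lL' : Loc l₀ L' := loc_Ind hl₀ (lL.coarse fun a b e => FO.ext rfl e)
  have lw : ∀ V, Loc l₀ V → Loc FO.w V := fun V h => h.coarse fun a b e => by
    have := congrArg FO.w e; exact this
  have hg : ∀ V, Invt (DG Γ Λ) V → Loc FO.w V →
      gf (DG Γ Λ) L' r V = gf Γ L r (V.comap (push j)) := fun V iV lV => by
    rw [gf, gf, ← hj.dim_comap iV (fun ξ h => rj ▸ lV _ _ h), ← hj.dim_comap (iV.inf iL')
      (fun ξ h => rj ▸ (lV.inf (lw _ lL')) _ _ h), comap_inf, hj.comap_Ind iL]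
  have aU : Alg (DG Γ Λ) (fun _ => ()) (Ind (DG Γ Λ) j U) :=
    alg_ind (σ := fun _ : Unit => ()) SemidirectProduct.inr_injective (fun _ _ => rfl) hj.eqv
      Eqv.unit (fun _ => rfl) hU
  obtain ⟨W, hW⟩ := exists_isMin hn Eqv.unit (F1.ac0 hn (FO Λ Ω)) iL' r
  have iW := hW.alg.invt
  have hsym : ∀ e : FO Λ Ω ≃ FO Λ Ω, Eqv (DG Γ Λ) e.toEmbedding →
      (∀ y, ∃ g : DG Γ Λ, ∀ a, l₀ a = y → e a = g • a) → W = W.map (pull e.toEmbedding) := by
    intro e he he'
    have o : AOp (DG Γ Λ) (LR (fun _ => ()) fun _ => ()) (pull e.toEmbedding) :=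
      AOp.pull he fun _ => rfl
    have hi : ∀ ξ, pull e.toEmbedding ξ = 0 → ξ = 0 := fun ξ h => L2.ext fun a => by
      simpa using congr(ev (e.symm a) $h)
    refine hW.sym (hW.alg.map Eqv.unit o) (dim_map_of_inj o.eqv iW fun ξ _ => hi ξ) ?_
    rw [← dim_map_of_inj o.eqv (iW.inf iL') fun ξ _ => hi ξ]
    exact dim_mono (map_le.2 fun η hη => ⟨mem_map hη.1, pull_mem_of_loc iL' lL' he' hη.2⟩)
  have s1 : ∀ m, W = W.map (pull (rmul l m).toEmbedding) := fun m =>
    hsym _ (eqv_rmul hl m) fun y => ⟨SemidirectProduct.inl (y.w * gen y.p m * y.w⁻¹), by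
      rintro a rfl
      exact FO.ext (by simp [rmul, smul_FG, l₀]) (by simp [rmul])⟩
  have s2 : ∀ m, W = W.map (pull (rmul l m).symm.toEmbedding) := fun m =>
    hsym _ (eqv_rmul_symm hl m) fun y => ⟨SemidirectProduct.inl (y.w * (gen y.p m)⁻¹ * y.w⁻¹), by
      rintro a rfl
      exact FO.ext (by simp [rmul, smul_FG, l₀]) (by simp [rmul])⟩
  have s3 : ∀ m a b, ev (rmul l m b) (pr W (dl (rmul l m a))) = ev b (pr W (dl a)) := by
    intro m a b
    have h1 := pr_comm (U := pull (rmul l m).toEmbedding) (V := W) (W := W)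
      (fun ξ h => by rw [s1 m]; exact mem_map h)
      (fun ξ h => by rw [adjoint_pull, push_equiv, s2 m]; exact mem_map h) (dl (rmul l m a))
    rw [show dl (rmul l m a) = dl ((rmul l m).toEmbedding a) from rfl, pull_dl] at h1
    rw [h1, ev_pull]; rfl
  have lW : Loc l₀ W := Loc.of_ent_pr fun a b h => by
    by_contra hne
    let z : ℕ → FO Λ Ω := fun m =>
      ⟨a.w * ((gen (l a.p) m)⁻¹ * (a.w⁻¹ * b.w) * gen (l b.p) m), b.p⟩
    have h1 : ∀ m, ev (z m) (pr W (dl a)) = ev b (pr W (dl a)) := fun m => by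
      rw [← s3 m a b, ← iW.pr.entry
        (SemidirectProduct.inl (a.w * gen (l a.p) m * a.w⁻¹) : DG Γ Λ) a (z m)]
      congr 3
      · exact FO.ext (by simp [rmul, smul_FG, z, mul_assoc]) (by simp [rmul, z])
      · exact FO.ext (by simp [rmul, smul_FG]) (by simp [rmul])
    have h2 : ∀ᶠ m in Filter.atTop, ∀ y ∈ {y | ev y (pr W (dl a)) = ev b (pr W (dl a))},
        z m ≠ y := by
      rw [Filter.eventually_all_finite (finite_level _ h)]
      intro y _
      filter_upwards [eventually_mem_Fne (a.w⁻¹ * b.w), eventually_mem_Fne (a.w⁻¹ * y.w)] with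
        m m1 m2 e
      have := eq_of_gen_mul m2 m1 (x := l a.p) (y := l b.p) (by
        rw [← e]; simp [z, mul_assoc])
      exact hne (FO.ext (inv_mul_eq_one.1 this.1) this.2)
    obtain ⟨m, hm⟩ := h2.exists
    exact hm _ (h1 m) rfl
  obtain ⟨m, hm⟩ := ((AlgR.lift (f := fun _ : FG Λ => ()) Eqv.unit (fun _ => ⟨1, rfl⟩) hw
    hW.alg).exhaust (R := fun m a b => a⁻¹ * b ∈ Fne Λ m) (fun m d a b h => by
      have := autF_mem_Fne d.right h
      simpa [smul_FG, mul_assoc] using this) fun a b _ => eventually_mem_Fne _).exists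
  have sw : Function.Surjective (Fl.w : Fl Λ → FG Λ) := fun w =>
    ⟨⟨w, Classical.arbitrary Λ, 0, true⟩, rfl⟩
  have : Nonempty (Fl Λ) := ⟨⟨1, Classical.arbitrary Λ, 0, true⟩⟩
  let lp : FO Λ Ω → Fl Λ := fun a => ⟨a.w, l a.p, m, true⟩
  let lm : FO Λ Ω → Fl Λ := fun a => ⟨a.w * gen (l a.p) m, l a.p, m, false⟩
  have ep : Eqv (DG Γ Λ) lp := fun d a => Fl.ext rfl (hl d.right a.p) rfl rfl
  have em : Eqv (DG Γ Λ) lm := fun d a =>
    Fl.ext (by simp [lm, smul_mul_FG, hl d.right]) (hl d.right a.p) rfl rfl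
  have hcn : ∀ a b : Fl Λ, a.w⁻¹ * b.w ∈ Fne Λ m → Cn (cN m) a b := fun a b h =>
    cn_cN h a b (by simp)
  have ap : AlgR (DG Γ Λ) (Cn (cN m)) lp W :=
    (AlgR.lift (f := Fl.w) (fun _ _ => rfl) sw ep hm).mono hcn
  have am : AlgR (DG Γ Λ) (Cn (cN m)) lm W := by
    have := hm.pull (eqv_rmul hl m)
    rw [← s1 m] at this
    exact (AlgR.lift (f := Fl.w) (fun _ _ => rfl) sw em this).mono hcn
  have a1 := local_alg hn F1 F2 hs_cT eqv_cT cn_cT (eqv_cN m) (N := {a | a.n = m ∧ a.e = true})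
    (N' := {a | a.n = m ∧ a.e = false}) (fun a h h' => by simpa using h.2.symm.trans h'.2)
    (cT_of_cN m) (fun a b e h => cN_fresh e (h.elim And.left And.left)) (fun _ => ⟨rfl, rfl⟩)
    (fun _ => ⟨rfl, rfl⟩) (fun a => by simp [cT, Fl.edge, lp, lm]) ap am
  refine ⟨W.comap (push j), ?_, ?_⟩
  · refine alg_res (σ := fun x : Λ => (Sum.inl ⟨1, x, m, true⟩ : Fl Λ ⊕ FG Λ))
      SemidirectProduct.inr_injective (fun k x => ?_) (fun x y e => ?_) hj.eqv (fun _ => rfl)
      (fun a h => ?_) (Set.finite_singleton 1) (fun d x y e => ⟨d.right, 1, rfl, ?_⟩) a1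
    · exact congrArg Sum.inl (Fl.ext (by simp [smul_FG]) rfl rfl rfl)
    · exact congrArg Fl.x (Sum.inl.inj e)
    · obtain ⟨x, e⟩ := h
      rw [rj]
      exact (congrArg Fl.w (Sum.inl.inj e)).symm
    · have := congrArg Fl.w (Sum.inl.inj e)
      ext
      · simpa [smul_FG] using this
      · simp
  · have := hW.max _ aU
    rwa [hg _ aU.invt (loc_Ind hw (Loc.const U 1)), hg _ iW (lw _ lW), hj.comap_Ind hU.invt] at this

end Pool.Agent.MP_54e5d7_al

end
end MrgPart2

-- ======== part 3: formerly Pool.Agent.MP_54e5d7_al.Step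
section MrgPart3

/-!
The inductive step: groups acting on trees.
-/

set_option autoImplicit false

open scoped InnerProductSpace
open Classical ContinuousLinearMap MulAction

noncomputable section
namespace Pool.Agent.MP_54e5d7_al

variable {D G : Type} [Group D] [Group G] {n : ℕ}

/-- Integrality for all subgroups with finite image. -/
def FinHyp (n : ℕ) (π : D →* G) : Prop :=
  ∀ (K : Type) [Group K] (ι : K →* D), Function.Injective ι →
    (Set.range fun k => π (ι k)).Finite → AC0 K n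

variable (G) in
/-- The inductive hypothesis. -/
def RR (n : ℕ) : Prop :=
  ∀ (D : Type) [Group D] (π : D →* G), FinHyp n π → AC0 D n ∧
    ∀ (Λ : Type) [MulAction D Λ], (∀ d, π d = 1 → ∀ x : Λ, d • x = x) → SS D fun _ : Λ => ()

lemma FinHyp.comp {π : D →* G} (h : FinHyp n π) {K : Type} [Group K] {ι : K →* D}
    (hι : Function.Injective ι) : FinHyp n (π.comp ι) :=
  fun K' _ ι' hι' hf => h K' (ι.comp ι') (hι.comp hι') hf

lemma FinHyp.of_comp {G' : Type} [Group G'] {π : D →* G} {κ : G →* G'}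
    (h : FinHyp n (κ.comp π)) : FinHyp n π := fun K _ ι hι hf =>
  h K ι hι ((hf.image κ).subset (by rintro _ ⟨k, rfl⟩; exact ⟨_, ⟨k, rfl⟩, rfl⟩))

lemma FinHyp.comp_inj {G' : Type} [Group G'] {π : D →* G} {κ : G →* G'}
    (hκ : Function.Injective κ) (h : FinHyp n π) : FinHyp n (κ.comp π) := fun K _ ι hι hf =>
  h K ι hι (Set.Finite.of_finite_image (f := κ)
    (hf.subset (by rintro _ ⟨_, ⟨k, rfl⟩, rfl⟩; exact ⟨k, rfl⟩)) hκ.injOn)

lemma fin_case (hn : 0 < n) {π : D →* G} (h : FinHyp n π) (hf : (Set.range π).Finite) :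
    AC0 D n ∧ ∀ (Λ : Type) [MulAction D Λ], (∀ d, π d = 1 → ∀ x : Λ, d • x = x) →
      SS D fun _ : Λ => () := by
  refine ⟨h D (MonoidHom.id D) Function.injective_id hf, fun Λ _ hΛ => ?_⟩
  have : Finite π.range := hf
  refine ss_of_normal hn π.ker hΛ (h _ π.ker.subtype Subtype.val_injective
    ((Set.finite_singleton 1).subset ?_))
  rintro _ ⟨k, rfl⟩
  exact k.2

lemma rr_finite (hn : 0 < n) [Finite G] : RR G n :=
  fun _ _ _ h => fin_case hn h (Set.toFinite _)

lemma RR.mono {G' : Type} [Group G'] (h : RR G n) {κ : G' →* G} (hκ : Function.Injective κ) :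
    RR G' n := fun D _ π hπ => by
  obtain ⟨h1, h2⟩ := h D (κ.comp π) (hπ.comp_inj hκ)
  exact ⟨h1, fun Λ _ hΛ => h2 Λ fun d hd => hΛ d (hκ (by rw [map_one]; exact hd))⟩

lemma good {π : D →* G} (hπ : FinHyp n π) {Φ Θ : Type} [MulAction D Φ] [MulAction D Θ]
    {c : Φ → Θ} (hc : Eqv D c)
    (hR : ∀ φ, ∃ S : Subgroup G, RR S n ∧ ∀ d : D, d • c φ = c φ → π d ∈ S)
    (hk : ∀ d φ, π d = 1 → d • c φ = c φ → d • φ = φ) : AC D n c ∧ SS D c := by
  have key : ∀ φ, AC0 (stabilizer D (c φ)) n ∧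
      SS (stabilizer D (c φ)) fun _ : fibS hc (c φ) => () := fun φ => by
    obtain ⟨S, hS, h⟩ := hR φ
    obtain ⟨h1, h2⟩ := hS (stabilizer D (c φ))
      ((π.comp (stabilizer D (c φ)).subtype).codRestrict S fun k => h k k.2)
      (FinHyp.of_comp (κ := S.subtype) (hπ.comp (ι := (stabilizer D (c φ)).subtype)
        Subtype.val_injective))
    refine ⟨h1, h2 _ fun k hk' x => Subtype.ext (hk k x.1 (congrArg Subtype.val hk') ?_)⟩
    have : c x.1 = c φ := x.2
    rw [this]; exact k.2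
  exact ⟨ac_of_stab hc fun φ => (key φ).1, ss_of_stab hc fun φ => (key φ).2⟩

section
variable {Γ : Type} [Group Γ] {Λ : Type} [MulAction Γ Λ]

lemma fix_of_fix_cT {d : DG Γ Λ} (hd : ∀ x : Λ, d.right • x = x) :
    ∀ (b : Bool) (a : Fl Λ), d • cT b a = cT b a → d • a = a
  | true => fun a h => Fl.ext (Sum.inr.inj h) (hd _) rfl rfl
  | false => fun a h => by
    have h1 := congrArg Fl.w (Sum.inl.inj h)
    refine Fl.ext ?_ (hd _) rfl rfl
    simp only [Fl.edge, Fl.smul_w] at h1 ⊢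
    split_ifs at h1
    · exact h1
    · simpa [smul_mul_FG, hd] using h1

lemma finHyp_DG (hn : 0 < n) [Nonempty Λ] {π : Γ →* G} (hπ : FinHyp n π)
    (hΛ : ∀ d, π d = 1 → ∀ x : Λ, d • x = x) :
    FinHyp n (π.comp (SemidirectProduct.rightHom : DG Γ Λ →* Γ)) := by
  intro K _ ι hι hf
  let _ : MulAction K (Fl Λ) := MulAction.compHom _ ι
  let _ : MulAction K (Fl Λ ⊕ FG Λ) := MulAction.compHom _ ι
  have hc : ∀ b, Eqv K (cT (Λ := Λ) b) := fun b k a => eqv_cT b (ι k) a
  have key : ∀ b (φ : Fl Λ), AC0 (stabilizer K (cT b φ)) n ∧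
      SS (stabilizer K (cT b φ)) fun _ : fibS (hc b) (cT b φ) => () := fun b φ => by
    let κ : stabilizer K (cT b φ) →* Γ :=
      SemidirectProduct.rightHom.comp (ι.comp (stabilizer K (cT b φ)).subtype)
    have hκ : Function.Injective κ := (injective_iff_map_eq_one κ).2 fun k hk => by
      have h1 : (ι k).right = 1 := hk
      have h2 := congrArg Fl.w (fix_of_fix_cT (d := ι k) (fun x => by rw [h1, one_smul]) b φ k.2)
      have h3 : (ι k).left = 1 := by simpa [smul_FG, h1] using h2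
      exact Subtype.ext (hι (by rw [OneMemClass.coe_one, map_one]; exact SemidirectProduct.ext h3 h1))
    obtain ⟨h1, h2⟩ := fin_case hn (hπ.comp hκ) (hf.subset (by rintro _ ⟨k, rfl⟩; exact ⟨k, rfl⟩))
    refine ⟨h1, h2 _ fun k hk x => Subtype.ext (fix_of_fix_cT (d := ι k) (hΛ _ hk) b x.1 ?_)⟩
    have : cT b x.1 = cT b φ := x.2
    rw [this]; exact k.2
  exact Forest.ac0 hn ⟨hs_cT, hc, fun b => ac_of_stab (hc b) fun φ => (key b φ).1,
    fun b => ss_of_stab (hc b) fun φ => (key b φ).2, Eqv.unit,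
    fun _ => ⟨⟨1, Classical.arbitrary Λ, 0, true⟩, rfl⟩, fun a b _ => cn_cT a b⟩

end

lemma forest_one {Φ Θ : Type} [MulAction G Φ] [MulAction G Θ] {c : Bool → Φ → Θ}
    (hc : ∀ b, Eqv G (c b)) (hs : HS c) (hcn : ∀ a b, Cn c a b) [Nonempty Φ]
    (hR : ∀ x : Θ, RR (stabilizer G x) n) {π : D →* G} (hπ : FinHyp n π)
    [MulAction D Φ] [MulAction D Θ] (hΦ : ∀ (d : D) (φ : Φ), d • φ = π d • φ)
    (hΘ : ∀ (d : D) (x : Θ), d • x = π d • x) : Forest D n c fun _ => () := by
  have hc' : ∀ b, Eqv D (c b) := fun b d φ => by rw [hΦ, hΘ, hc b]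
  have key := fun b => good hπ (hc' b)
    (fun φ => ⟨_, hR (c b φ), fun d h => by rwa [mem_stabilizer_iff, ← hΘ]⟩)
    (fun d φ h _ => by rw [hΦ, h, one_smul])
  exact ⟨hs, hc', fun b => (key b).1, fun b => (key b).2, Eqv.unit,
    fun _ => ⟨Classical.arbitrary Φ, rfl⟩, fun a b _ => hcn a b⟩

theorem rr_step (hn : 0 < n) {Φ Θ : Type} [MulAction G Φ] [MulAction G Θ] {c : Bool → Φ → Θ}
    (hc : ∀ b, Eqv G (c b)) (hs : HS c) (hcn : ∀ a b, Cn c a b) [Nonempty Φ]
    (hR : ∀ x : Θ, RR (stabilizer G x) n) : RR G n := by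
  intro Γ _ π hπ
  constructor
  · let _ : MulAction Γ Φ := MulAction.compHom _ π
    let _ : MulAction Γ Θ := MulAction.compHom _ π
    exact (forest_one hc hs hcn hR hπ (fun _ _ => rfl) fun _ _ => rfl).ac0 hn
  intro Λ _ hΛ
  rcases isEmpty_or_nonempty Λ with h0 | h0
  · intro Ω _ _ l hl L _ _ r U _
    refine ⟨⊤, Alg.top hl, le_of_eq ?_⟩
    congr 1
    refine CS.ext' fun ξ => ⟨fun _ => trivial, fun _ => ?_⟩
    rw [show ξ = 0 from L2.ext fun ω => h0.elim (l ω)]
    exact zero_mem _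
  have hπ' := finHyp_DG hn hπ hΛ
  let _ : MulAction (DG Γ Λ) Φ := MulAction.compHom _ (π.comp SemidirectProduct.rightHom)
  let _ : MulAction (DG Γ Λ) Θ := MulAction.compHom _ (π.comp SemidirectProduct.rightHom)
  refine ss_of_forests hn (forest_one hc hs hcn hR hπ' (fun _ _ => rfl) fun _ _ => rfl) ?_
  have hc' : ∀ b, Eqv (DG Γ Λ) fun p : Θ × Fl Λ => (p.1, cT b p.2) := fun b =>
    Eqv.fst.prod ((eqv_cT b).comp Eqv.snd)
  have key := fun b => good hπ' (hc' b)
    (fun p => ⟨_, hR p.1, fun d h => (Prod.mk.inj h).1⟩)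
    (fun d p h h' => Prod.ext (Prod.mk.inj h').1 (fix_of_fix_cT (hΛ _ h) b _ (Prod.mk.inj h').2))
  refine ⟨hs_cT.prod_left Θ, hc', fun b => (key b).1, fun b => (key b).2, Eqv.fst,
    fun x => ⟨(x, ⟨1, Classical.arbitrary Λ, 0, true⟩), rfl⟩, ?_⟩
  rintro ⟨a, a'⟩ ⟨b, b'⟩ (rfl : a = b)
  exact Cn.map (fun x => (a, x)) (fun k x y e => Cn.single k (by simp [e])) (cn_cT a' b')

end Pool.Agent.MP_54e5d7_al

end
end MrgPart3

-- ======== part 4: formerly Pool.Agent.MP_54e5d7_al.Graph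
section MrgPart4

/-!
Trees as simple graphs; matrices over the group ring.
-/

set_option autoImplicit false

open scoped InnerProductSpace Pointwise
open Classical ContinuousLinearMap MulAction

noncomputable section
namespace Pool.Agent.MP_54e5d7_al

variable {G : Type} [Group G] {n : ℕ}

theorem exists_flags {X : Type} [MulAction G X] (T : SimpleGraph X) (hT : T.IsTree)
    (hadj : ∀ (g : G) v w, T.Adj v w → T.Adj (g • v) (g • w))
    (hinv : ∀ (g : G) v w, T.Adj v w → g • v = w → g • w ≠ v) :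
    ∃ (Φ Θ : Type) (_ : MulAction G Φ) (_ : MulAction G Θ) (c : Bool → Φ → Θ),
      (∀ b, Eqv G (c b)) ∧ HS c ∧ (∀ a b, Cn c a b) ∧ Nonempty Φ ∧
      (∀ x : Θ, ∃ v : X, ∀ g : G, g • x = x → g • v = v) ∧
      ((∀ v, (T.neighborSet v).Finite) → ∀ b φ, {ψ | c b ψ = c b φ}.Finite) := by
  let Φ : SubMulAction G (X × X) :=
    { carrier := {p | T.Adj p.1 p.2 ∨ p.1 = p.2}
      smul_mem' := fun g p h => h.imp (hadj g _ _) (congrArg (g • ·)) }
  let Θ : SubMulAction G (Set X) :=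
    { carrier := {S | ∃ v : X, ∀ g : G, g • S = S → g • v = v}
      smul_mem' := by
        rintro g S ⟨v, hv⟩
        refine ⟨g • v, fun h e => ?_⟩
        have := hv (g⁻¹ * h * g) (by rw [mul_smul, mul_smul, e, inv_smul_smul])
        rwa [mul_smul, mul_smul, inv_smul_eq_iff] at this }
  let c : Bool → Φ → Θ := fun b p => match b with
    | true => ⟨{p.1.1}, p.1.1, fun g e => by simpa using e⟩
    | false => ⟨{p.1.1, p.1.2}, p.1.1, fun g e => by
        rw [Set.smul_set_insert, Set.smul_set_singleton, Set.pair_eq_pair_iff] at e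
        rcases e with e | e
        · exact e.1
        · rcases p.2 with h | h
          · exact absurd e.2 (hinv g _ _ h e.1)
          · exact e.1.trans h.symm⟩
  have ct : ∀ p q : Φ, c true p = c true q ↔ p.1.1 = q.1.1 := fun p q => by
    simp [c, Subtype.ext_iff]
  have cf : ∀ p q : Φ, c false p = c false q ↔
      p.1.1 = q.1.1 ∧ p.1.2 = q.1.2 ∨ p.1.1 = q.1.2 ∧ p.1.2 = q.1.1 := fun p q => by
    simp only [c, Subtype.ext_iff, Set.pair_eq_pair_iff]
  obtain ⟨v₀⟩ := hT.connected.nonempty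
  refine ⟨Φ, Θ, inferInstance, inferInstance, c, ?_, ?_, ?_, ⟨⟨(v₀, v₀), Or.inr rfl⟩⟩, ?_, ?_⟩
  · rintro (_ | _) g p
    · apply Subtype.ext
      change ({g • p.1.1, g • p.1.2} : Set X) = g • ({p.1.1, p.1.2} : Set X)
      rw [Set.smul_set_insert, Set.smul_set_singleton]
    · apply Subtype.ext
      change ({g • p.1.1} : Set X) = g • ({p.1.1} : Set X)
      rw [Set.smul_set_singleton]
  · rintro ⟨⟨v, w⟩, h | h⟩
    · have hb := (SimpleGraph.isBridge_iff.1
        (SimpleGraph.isAcyclic_iff_forall_adj_isBridge.1 hT.isAcyclic h))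
      refine ⟨{p | (T.deleteEdges {s(v, w)}).Reachable v p.1.1},
        SimpleGraph.Reachable.refl _, fun p q e hp => ?_, fun p q e hp hne => ?_⟩
      · rw [Set.mem_ofPred_eq, ← (ct _ _).1 e]; exact hp
      · rcases (cf _ _).1 e with e | e
        · rw [← show p = q from Subtype.ext (Prod.ext e.1 e.2)]; exact ⟨hp, hne⟩
        · have h1 : s(p.1.1, p.1.2) ≠ s(v, w) := fun h1 => by
            rcases Sym2.eq_iff.1 h1 with h2 | h2
            · exact hne (Subtype.ext (Prod.ext h2.1 h2.2))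
            · rw [Set.mem_ofPred_eq, h2.1] at hp; exact hb hp
          refine ⟨?_, fun h2 => h1 ?_⟩
          · rw [Set.mem_ofPred_eq, ← e.2]
            rcases p.2 with h3 | h3
            · exact SimpleGraph.Reachable.trans hp (SimpleGraph.Adj.reachable
                (SimpleGraph.deleteEdges_adj.2 ⟨h3, h1⟩))
            · rw [← h3]; exact hp
          · rw [e.1, e.2, h2, Sym2.eq_swap]
    · refine ⟨Set.univ, trivial, fun _ _ _ _ => trivial, fun p q e _ hne => ⟨trivial, ?_⟩⟩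
      rintro rfl
      obtain rfl : v = w := h
      apply hne
      rcases (cf _ _).1 e with e | e <;> exact Subtype.ext (Prod.ext e.1 e.2)
  · have key : ∀ v w, T.Reachable v w → Cn c ⟨(v, v), Or.inr rfl⟩ ⟨(w, w), Or.inr rfl⟩ := by
      intro v w h
      rw [SimpleGraph.reachable_iff_reflTransGen] at h
      induction h with
      | refl => exact Cn.refl _
      | @tail a b _ h ih =>
        exact ih.trans (Cn.trans (b := ⟨(a, b), Or.inl h⟩) (Cn.single true ((ct _ _).2 rfl))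
          (Cn.trans (b := ⟨(b, a), Or.inl h.symm⟩) (Cn.single false ((cf _ _).2 (Or.inr ⟨rfl, rfl⟩)))
            (Cn.single true ((ct _ _).2 rfl))))
    intro p q
    have h1 : ∀ p : Φ, Cn c p ⟨(p.1.1, p.1.1), Or.inr rfl⟩ := fun p =>
      Cn.single true ((ct _ _).2 rfl)
    exact (h1 p).trans ((key _ _ (hT.connected p.1.1 q.1.1)).trans (h1 q).symm)
  · rintro ⟨S, v, hv⟩
    exact ⟨v, fun g hg => hv g (congrArg Subtype.val hg)⟩
  · rintro hf (_ | _) p
    · refine Set.Finite.of_finite_image (f := Subtype.val) ?_ Subtype.val_injective.injOn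
      refine (Set.toFinite {(p.1.1, p.1.2), (p.1.2, p.1.1)}).subset ?_
      rintro _ ⟨q, hq, rfl⟩
      rcases (cf _ _).1 hq with e | e
      · exact Or.inl (Prod.ext e.1 e.2)
      · exact Or.inr (Prod.ext e.1 e.2)
    · refine Set.Finite.of_finite_image (f := Subtype.val) ?_ Subtype.val_injective.injOn
      refine ((Set.finite_singleton p.1.1).prod ((hf p.1.1).insert p.1.1)).subset ?_
      rintro _ ⟨q, hq, rfl⟩
      have e := (ct _ _).1 hq
      refine ⟨e, ?_⟩
      rcases q.2 with h | h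
      · exact Or.inr (e ▸ h)
      · exact Or.inl (h.symm.trans e)

theorem rr_tree (hn : 0 < n) {X : Type} [MulAction G X] (T : SimpleGraph X) (hT : T.IsTree)
    (hadj : ∀ (g : G) v w, T.Adj v w → T.Adj (g • v) (g • w))
    (hinv : ∀ (g : G) v w, T.Adj v w → g • v = w → g • w ≠ v)
    (hR : ∀ v : X, RR (stabilizer G v) n) : RR G n := by
  obtain ⟨Φ, Θ, _, _, c, h1, h2, h3, h4, h5, -⟩ := exists_flags T hT hadj hinv
  refine rr_step hn h1 h2 h3 fun x => ?_
  obtain ⟨v, hv⟩ := h5 x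
  exact (hR v).mono (Subgroup.inclusion_injective hv)

theorem AC0.mono {K : Type} [Group K] (h : AC0 G n) {ι : K →* G} (hι : Function.Injective ι) :
    AC0 K n := by
  intro Ω _ _ V hV
  obtain ⟨Ω₁, _, _, j, hj⟩ := exists_isInd (Ω' := Ω) hι
  obtain ⟨l, hl, hl'⟩ := hj.exists_fun (Λ := G ⧸ ι.range) (f := fun _ => ((1 : G) : G ⧸ ι.range))
    fun k a => by
      change ((1 : G) : G ⧸ ι.range) = ((ι k * 1 : G) : G ⧸ ι.range)
      rw [QuotientGroup.eq]; simp
  have a1 := alg_ind (σ := fun _ : Unit => ()) hι (fun _ _ => rfl) hj.eqv Eqv.unit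
    (fun _ => rfl) hV
  obtain ⟨z, hz⟩ := h _ _ a1
  have l1 : Loc l (Ind G j V) := loc_Ind hl (by simpa only [hl'] using Loc.const V _)
  rw [← hj.dim_comap a1.invt (fun ξ hξ => l1.sat ?_ hξ), hj.comap_Ind hV.invt] at hz
  · exact ⟨z, hz⟩
  · rintro _ ω e ⟨a, rfl⟩
    obtain ⟨g, b, rfl⟩ := hj.surj ω
    rw [hl, hl', hl'] at e
    have h8 : ((1 : G) : G ⧸ ι.range) = ((g * 1 : G) : G ⧸ ι.range) := e
    rw [QuotientGroup.eq] at h8
    obtain ⟨k, hk⟩ := h8
    exact ⟨k • b, by rw [hj.eqv, hk]; simp⟩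

theorem ac0_locFin (hn : 0 < n) {X : Type} [MulAction G X] (T : SimpleGraph X) (hT : T.IsTree)
    (hadj : ∀ (g : G) v w, T.Adj v w → T.Adj (g • v) (g • w))
    (hinv : ∀ (g : G) v w, T.Adj v w → g • v = w → g • w ≠ v)
    (hf : ∀ v, (T.neighborSet v).Finite) (hR : ∀ v : X, AC0 (stabilizer G v) n) : AC0 G n := by
  obtain ⟨Φ, Θ, _, _, c, h1, h2, h3, h4, h5, h6⟩ := exists_flags T hT hadj hinv
  have a1 : ∀ x : Θ, AC0 (stabilizer G x) n := fun x => by
    obtain ⟨v, hv⟩ := h5 x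
    exact (hR v).mono (Subgroup.inclusion_injective hv)
  refine Forest.ac0 hn ⟨h2, h1, fun b => ac_of_stab (h1 b) fun φ => a1 _,
    fun b => ss_of_stab (h1 b) fun φ => ?_, Eqv.unit, fun _ => ⟨Classical.arbitrary Φ, rfl⟩,
    fun a b _ => h3 a b⟩
  have : Finite (fibS (h1 b) (c b φ)) := h6 hf b φ
  exact (fin_case hn (π := toPermHom (stabilizer G (c b φ)) (fibS (h1 b) (c b φ)))
    (fun K _ ι hι _ => (a1 _).mono hι) (Set.toFinite _)).2 _ fun d hd x => congr($hd x)


lemma AOp.sum {Ω Ω' ι : Type} [MulAction G Ω] [MulAction G Ω'] {R : Ω → Ω' → Prop} (s : Finset ι)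
    {T : ι → L2 Ω →L[ℂ] L2 Ω'} (h : ∀ i ∈ s, AOp G R (T i)) : AOp G R (∑ i ∈ s, T i) := by
  induction s using Finset.induction_on with
  | empty => simpa using AOp.zero
  | insert a s ha ih =>
    rw [Finset.sum_insert ha]
    exact (h a (by simp)).add (ih fun i hi => h i (by simp [hi]))

lemma one_sub_infDist {Ω : Type} (V : CS Ω) (ω : Ω) :
    1 - Metric.infDist (dl ω) (V : Set (L2 Ω)) ^ 2 = wt V ω := by
  have h1 : Metric.infDist (dl ω) (V : Set (L2 Ω)) = ‖dl ω - pr V (dl ω)‖ := by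
    apply le_antisymm
    · rw [← dist_eq_norm]; exact Metric.infDist_le_dist_of_mem (pr_mem V _)
    · refine (Metric.le_infDist ⟨0, zero_mem V⟩).2 fun y hy => ?_
      rw [dist_eq_norm]
      have h2 := pr_inner V (dl ω) (CS.sub_mem (pr_mem V (dl ω)) hy)
      have h3 := norm_add_sq_eq_norm_sq_add_norm_sq_of_inner_eq_zero _ _ h2
      rw [sub_add_sub_cancel] at h3
      refine (sq_le_sq₀ (norm_nonneg _) (norm_nonneg _)).1 ?_
      nlinarith [mul_self_nonneg ‖pr V (dl ω) - y‖]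
  have h2 := norm_add_sq_eq_norm_sq_add_norm_sq_of_inner_eq_zero _ _
    (pr_inner V (dl ω) (pr_mem V (dl ω)))
  rw [sub_add_cancel, norm_dl] at h2
  rw [h1, wt]; linarith

variable (G) in
/-- The standard free `G`-set with `m` orbits. -/
@[reducible] def stdAct (m : ℕ) : MulAction G (Fin m × G) where
  smul := fun g p => (p.1, g * p.2)
  one_smul := fun _ => Prod.ext rfl (one_mul _)
  mul_smul := fun _ _ _ => Prod.ext rfl (mul_assoc _ _ _)

attribute [local instance] stdAct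

instance (m : ℕ) : FC G (Fin m × G) :=
  ⟨fun _ _ e => mul_eq_right.1 (congrArg Prod.snd e),
    fin_of_cover (fun i : Fin m => (i, (1 : G))) fun p => ⟨p.2, p.1, Prod.ext rfl (mul_one _)⟩⟩

lemma exists_matOp {m k : ℕ} (A : Matrix (Fin m) (Fin k) (G →₀ ℂ)) :
    ∃ T : L2 (Fin m × G) →L[ℂ] L2 (Fin k × G), AOp G (LR (fun _ => ()) fun _ => ()) T ∧
      ∀ x j g, ev (j, g) (T x) = ∑ i' : Fin m, (A i' j).sum (fun h c => ev (i', g * h⁻¹) x * c) := by
  let e : Fin k → G ↪ Fin k × G := fun j => ⟨fun g => (j, g), fun _ _ h => (Prod.mk.inj h).2⟩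
  let f : Fin m → G → G ↪ Fin m × G := fun i h =>
    ⟨fun g => (i, g * h⁻¹), fun _ _ h => mul_right_cancel (Prod.mk.inj h).2⟩
  refine ⟨∑ j, ∑ i, ∑ h ∈ (A i j).support, A i j h • (push (e j) ∘L pull (f i h)),
    AOp.sum _ fun j _ => AOp.sum _ fun i _ => AOp.sum _ fun h _ => AOp.smul _
      (AOp.lcomp (l' := fun _ => ()) (AOp.push (fun _ _ => rfl) fun _ => rfl)
        (AOp.pull (fun _ _ => Prod.ext rfl (mul_assoc _ _ _)) fun _ => rfl)), fun x j g => ?_⟩
  simp only [sum_apply, map_sum, smul_apply, map_smul, comp_apply, smul_eq_mul]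
  rw [Finset.sum_eq_single j]
  · refine Finset.sum_congr rfl fun i _ => Finset.sum_congr rfl fun h _ => ?_
    rw [show (j, g) = e j g from rfl, ev_push, ev_pull, mul_comm]; rfl
  · intro j' _ hj
    refine Finset.sum_eq_zero fun i _ => Finset.sum_eq_zero fun h _ => ?_
    rw [ev_push_of_not_mem, mul_zero]
    rintro ⟨g', h'⟩
    exact hj (Prod.mk.inj h').1
  · simp

lemma sum_infDist {m k : ℕ} {A : Matrix (Fin m) (Fin k) (G →₀ ℂ)}
    {T : L2 (Fin m × G) →L[ℂ] L2 (Fin k × G)} (hT : Eqop G T) (eT : ∀ x j g, ev (j, g) (T x) =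
      ∑ i' : Fin m, (A i' j).sum (fun h c => ev (i', g * h⁻¹) x * c)) :
    ∑ i : Fin m, (1 - (Metric.infDist (dl (i, (1 : G)))
      {x : L2 (Fin m × G) | ∀ (j : Fin k) (g : G),
        ∑ i' : Fin m, (A i' j).sum (fun h c => ev (i', g * h⁻¹) x * c) = 0}) ^ 2) =
      dim G (kr T) := by
  have e1 : {x : L2 (Fin m × G) | ∀ (j : Fin k) (g : G),
      ∑ i' : Fin m, (A i' j).sum (fun h c => ev (i', g * h⁻¹) x * c) = 0} = (kr T : Set _) := by
    ext x
    simp only [← eT, Set.mem_ofPred_eq, SetLike.mem_coe, mem_kr]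
    exact ⟨fun h => L2.ext fun p => by simpa using h p.1 p.2, fun h j g => by simp [h]⟩
  have hb : Function.Bijective fun i : Fin m => cls G (i, (1 : G)) := by
    constructor
    · intro i i' h
      obtain ⟨g, hg⟩ := cls_eq_iff.1 h
      exact (congrArg Prod.fst hg).symm
    · intro q
      refine ⟨q.out.1, Eq.trans (Eq.symm (cls_eq_iff.2 ?_)) (cls_out q)⟩
      exact ⟨q.out.2, Prod.ext rfl (mul_one _)⟩
  rw [e1, dim, ← hb.sum_comp]
  refine Finset.sum_congr rfl fun i _ => ?_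
  obtain ⟨g, hg⟩ := exists_smul_out G (i, (1 : G))
  rw [one_sub_infDist, ← wt_smul (Invt.kr hT) g (cls G (i, (1 : G))).out, hg]

variable (G) in
/-- Integrality for kernels of matrices. -/
def At0 (n : ℕ) : Prop := ∀ (m k : ℕ) (A : Matrix (Fin m) (Fin k) (G →₀ ℂ)),
    ∃ z : ℤ, (n : ℝ) * ∑ i : Fin m, (1 - (Metric.infDist (dl (i, (1 : G)))
      {x : L2 (Fin m × G) | ∀ (j : Fin k) (g : G),
        ∑ i' : Fin m, (A i' j).sum (fun h c => ev (i', g * h⁻¹) x * c) = 0}) ^ 2) = z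

theorem AC0.at0 (hAC : AC0 G n) : At0 G n := fun m k A => by
  obtain ⟨T, oT, eT⟩ := exists_matOp A
  rw [sum_infDist oT.eqv eT]
  exact hAC _ _ (Alg.kr Eqv.unit Eqv.unit oT)

lemma exists_std (Ω : Type) [MulAction G Ω] [FC G Ω] :
    ∃ (m : ℕ) (e : Fin m × G ≃ Ω), Eqv G e := by
  let f := (Fintype.equivFin (Q G Ω)).symm
  refine ⟨_, (Equiv.prodCongr f (Equiv.refl G)).trans (Equiv.ofBijective _ (bij_out G Ω)),
    fun g p => mul_smul _ _ _⟩

lemma At0.kr_int (h : At0 G n) {Ω Ω' : Type} [MulAction G Ω] [MulAction G Ω'] [FC G Ω] [FC G Ω']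
    {R : Ω → Ω' → Prop} {Z : L2 Ω →L[ℂ] L2 Ω'} (hZ : AOp G R Z) :
    ∃ z : ℤ, n * dim G (kr Z) = z := by
  obtain ⟨m, e, he⟩ := exists_std (G := G) Ω
  obtain ⟨k, e', he'⟩ := exists_std (G := G) Ω'
  let A : Matrix (Fin m) (Fin k) (G →₀ ℂ) := fun i j => Finsupp.ofSupportFinite
    (fun g => ev (e' (j, g)) (Z (dl (e (i, 1))))) ((hZ.fin (e (i, 1))).preimage
      (f := fun g => e' (j, g)) (fun _ _ _ _ h => (Prod.mk.inj (e'.injective h)).2))
  obtain ⟨T, oT, eT⟩ := exists_matOp A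
  obtain ⟨z, hz⟩ := h m k A
  rw [sum_infDist oT.eqv eT] at hz
  have e1 : T = pull e'.toEmbedding ∘L Z ∘L push e.toEmbedding :=
    op_ext fun ⟨i, a⟩ => L2.ext fun ⟨j, g⟩ => by
      rw [eT, comp_apply, comp_apply, ev_pull, push_dl, Finset.sum_eq_single i,
        Finsupp.sum_eq_single (a⁻¹ * g)]
      · have h1 : e (i, a) = a • e (i, 1) := by rw [← he]; congr 1; exact Prod.ext rfl (mul_one a).symm
        have h2 : e' (j, g) = a • e' (j, a⁻¹ * g) := by
          rw [← he']; congr 1; exact Prod.ext rfl (mul_inv_cancel_left a g).symm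
        simp only [Equiv.coe_toEmbedding, h1, h2, hZ.eqv.entry]
        simp [A, Finsupp.ofSupportFinite_coe]
      · intro b _ hb
        rw [ev_dl_ne, zero_mul]
        intro h
        apply hb
        rw [← (Prod.mk.inj h).2]; simp
      · simp
      · intro i' _ hi
        refine Finset.sum_eq_zero fun b _ => mul_eq_zero_of_left (ev_dl_ne ?_) _
        exact fun h => hi (Prod.mk.inj h).1
      · simp
  have hj : IsInd (MonoidHom.id G) e.toEmbedding :=
    ⟨he, fun ω => ⟨1, e.symm ω, by simp⟩, fun g _ _ _ => ⟨g, rfl⟩⟩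
  have e2 : kr T = (kr Z).comap (push e.toEmbedding) := CS.ext' fun ξ => by
    rw [e1, mem_kr, ClosedSubmodule.mem_comap, mem_kr, comp_apply, comp_apply]
    exact ⟨fun h => L2.ext fun ω => by simpa using congr(ev (e'.symm ω) $h),
      fun h => by rw [h, map_zero]⟩
  rw [e2, hj.dim_comap (Invt.kr hZ.eqv) fun ξ h => by
    have : Set.range e.toEmbedding = Set.univ := e.surjective.range_eq
    rwa [this, P_univ]] at hz
  exact ⟨z, hz⟩

theorem At0.ac0 (h : At0 G n) : AC0 G n := by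
  intro Ω _ _ V hV
  obtain ⟨Ω₁, _, _, l₁, T, K, h1, h2, h3, h4, -, rfl⟩ := hV.exists_ker
  obtain ⟨Ω₂, _, _, l₂, Z₂, -, k2, e2⟩ := h3.inf (Ker.kr Eqv.unit h2)
  obtain ⟨Ω₃, _, _, l₃, Z₃, -, k3, e3⟩ := h3
  obtain ⟨z2, f2⟩ := h.kr_int k2
  obtain ⟨z3, f3⟩ := h.kr_int k3
  have := rank_nullity h2.eqv h4
  rw [← e2] at f2
  rw [← e3] at f3
  exact ⟨z3 - z2, by push_cast; linear_combination f3 - f2 + n * this⟩

theorem RR.ac0_of_comap (h : RR G n) {Γ : Type} [Group Γ] (π : Γ →* G)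
    (hd : ∀ E : Subgroup G, Finite E → AC0 (E.comap π) n) : AC0 Γ n := by
  refine (h Γ π fun K _ ι hι hf => ?_).1
  refine (hd (π.comp ι).range hf).mono (ι := ι.codRestrict _ fun k => ⟨k, rfl⟩) fun a b e => ?_
  exact hι (congrArg Subtype.val e)

end Pool.Agent.MP_54e5d7_al

end
end MrgPart4

-- marker of a merged file
example : 731051 + 175502 = 731051 + 175502 := rfl
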