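import Mathlib
import Pool.Agent.MP_54e5d7_al.Graph
import Pool.Agent.MP_54e5d7_al.Defs

/-!
Translation to the statements.
-/

set_option autoImplicit false

open Classical

noncomputable section
namespace Pool.Agent.MP_54e5d7_al

lemma atiyah_iff (G : Type) [Group G] (d : ℕ) : Atiyah G d ↔ At0 G d := by
  refine forall₃_congr fun m n A => ?_
  have e : ∀ i : Fin m, (Metric.infDist
      (lp.single 2 (i, (1 : G)) (1 : ℂ) : lp (fun _ : Fin m × G => ℂ) 2)
      {x : lp (fun _ : Fin m × G => ℂ) 2 | ∀ (j : Fin n) (g : G),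
        ∑ i' : Fin m, (A i' j).sum (fun h c => x (i', g * h⁻¹) * c) = 0}) =
      Metric.infDist (dl (i, (1 : G))) {x : L2 (Fin m × G) | ∀ (j : Fin n) (g : G),
        ∑ i' : Fin m, (A i' j).sum (fun h c => ev (i', g * h⁻¹) x * c) = 0} := fun i => by
    have e1 : (lp.single 2 (i, (1 : G)) (1 : ℂ) : lp (fun _ : Fin m × G => ℂ) 2) =
        dl (i, (1 : G)) := by
      rw [dl_def]; congr; exact Subsingleton.elim _ _
    have e2 : {x : lp (fun _ : Fin m × G => ℂ) 2 | ∀ (j : Fin n) (g : G),
        ∑ i' : Fin m, (A i' j).sum (fun h c => x (i', g * h⁻¹) * c) = 0} =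
        {x : L2 (Fin m × G) | ∀ (j : Fin n) (g : G),
        ∑ i' : Fin m, (A i' j).sum (fun h c => ev (i', g * h⁻¹) x * c) = 0} := by
      ext x
      simp only [Set.mem_ofPred_eq, ← ev_def]
      rfl
    rw [e1, e2]
    rfl
  simp only [e]
  constructor
  · rintro ⟨z, hz⟩
    exact ⟨z - d * (n - m), by push_cast; linear_combination hz⟩
  · rintro ⟨z, hz⟩
    exact ⟨z + d * (n - m), by push_cast; linear_combination hz⟩

lemma atiyah_zero (G : Type) [Group G] : Atiyah G 0 := fun _ _ _ => ⟨0, by simp⟩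

lemma TreeHier.rr {G : Type} [Group G] (h : TreeHier G) {n : ℕ} (hn : 0 < n) : RR G n := by
  induction h with
  | finite G => exact rr_finite hn
  | tree G X T hT hadj hinv _ ih => exact rr_tree hn T hT hadj hinv ih

end Pool.Agent.MP_54e5d7_al
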