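import Mathlib
import Pool.Agent.MP_54e5d7_al.Graph
import Pool.Agent.MP_54e5d7_al.Final
import Pool.Agent.MP_54e5d7_al.DefsHier

-- ======== part 0: formerly Pool.Agent.MP_54e5d7_al.Thick
section MrgPart0

/-!
Thickenings of free cofinite sets, slices, filtrations.
-/

set_option autoImplicit false

open scoped InnerProductSpace
open Classical ContinuousLinearMap MulAction

noncomputable section
namespace Pool.Agent.MP_54e5d7_al

variable {H : Type} [Group H] {Ω Ω' Ωt Ωt' B : Type}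

/-- The graph of a function. -/
def grE (f : Ω → B) : Ω ↪ Ω × B := ⟨fun ω => (ω, f ω), fun _ _ e => congrArg Prod.fst e⟩

/-- Restriction to the graph of a function. -/
def sec (τ : Ωt ↪ Ω × B) (f : Ω → B) : L2 Ωt →L[ℂ] L2 Ω := pull (grE f) ∘L push τ

/-- Extension by zero from the graph of a function. -/
def emb (τ : Ωt ↪ Ω × B) (f : Ω → B) : L2 Ω →L[ℂ] L2 Ωt := pull τ ∘L push (grE f)

lemma ev_sec (τ : Ωt ↪ Ω × B) (f : Ω → B) (ξ : L2 Ωt) (ω : Ω) :
    ev ω (sec τ f ξ) = ev (ω, f ω) (push τ ξ) := by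
  rw [sec, comp_apply, ev_pull]; rfl

lemma ev_sec_of {τ : Ωt ↪ Ω × B} {f : Ω → B} {ω : Ω} {a : Ωt} (h : τ a = (ω, f ω)) (ξ : L2 Ωt) :
    ev ω (sec τ f ξ) = ev a ξ := by rw [ev_sec, ← h, ev_push]

lemma ev_push_emb (τ : Ωt ↪ Ω × B) (β : B) (ξ : L2 Ω) (ω : Ω) (β' : B) :
    ev (ω, β') (push τ (emb τ (fun _ => β) ξ)) =
      if (ω, β') ∈ Set.range τ ∧ β' = β then ev ω ξ else 0 := by
  rw [emb, comp_apply, push_pull, ev_P]
  by_cases h : (ω, β') ∈ Set.range τ
  · by_cases h' : β' = β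
    · subst h'
      simp only [h, if_true, and_self]
      exact ev_push (grE fun _ => β') ξ ω
    · simp only [h, h', if_true, and_false, if_false]
      refine ev_push_of_not_mem _ _ ?_
      rintro ⟨x, e⟩
      exact h' (congrArg Prod.snd e).symm
  · simp [h]

lemma norm_pull_le (j : Ω' ↪ Ω) (ξ : L2 Ω) : ‖pull j ξ‖ ≤ ‖ξ‖ := by
  refine (sq_le_sq₀ (norm_nonneg _) (norm_nonneg _)).1 ?_
  rw [← (hasSum_norm_sq _).tsum_eq, ← (hasSum_norm_sq ξ).tsum_eq]
  simp only [ev_pull]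
  exact tsum_comp_le_tsum_of_inj (f := fun ω => ‖ev ω ξ‖ ^ 2) (hasSum_norm_sq ξ).summable
    (fun _ => sq_nonneg _) j.injective

lemma norm_sec_le (τ : Ωt ↪ Ω × B) (f : Ω → B) (ξ : L2 Ωt) : ‖sec τ f ξ‖ ≤ ‖ξ‖ := by
  rw [← norm_push τ ξ]; exact norm_pull_le _ _

lemma eq_zero_of_sec {τ : Ωt ↪ Ω × B} {ξ : L2 Ωt} (h : ∀ β, sec τ (fun _ => β) ξ = 0) : ξ = 0 :=
  L2.ext fun a => by rw [← ev_sec_of (τ := τ) (f := fun _ => (τ a).2) (ω := (τ a).1) rfl, h]; simp

lemma sec_dl (τ : Ωt ↪ Ω × B) (f : Ω → B) (a : Ωt) :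
    sec τ f (dl a) = if (τ a).2 = f (τ a).1 then dl (τ a).1 else 0 := L2.ext fun ω => by
  rw [ev_sec, push_dl, ev_dl]
  split_ifs with h1 h2 h2
  · rw [← h1]; simp
  · exact absurd (by rw [← h1]) h2
  · exact (ev_dl_ne fun e => h1 (Prod.ext e (by rw [h2, ← e]))).symm
  · simp

/-- Functions all of whose slices lie in `V`. -/
def Th (τ : Ωt ↪ Ω × B) (V : CS Ω) : CS Ωt := ⨅ β, V.comap (sec τ fun _ => β)

lemma mem_Th {τ : Ωt ↪ Ω × B} {V : CS Ω} {ξ : L2 Ωt} :
    ξ ∈ Th τ V ↔ ∀ β, sec τ (fun _ => β) ξ ∈ V := ClosedSubmodule.mem_iInf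

lemma norm_ev_le {V : CS Ω} {ξ : L2 Ω} (h : ξ ∈ V) (ω : Ω) : ‖ev ω ξ‖ ≤ ‖pr V (dl ω)‖ * ‖ξ‖ := by
  have : ev ω ξ = ⟪pr V (dl ω), ξ⟫_ℂ := by
    rw [← adjoint_pr V, adjoint_inner_left, pr_eq_self.2 h, inner_dl]
  rw [this]; exact norm_inner_le_norm _ _

lemma wt_Th_le (τ : Ωt ↪ Ω × B) (V : CS Ω) (a : Ωt) : wt (Th τ V) a ≤ wt V (τ a).1 := by
  have h1 := norm_ev_le (mem_Th.1 (pr_mem (Th τ V) (dl a)) (τ a).2) (τ a).1
  rw [ev_sec_of (a := a) rfl, ev_pr_dl, Complex.norm_real, Real.norm_of_nonneg (sq_nonneg _)] at h1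
  have h2 := norm_sec_le τ (fun _ => (τ a).2) (pr (Th τ V) (dl a))
  have h3 := norm_nonneg (pr (Th τ V) (dl a))
  have h4 := norm_nonneg (pr V (dl (τ a).1))
  simp only [wt]
  refine pow_le_pow_left₀ h3 ?_ 2
  by_contra hc
  push Not at hc
  nlinarith [mul_le_mul_of_nonneg_left h2 h4]

variable [MulAction H Ω] [MulAction H Ω'] [MulAction H Ωt] [MulAction H Ωt'] [MulAction H B]

lemma aop_sec {τ : Ωt ↪ Ω × B} (hτ : Eqv H τ) {f : Ω → B} (hf : Eqv H f) :
    AOp H (LR (fun a => (τ a).2) f) (sec τ f) :=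
  AOp.lcomp (l' := Prod.snd) (AOp.pull (Eqv.id.prod hf) fun _ => rfl) (AOp.push hτ fun _ => rfl)

lemma exists_thOp [FC H Ωt] [FC H Ωt'] {τ : Ωt ↪ Ω × B} {τ' : Ωt' ↪ Ω' × B} (hτ : Eqv H τ)
    (hτ' : Eqv H τ') {R : Ω → Ω' → Prop} {Z : L2 Ω →L[ℂ] L2 Ω'} (hZ : AOp H R Z)
    (h : ∀ a ω', ev ω' (Z (dl (τ a).1)) ≠ 0 → (ω', (τ a).2) ∈ Set.range τ') :
    ∃ Zt : L2 Ωt →L[ℂ] L2 Ωt', AOp H (LR (fun a => (τ a).2) fun a => (τ' a).2) Zt ∧
      kr Zt = Th τ (kr Z) ∧ (⊤ : CS Ωt).map Zt ≤ Th τ' ((⊤ : CS Ω).map Z) := by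
  have f1 : ∀ a, {a' | (if (τ a).2 = (τ' a').2 then ev (τ' a').1 (Z (dl (τ a).1)) else 0) ≠
      0}.Finite := fun a => by
    refine Set.Finite.of_finite_image (f := fun a' => (τ' a').1) ((hZ.fin (τ a).1).subset ?_) ?_
    · rintro _ ⟨a', ha, rfl⟩ e
      exact ha (by simp [e])
    · intro x hx y hy e
      have h1 : (τ a).2 = (τ' x).2 := by by_contra h'; exact hx (if_neg h')
      have h2 : (τ a).2 = (τ' y).2 := by by_contra h'; exact hy (if_neg h')
      exact τ'.injective (Prod.ext e (h1.symm.trans h2))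
  obtain ⟨Zt, h1, h2⟩ := exists_op (H := H)
    (fun a a' => if (τ a).2 = (τ' a').2 then ev (τ' a').1 (Z (dl (τ a).1)) else 0)
    (fun g a a' => by simp [hτ g, hτ' g, hZ.eqv.entry]) f1
  have key : ∀ β ξ, sec τ' (fun _ => β) (Zt ξ) = Z (sec τ (fun _ => β) ξ) := fun β ξ => by
    have : sec τ' (fun _ => β) ∘L Zt = Z ∘L sec τ fun _ => β := op_ext fun a => L2.ext fun ω' => by
      rw [comp_apply, comp_apply, sec_dl]
      by_cases hr : (ω', β) ∈ Set.range τ'
      · obtain ⟨a', ha'⟩ := hr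
        rw [ev_sec_of ha', h2, ha']
        split_ifs <;> simp
      · rw [ev_sec, ev_push_of_not_mem _ _ hr]
        split_ifs with e
        · by_contra hne
          exact hr (e ▸ h a ω' (Ne.symm hne))
        · simp
    exact congr($this ξ)
  refine ⟨Zt, ⟨h1, fun a => by simpa only [h2] using f1 a, fun a a' e => ?_⟩,
    CS.ext' fun ξ => ?_, map_le.2 fun ξ _ => mem_Th.2 fun β => ?_⟩
  · rw [h2] at e; by_contra h'; exact e (if_neg h')
  · simp only [mem_Th, mem_kr, ← key]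
    exact ⟨fun e β => by rw [e, map_zero], eq_zero_of_sec⟩
  · rw [key]; exact mem_map trivial

omit [MulAction H Ωt] in
lemma exists_thick [FC H Ω] (R : Ω → B → Prop) (hR : ∀ (g : H) ω β, R ω β → R (g • ω) (g • β))
    (hf : ∀ ω, {β | R ω β}.Finite) :
    ∃ (Ωt : Type) (_ : MulAction H Ωt) (_ : FC H Ωt) (τ : Ωt ↪ Ω × B), Eqv H τ ∧
      ∀ ω β, (ω, β) ∈ Set.range τ ↔ R ω β := by
  let S : SubMulAction H (Ω × B) := ⟨{p | R p.1 p.2}, fun g p h => hR g _ _ h⟩
  refine ⟨S, inferInstance, ⟨fun g p e => FC.free g p.1.1 (congrArg (fun p : S => p.1.1) e), ?_⟩,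
    Function.Embedding.subtype _, fun _ _ => rfl, fun ω β => ?_⟩
  · have : ∀ q : Q H Ω, Finite {β | R q.out β} := fun q => hf q.out
    refine fin_of_cover (ι := Σ q : Q H Ω, {β | R q.out β})
      (fun p => ⟨(p.1.out, p.2.1), p.2.2⟩) fun p => ?_
    obtain ⟨g, hg⟩ := exists_smul_out H p.1.1
    refine ⟨g, ⟨cls H p.1.1, g⁻¹ • p.1.2, ?_⟩, Subtype.ext (Prod.ext hg (smul_inv_smul _ _))⟩
    have := hR g⁻¹ _ _ p.2
    rwa [← hg, inv_smul_smul] at this
  · exact ⟨by rintro ⟨p, hp⟩; have := p.2; rwa [show p.1 = (ω, β) from hp] at this,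
      fun h => ⟨⟨(ω, β), h⟩, rfl⟩⟩

lemma sum_cover [FC H Ω] [FC H Ωt] {f : Ωt → Ω} (hf : Eqv H f) {ι : Type} [Fintype ι]
    (j : Ω → ι → Ωt) (h1 : ∀ ω p, f (j ω p) = ω) (h2 : ∀ ω, Function.Injective (j ω))
    (h3 : ∀ a, ∃ p, j (f a) p = a) {g : Ω → ℝ} (hg : ∀ (h : H) ω, g (h • ω) = g ω) :
    ∑ q : Q H Ωt, g (f q.out) = Fintype.card ι * ∑ q : Q H Ω, g q.out := by
  have hb : Function.Bijective fun x : Q H Ω × ι => cls H (j x.1.out x.2) := by
    constructor
    · rintro ⟨q, p⟩ ⟨q', p'⟩ e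
      obtain ⟨h, hh⟩ := cls_eq_iff.1 e
      have e1 := congrArg f hh
      rw [hf, h1, h1] at e1
      obtain rfl : q' = q := by simpa using congr(cls H $e1)
      rw [FC.free h _ e1, one_smul] at hh
      exact Prod.ext rfl (h2 _ hh).symm
    · intro q
      obtain ⟨h, hh⟩ := exists_smul_out H (f q.out)
      obtain ⟨p, hp⟩ := h3 (h⁻¹ • q.out)
      rw [hf, ← hh, inv_smul_smul] at hp
      exact ⟨(cls H (f q.out), p), by simp only [hp, cls_smul, cls_out]⟩
  rw [← hb.sum_comp, Fintype.sum_prod_type, Finset.mul_sum]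
  refine Finset.sum_congr rfl fun q _ => ?_
  have : ∀ p, g (f (cls H (j q.out p)).out) = g q.out := fun p => by
    obtain ⟨h, hh⟩ := exists_smul_out H (j q.out p)
    rw [← hg h, ← hf, hh, h1]
  simp [this]

/-- The part of `V` killed by the operators of higher key. -/
def lowr {ι L : Type} [LinearOrder L] (T : ι → L2 Ωt →L[ℂ] L2 Ω) (k : ι → L) (S : Finset ι) (p : ι) :
    CS Ωt := ⨅ q : {q // q ∈ S ∧ k p < k q}, kr (T q)

omit [MulAction H Ω] [MulAction H Ωt] in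
lemma mem_lowr {ι L : Type} [LinearOrder L] {T : ι → L2 Ωt →L[ℂ] L2 Ω} {k : ι → L} {S : Finset ι}
    {p : ι} {ξ : L2 Ωt} : ξ ∈ lowr T k S p ↔ ∀ q ∈ S, k p < k q → T q ξ = 0 := by
  simp [lowr, ClosedSubmodule.mem_iInf]

lemma dim_filt [FC H Ω] [FC H Ωt] {ι L : Type} [LinearOrder L] {T : ι → L2 Ωt →L[ℂ] L2 Ω}
    (hT : ∀ p, Eqop H (T p)) {k : ι → L} (hk : Function.Injective k) (S : Finset ι) :
    ∀ V : CS Ωt, Invt H V → (∀ ξ ∈ V, (∀ p ∈ S, T p ξ = 0) → ξ = 0) →
      dim H V = ∑ p ∈ S, dim H ((V ⊓ lowr T k S p).map (T p)) := by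
  induction S using Finset.induction_on_max_value k with
  | empty =>
    intro V _ h
    rw [show V = ⊥ from le_bot_iff.1 fun ξ hξ => h ξ hξ (by simp), dim_bot, Finset.sum_empty]
  | insert a S ha hm ih =>
    intro V hV h
    have hlt : ∀ x ∈ S, k x < k a := fun x hx =>
      lt_of_le_of_ne (hm x hx) fun e => ha (hk e ▸ hx)
    rw [Finset.sum_insert ha, ← rank_nullity (hT a) hV, add_comm,
      ih _ (hV.inf (Invt.kr (hT a))) fun ξ hξ h' => h ξ hξ.1 (by
        simpa only [Finset.forall_mem_insert] using ⟨hξ.2, h'⟩)]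
    congr 1
    · congr 2
      refine (inf_eq_left.2 fun ξ _ => mem_lowr.2 fun q hq h' => ?_).symm
      rcases Finset.mem_insert.1 hq with rfl | hq
      · exact absurd h' (lt_irrefl _)
      · exact absurd h' (hlt q hq).not_gt
    · refine Finset.sum_congr rfl fun p hp => ?_
      congr 2
      refine CS.ext' fun ξ => ?_
      simp only [ClosedSubmodule.mem_inf, mem_lowr, mem_kr, Finset.forall_mem_insert, hlt p hp,
        forall_const, and_assoc]

end Pool.Agent.MP_54e5d7_al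

end
end MrgPart0

-- ======== part 1: formerly Pool.Agent.MP_54e5d7_al.Comb
section MrgPart1

/-!
Combinatorial lemmas on monotone functions on lattice boxes.
-/

set_option autoImplicit false

open Classical Finset

noncomputable section
namespace Pool.Agent.MP_54e5d7_al

variable {I : Type} [Fintype I]

omit [Fintype I] in
lemma exists_stab [Finite I] {f : (I → ℤ) → (I → ℤ) → ℝ}
    (hm : ∀ u u' v v', u ≤ u' → v ≤ v' → f u v ≤ f u' v') {n : ℕ} (hn : 0 < n)
    (hint : ∀ u v, 0 ≤ u → 0 ≤ v → ∃ z : ℤ, n * f u v = z) {M : ℝ} (hb : ∀ u v, f u v ≤ M) :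
    ∃ C : ℕ, ∀ u v, 0 ≤ u → 0 ≤ v → f u v = f (u ⊓ fun _ => (C : ℤ)) (v ⊓ fun _ => (C : ℤ)) := by
  have hn' : (0 : ℝ) < n := by exact_mod_cast hn
  by_contra hc
  push Not at hc
  choose u v hu hv h using hc
  obtain ⟨g, hg⟩ := (wellQuasiOrdered_le (α := (I → ℕ) × (I → ℕ))).exists_monotone_subseq
    fun C => (fun i => (u C i).toNat, fun i => (v C i).toNat)
  choose z hz using fun k => hint _ _ (hu (g k)) (hv (g k))
  obtain ⟨_, ⟨k₀, rfl⟩, hk⟩ := Int.exists_greatest_of_bdd (P := fun x => ∃ k, z k = x)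
    ⟨⌈n * M⌉, by
      rintro _ ⟨k, rfl⟩
      have : (z k : ℝ) ≤ ⌈n * M⌉ :=
        (hz k ▸ mul_le_mul_of_nonneg_left (hb _ _) hn'.le).trans (Int.le_ceil _)
      exact_mod_cast this⟩ ⟨_, 0, rfl⟩
  have e1 : ∀ᶠ k in Filter.atTop, k₀ ≤ k ∧ ∀ i, u (g k₀) i ≤ k ∧ v (g k₀) i ≤ k := by
    refine (Filter.eventually_ge_atTop _).and (Filter.eventually_all.2 fun i => ?_)
    filter_upwards [Filter.eventually_ge_atTop (u (g k₀) i).toNat,
      Filter.eventually_ge_atTop (v (g k₀) i).toNat] with k h1 h2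
    omega
  obtain ⟨k, k1, k2⟩ := e1.exists
  have k3 : k ≤ g k := g.strictMono.le_apply
  obtain ⟨k4, k5⟩ := hg _ _ k1
  have h1 : f (u (g k₀)) (v (g k₀)) ≤ _ := hm _ (u (g k) ⊓ fun _ => (g k : ℤ)) _
    (v (g k) ⊓ fun _ => (g k : ℤ)) (fun i => by
      have a1 := k4 i; have a2 := k2 i; have a3 : 0 ≤ u (g k) i := hu _ i
      simp only [Pi.inf_apply, le_inf_iff] at a1 ⊢; omega) (fun i => by
      have a1 := k5 i; have a2 := k2 i; have a3 : 0 ≤ v (g k) i := hv _ i
      simp only [Pi.inf_apply, le_inf_iff] at a1 ⊢; omega)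
  have h2 := lt_of_le_of_ne (hm _ _ _ _ inf_le_left inf_le_left) (h (g k)).symm
  have h3 : (z k : ℝ) ≤ z k₀ := by exact_mod_cast hk _ ⟨k, rfl⟩
  rw [← hz, ← hz] at h3
  nlinarith

lemma sum_diff (φ : ℤ → ℤ → ℝ) {C R : ℤ} (hC : 0 ≤ C) (hR : 2 * C ≤ R) :
    ∑ t ∈ Icc 0 R, φ (t ⊓ C) ((R - t) ⊓ C) - ∑ t ∈ Icc 0 (R - 1), φ (t ⊓ C) ((R - 1 - t) ⊓ C) =
      φ C C := by
  rw [← add_sum_erase _ _ (show C ∈ Icc 0 R by simp; omega), inf_idem,
    inf_eq_right.2 (show C ≤ R - C by omega), add_sub_assoc, add_eq_left, sub_eq_zero]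
  refine sum_nbij' (fun t => if t < C then t else t - 1) (fun t => if t < C then t else t + 1)
    ?_ ?_ ?_ ?_ ?_
  · intro t ht; simp only [mem_erase, mem_Icc] at ht ⊢; split_ifs <;> omega
  · intro t ht; simp only [mem_erase, mem_Icc] at ht ⊢; split_ifs <;> omega
  · intro t ht; simp only [mem_erase, mem_Icc] at ht ⊢; split_ifs <;> omega
  · intro t ht; simp only [mem_Icc] at ht ⊢; split_ifs <;> omega
  · intro t ht
    simp only [mem_erase, mem_Icc] at ht
    congr 1 <;> split_ifs <;> omega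

lemma sum_mixed {f : (I → ℤ) → (I → ℤ) → ℝ} {C R : ℤ} (hC : 0 ≤ C) (hR : 2 * C ≤ R)
    (hf : ∀ u v, 0 ≤ u → 0 ≤ v → f u v = f (u ⊓ fun _ => C) (v ⊓ fun _ => C)) :
    ∑ r ∈ Icc (fun _ : I => R - 1) (fun _ => R),
      ((∏ i, (2 * (r i - R) + 1) : ℤ) : ℝ) * ∑ u ∈ Icc 0 r, f u (r - u) =
      f (fun _ => C) fun _ => C := by
  let δ : (I → ℤ) × (I → ℤ) → I → ℤ → ℤ → ℝ := fun x i s t =>
    if s = x.1 i ∧ t = x.2 i then 1 else 0
  let A := Icc (0 : I → ℤ) (fun _ => C) ×ˢ Icc (0 : I → ℤ) (fun _ => C)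
  have h0 : ∀ a b : I → ℤ, (a, b) ∈ A → ∑ x ∈ A, f x.1 x.2 * ∏ i, δ x i (a i) (b i) = f a b := by
    intro a b hab
    rw [sum_eq_single (a, b)]
    · simp [δ]
    · intro x _ hx
      refine mul_eq_zero_of_right _ ?_
      by_contra hne
      refine hx (Prod.ext (funext fun i => ?_) (funext fun i => ?_))
      all_goals
        have := prod_ne_zero_iff.1 hne i (mem_univ _)
        simp only [δ, ne_eq, ite_eq_right_iff, one_ne_zero, imp_false, not_not] at this
      exacts [this.1.symm, this.2.symm]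
    · exact fun h => absurd hab h
  have h1 : ∀ r : I → ℤ, ∑ u ∈ Icc 0 r, f u (r - u) = ∑ x ∈ A, f x.1 x.2 *
      ∏ i, ∑ t ∈ Icc 0 (r i), δ x i (t ⊓ C) ((r i - t) ⊓ C) := fun r => by
    simp only [prod_univ_sum, mul_sum]
    rw [sum_comm]
    refine sum_congr rfl fun u hu => ?_
    replace hu := mem_Icc.1 (show u ∈ Icc 0 r from hu)
    have hv : 0 ≤ r - u := sub_nonneg.2 hu.2
    rw [hf u _ hu.1 hv, ← h0]
    · rfl
    · simp only [A, mem_product, mem_Icc, inf_le_right, and_true, le_inf_iff]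
      exact ⟨⟨hu.1, fun _ => hC⟩, hv, fun _ => hC⟩
  simp only [h1, mul_sum]
  rw [sum_comm, ← h0 (fun _ => C) fun _ => C]
  · refine sum_congr rfl fun x _ => ?_
    have h2 := prod_univ_sum (fun _ : I => Icc (R - 1) R) fun i ρ =>
      ((2 * (ρ - R) + 1 : ℤ) : ℝ) * ∑ t ∈ Icc 0 ρ, δ x i (t ⊓ C) ((ρ - t) ⊓ C)
    simp only [prod_mul_distrib] at h2
    simp only [mul_left_comm _ (f x.1 x.2), ← mul_sum, Int.cast_prod]
    rw [Pi.Icc_eq, ← h2]
    congr 1
    refine prod_congr rfl fun i _ => ?_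
    rw [show Icc (R - 1) R = {R - 1, R} by ext; simp; omega, sum_pair (by omega),
      ← sum_diff (δ x i) hC hR]
    push_cast; ring
  · simp only [A, mem_product, mem_Icc, le_refl, and_true, and_self]
    exact fun _ => hC

lemma le_of_pow_mul {k : ℕ} {a b x y : ℝ}
    (h : ∀ᶠ R : ℕ in Filter.atTop, (R + a) ^ k * x ≤ (R + b) ^ k * y) : x ≤ y := by
  have key : ∀ c z : ℝ, Filter.Tendsto (fun R : ℕ => (1 + c * (R : ℝ)⁻¹) ^ k * z) Filter.atTop
      (nhds z) := fun c z => by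
    have := ((((tendsto_inv_atTop_nhds_zero_nat (𝕜 := ℝ)).const_mul c).const_add 1).pow
      k).mul_const z
    simpa using this
  refine le_of_tendsto_of_tendsto (key a x) (key b y) ?_
  filter_upwards [h, Filter.eventually_gt_atTop 0] with R h hR
  have hR' : (0 : ℝ) < R := by exact_mod_cast hR
  have e : ∀ c : ℝ, 1 + c * (R : ℝ)⁻¹ = (R : ℝ)⁻¹ * (R + c) := fun c => by field_simp
  simp only [e, mul_pow, mul_assoc]
  exact mul_le_mul_of_nonneg_left h (by positivity)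

lemma card_box {a b : ℤ} (h : a ≤ b + 1) : ((Icc (fun _ : I => a) fun _ => b).card : ℝ) =
    ((b : ℝ) + 1 - a) ^ Fintype.card I := by
  rw [Pi.card_Icc]
  simp only [Int.card_Icc, prod_const, card_univ, Nat.cast_pow]
  congr 1
  have : (((b + 1 - a).toNat : ℤ) : ℝ) = ((b + 1 - a : ℤ) : ℝ) := by
    rw [Int.toNat_of_nonneg (by omega)]
  exact_mod_cast this

lemma exists_key (I : Type) [Finite I] : ∃ (L : Type) (_ : AddCommGroup L) (_ : LinearOrder L)
    (_ : IsOrderedAddMonoid L) (κ : (I → ℤ) →+ L), Function.Injective κ := by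
  let _ : LinearOrder I := IsWellOrder.linearOrder WellOrderingRel
  exact ⟨Lex (I → ℤ), inferInstance, inferInstance, inferInstance,
    ⟨⟨toLex, rfl⟩, fun _ _ => rfl⟩, toLex.injective⟩

end Pool.Agent.MP_54e5d7_al

end
end MrgPart1

-- ======== part 2: formerly Pool.Agent.MP_54e5d7_al.Euclid
section MrgPart2

/-!
Actions on lattices by coordinate permutations and translations.
-/

set_option autoImplicit false

open scoped InnerProductSpace
open Classical ContinuousLinearMap MulAction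

noncomputable section
namespace Pool.Agent.MP_54e5d7_al

variable {H : Type} [Group H] {Ω Ω' Ωt I X L : Type} [Fintype I] (co : X ≃ (I → ℤ))

/-- `x` lies in the `s`-neighbourhood of the box `β`, whose shape lies in `S`. -/
def InB (s : ℤ) (S : Finset (I → ℤ)) (x : X) (β : X × X) : Prop :=
  (∀ i, co β.1 i - s ≤ co x i ∧ co x i ≤ co β.2 i + s) ∧ co β.2 - co β.1 ∈ S

/-- Shapes with positions. -/
def Pf (s : ℤ) (S : Finset (I → ℤ)) : Finset (Σ _ : I → ℤ, I → ℤ) :=
  S.sigma fun r => Finset.Icc (fun _ => -s) (r + fun _ => s)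

/-- The box with given shape in which `x` has the given position. -/
def bxf (p : Σ _ : I → ℤ, I → ℤ) (x : X) : X × X :=
  (co.symm (co x - p.2), co.symm (co x - p.2 + p.1))

variable {co}

omit [Fintype I] in
lemma bxf_eq_iff {p q : Σ _ : I → ℤ, I → ℤ} {x y : X} :
    bxf co q y = bxf co p x ↔ q.1 = p.1 ∧ co y - q.2 = co x - p.2 := by
  simp only [bxf, Prod.mk.injEq, EmbeddingLike.apply_eq_iff_eq]
  exact ⟨fun h => ⟨by have := h.2; rwa [h.1, add_right_inj] at this, h.1⟩,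
    fun h => ⟨h.2, by rw [h.1, h.2]⟩⟩

lemma inB_iff {s : ℤ} {S : Finset (I → ℤ)} {x : X} {β : X × X} :
    InB co s S x β ↔ ∃ p ∈ Pf s S, bxf co p x = β := by
  constructor
  · rintro ⟨h1, h2⟩
    refine ⟨⟨co β.2 - co β.1, co x - co β.1⟩, ?_, by simp [bxf]⟩
    simp only [Pf, Finset.mem_sigma, h2, Finset.mem_Icc, true_and]
    constructor <;> intro i <;> have := h1 i <;> simp only [Pi.sub_apply, Pi.add_apply] <;> omega
  · rintro ⟨p, hp, rfl⟩
    simp only [Pf, Finset.mem_sigma, Finset.mem_Icc] at hp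
    refine ⟨fun i => ?_, by simpa [bxf] using hp.1⟩
    have h1 := hp.2.1 i
    have h2 := hp.2.2 i
    simp only [bxf, Equiv.apply_symm_apply, Pi.sub_apply, Pi.add_apply] at h1 h2 ⊢
    omega

lemma card_Pf (s R : ℕ) : ((Pf s {fun _ : I => (R : ℤ)}).card : ℝ) =
    ((R : ℝ) + (2 * s + 1)) ^ Fintype.card I := by
  rw [Pf, Finset.card_sigma, Finset.sum_singleton]
  refine (card_box (a := -s) (b := R + s) (by omega)).trans ?_
  push_cast; congr 1; ring

variable [AddCommGroup L] [LinearOrder L] [IsOrderedAddMonoid L] (κ : (I → ℤ) →+ L)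

variable (co) in
/-- Leading terms. -/
def Lam (l : Ω → X) (K : CS Ω) (u v : I → ℤ) : CS Ω :=
  ⨆ x, (K ⊓ kr (P {ω | co x - u ≤ co (l ω) ∧ co (l ω) ≤ co x + v ∧
    κ (co (l ω)) ≤ κ (co x)}ᶜ)).map (P (l ⁻¹' {x}))

lemma mem_kr_P {A : Set Ω} {ξ : L2 Ω} : ξ ∈ kr (P Aᶜ) ↔ ∀ ω, ev ω ξ ≠ 0 → ω ∈ A := by
  rw [mem_kr]
  constructor
  · intro h ω e
    by_contra h'
    exact e (by rw [← ev_P_of_mem (S := Aᶜ) ξ h', h, map_zero])
  · intro h
    refine L2.ext fun ω => ?_
    rw [ev_P, map_zero]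
    split_ifs with h'
    · by_contra e; exact h' (h ω e)
    · rfl

omit [Fintype I] [IsOrderedAddMonoid L] in
lemma Lam_mono (l : Ω → X) (K : CS Ω) {u u' v v' : I → ℤ} (hu : u ≤ u') (hv : v ≤ v') :
    Lam co κ l K u v ≤ Lam co κ l K u' v' :=
  iSup_mono fun _ => map_mono _ (inf_le_inf_left _ fun _ h => mem_kr_P.2 fun ω e =>
    have := mem_kr_P.1 h ω e
    ⟨(sub_le_sub_left hu _).trans this.1, this.2.1.trans (add_le_add_right hv _), this.2.2⟩)

/-- The order used for the filtration. -/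
def key (p : Σ _ : I → ℤ, I → ℤ) : L ×ₗ L := toLex (κ p.1, κ p.2)

lemma lam_eq {S : Finset (I → ℤ)} {l : Ω → X} {τ : Ωt ↪ Ω × X × X}
    (hτ : ∀ ω β, (ω, β) ∈ Set.range τ ↔ InB co 0 S (l ω) β) (K : CS Ω) {p : Σ _ : I → ℤ, I → ℤ}
    (hp : p ∈ Pf 0 S) :
    (Th τ K ⊓ lowr (fun q => sec τ fun ω => bxf co q (l ω)) (key κ) (Pf 0 S) p).map
      (sec τ fun ω => bxf co p (l ω)) = Lam co κ l K p.2 (p.1 - p.2) := by
  have hk : ∀ {q : Σ _ : I → ℤ, I → ℤ} {x y : X}, bxf co q y = bxf co p x →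
      (key κ p < key κ q ↔ κ (co x) < κ (co y)) := fun {q x y} e => by
    obtain ⟨e1, e2⟩ := bxf_eq_iff.1 e
    have e3 : κ (co y) = κ (co x) + (κ q.2 - κ p.2) := by
      rw [← map_sub, ← map_add]; congr 1; linear_combination e2
    simp [key, Prod.Lex.toLex_lt_toLex, e1, e3]
  have hb : ∀ x y : X, InB co 0 S y (bxf co p x) ↔
      co x - p.2 ≤ co y ∧ co y ≤ co x + (p.1 - p.2) := fun x y => by
    have : p.1 ∈ S := (Finset.mem_sigma.1 hp).1
    simp only [InB, bxf, Equiv.apply_symm_apply, add_sub_cancel_left, this, and_true, sub_zero,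
      add_zero, forall_and, Pi.le_def, Pi.add_apply, Pi.sub_apply]
    refine and_congr Iff.rfl (forall_congr' fun i => ?_)
    omega
  apply le_antisymm
  · rw [map_le]
    intro ξ hξ
    refine mem_of_forall_P l fun x => ?_
    have e : P (l ⁻¹' {x}) (sec τ (fun ω => bxf co p (l ω)) ξ) =
        P (l ⁻¹' {x}) (sec τ (fun _ => bxf co p x) ξ) := L2.ext fun ω => by
      simp only [ev_P, ev_sec]
      split_ifs with h
      · rw [show l ω = x from h]
      · rfl
    rw [e]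
    refine le_iSup (fun x => (K ⊓ kr (P {ω | co x - p.2 ≤ co (l ω) ∧
      co (l ω) ≤ co x + (p.1 - p.2) ∧ κ (co (l ω)) ≤ κ (co x)}ᶜ)).map (P (l ⁻¹' {x}))) x
      (mem_map ⟨mem_Th.1 hξ.1 _, mem_kr_P.2 fun ω h => ?_⟩)
    rw [ev_sec] at h
    obtain ⟨a, ha, -⟩ := mem_range_of_ev_push h
    have h1 := (hτ _ _).1 ⟨a, ha⟩
    obtain ⟨q, hq, e⟩ := inB_iff.1 h1
    refine ⟨((hb _ _).1 h1).1, ((hb _ _).1 h1).2, not_lt.1 fun h2 => h ?_⟩
    rw [← e, ← ev_sec τ fun ω => bxf co q (l ω), mem_lowr.1 hξ.2 q hq ((hk e).2 h2), map_zero]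
  · refine iSup_le fun x => map_le.2 fun ζ hζ => ?_
    have h1 := mem_kr_P.1 hζ.2
    have h2 : ∀ (f : Ω → X × X) ω, ev ω (sec τ f (emb τ (fun _ => bxf co p x) ζ)) =
        if f ω = bxf co p x then ev ω ζ else 0 := fun f ω => by
      rw [ev_sec, ev_push_emb]
      by_cases e : ev ω ζ = 0
      · simp [e]
      · by_cases e' : f ω = bxf co p x
        · rw [if_pos e', if_pos ⟨by rw [e', hτ, hb]; exact ⟨(h1 ω e).1, (h1 ω e).2.1⟩, e'⟩]
        · rw [if_neg e', if_neg fun h => e' h.2]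
    have h3 : sec τ (fun ω => bxf co p (l ω)) (emb τ (fun _ => bxf co p x) ζ) =
        P (l ⁻¹' {x}) ζ := L2.ext fun ω => by
      simp [h2, ev_P, bxf_eq_iff]
    rw [← h3]
    refine mem_map ⟨mem_Th.2 fun β => ?_, mem_lowr.2 fun q _ h => L2.ext fun ω => ?_⟩
    · by_cases e : β = bxf co p x
      · rw [show sec τ _ _ = ζ from L2.ext fun ω => by rw [h2, if_pos e]]; exact hζ.1
      · rw [show sec τ _ _ = 0 from L2.ext fun ω => by rw [h2, if_neg e, map_zero]]
        exact zero_mem _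
    · rw [h2, map_zero]
      split_ifs with e
      · by_contra e'
        exact (h1 ω e').2.2.not_gt ((hk e).1 h)
      · rfl

variable [MulAction H Ω] [MulAction H Ω'] [MulAction H Ωt] [MulAction H I] [MulAction H X]

variable (H co) in
/-- The action permutes coordinates and translates. -/
def Aff : Prop :=
  ∀ (g : H) x y i, co (g • x) (g • i) - co (g • y) (g • i) = co x i - co y i

omit [Fintype I] in
lemma Aff.inB (hA : Aff H co) {s : ℤ} {S : Finset (I → ℤ)}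
    (hS : ∀ g : H, ∀ r ∈ S, (fun i => r (g • i)) ∈ S) (g : H) {x : X} {β : X × X}
    (h : InB co s S x β) : InB co s S (g • x) (g • β) := by
  refine ⟨fun i => ?_, ?_⟩
  · have h1 := h.1 (g⁻¹ • i)
    have h2 := hA g x β.1 (g⁻¹ • i)
    have h3 := hA g x β.2 (g⁻¹ • i)
    simp only [smul_inv_smul, Prod.smul_fst, Prod.smul_snd] at h2 h3 ⊢
    omega
  · convert hS g⁻¹ _ h.2 using 1
    funext i
    simpa using hA g β.2 β.1 (g⁻¹ • i)

omit [MulAction H I] in
lemma sum_box [FC H Ω] [FC H Ωt] {s : ℤ} {S : Finset (I → ℤ)} {l : Ω → X} {τ : Ωt ↪ Ω × X × X}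
    (eτ : Eqv H τ) (hτ : ∀ ω β, (ω, β) ∈ Set.range τ ↔ InB co s S (l ω) β) {g : Ω → ℝ}
    (hg : ∀ (h : H) ω, g (h • ω) = g ω) :
    ∑ q : Q H Ωt, g (τ q.out).1 = (Pf s S).card * ∑ q : Q H Ω, g q.out := by
  choose j hj using fun ω (p : Pf s S) => (hτ ω _).2 (inB_iff.2 ⟨p, p.2, rfl⟩)
  rw [← Fintype.card_coe]
  refine sum_cover (f := fun a => (τ a).1) (Eqv.fst.comp eτ) j (fun ω p => by rw [hj])
    (fun ω p q e => ?_) (fun a => ?_) hg
  · have := congrArg (fun a => (τ a).2) e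
    simp only [hj, bxf_eq_iff, sub_right_inj] at this
    exact Subtype.ext (Sigma.ext this.1 (heq_of_eq this.2))
  · obtain ⟨p, hp, e⟩ := inB_iff.1 ((hτ (τ a).1 (τ a).2).1 ⟨a, rfl⟩)
    exact ⟨⟨p, hp⟩, τ.injective (by rw [hj, e])⟩

omit [MulAction H I] in
lemma dim_Th_le [FC H Ω] [FC H Ωt] {s : ℤ} {S : Finset (I → ℤ)} {l : Ω → X}
    {τ : Ωt ↪ Ω × X × X} (eτ : Eqv H τ) (hτ : ∀ ω β, (ω, β) ∈ Set.range τ ↔ InB co s S (l ω) β)
    {V : CS Ω} (hV : Invt H V) : dim H (Th τ V) ≤ (Pf s S).card * dim H V := by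
  rw [dim, dim, ← sum_box eτ hτ (wt_smul hV)]
  exact Finset.sum_le_sum fun q _ => wt_Th_le _ _ _

lemma exists_boxOp [FC H Ω] [FC H Ω'] (hA : Aff H co) {l : Ω → X} {l' : Ω' → X} (hl : Eqv H l)
    (hl' : Eqv H l') {s : ℤ} {Z : L2 Ω →L[ℂ] L2 Ω'}
    (hZ : AOp H (fun a b => ∀ i, |co (l' b) i - co (l a) i| ≤ s) Z) {S : Finset (I → ℤ)}
    (hS : ∀ g : H, ∀ r ∈ S, (fun i => r (g • i)) ∈ S) :
    ∃ (Ωt : Type) (_ : MulAction H Ωt) (_ : FC H Ωt) (τ : Ωt ↪ Ω × X × X), Eqv H τ ∧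
      (∀ ω β, (ω, β) ∈ Set.range τ ↔ InB co 0 S (l ω) β) ∧
      Alg H (fun a => (τ a).2) (Th τ (kr Z)) ∧ (Pf 0 S).card * Fintype.card (Q H Ω) -
        (Pf s S).card * dim H ((⊤ : CS Ω).map Z) ≤ dim H (Th τ (kr Z)) := by
  have hf : ∀ (s : ℤ) x, {β | InB co s S x β}.Finite := fun s x =>
    ((Pf s S).finite_toSet.image fun p => bxf co p x).subset fun β h => inB_iff.1 h
  obtain ⟨Ωt, _, _, τ, e1, h1⟩ := exists_thick (H := H) (fun ω β => InB co 0 S (l ω) β)
    (fun g ω β h => by rw [hl]; exact hA.inB hS g h) fun ω => hf _ _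
  obtain ⟨Ωt', _, _, τ', e2, h2⟩ := exists_thick (H := H) (fun ω β => InB co s S (l' ω) β)
    (fun g ω β h => by rw [hl']; exact hA.inB hS g h) fun ω => hf _ _
  obtain ⟨Zt, h3, h4, h5⟩ := exists_thOp e1 e2 hZ fun a b e => by
    have h6 := (h1 (τ a).1 (τ a).2).1 ⟨a, rfl⟩
    refine (h2 _ _).2 ⟨fun i => ?_, h6.2⟩
    have h7 := h6.1 i
    have h8 := abs_le.1 (hZ.ent _ _ e i)
    omega
  refine ⟨Ωt, _, inferInstance, τ, e1, h1, ?_, ?_⟩
  · rw [← h4]; exact Alg.kr (Eqv.snd.comp e1) (Eqv.snd.comp e2) h3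
  · have a1 := dim_kr_add_map_top h3.eqv
    have a2 := (dim_mono (H := H) h5).trans (dim_Th_le e2 h2 (Invt.top.map hZ.eqv))
    have a3 := sum_box (g := fun _ => 1) e1 h1 fun _ _ => rfl
    simp only [Finset.sum_const, Finset.card_univ, nsmul_eq_mul, mul_one] at a3
    rw [← h4]; linarith

omit [Fintype I] in
lemma Aff.eqv_bxf (hA : Aff H co) (hI : ∀ (h : H) (i : I), h • i = i) (p : Σ _ : I → ℤ, I → ℤ) :
    Eqv H (bxf co p) := fun h x => by
  have key : ∀ w, co.symm (co (h • x) + w) = h • co.symm (co x + w) := fun w => by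
    rw [Equiv.symm_apply_eq]
    funext i
    have := hA h (co.symm (co x + w)) x i
    simp only [hI, Equiv.apply_symm_apply, Pi.add_apply] at this ⊢
    omega
  simp only [bxf, Prod.smul_mk, sub_eq_add_neg, add_assoc, key]

lemma dim_Th_eq [FC H Ω] [FC H Ωt] (hA : Aff H co) (hI : ∀ (h : H) (i : I), h • i = i)
    (hκ : Function.Injective κ) {S : Finset (I → ℤ)} {l : Ω → X} (hl : Eqv H l)
    {τ : Ωt ↪ Ω × X × X} (eτ : Eqv H τ) (hτ : ∀ ω β, (ω, β) ∈ Set.range τ ↔ InB co 0 S (l ω) β)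
    {K : CS Ω} (hK : Invt H (Th τ K)) :
    dim H (Th τ K) = ∑ r ∈ S, ∑ u ∈ Finset.Icc 0 r, dim H (Lam co κ l K u (r - u)) := by
  rw [dim_filt (T := fun q => sec τ fun ω => bxf co q (l ω))
    (fun q => (aop_sec eτ ((hA.eqv_bxf hI q).comp hl)).eqv) (k := key κ) (fun p q e => by
      simp only [key, EmbeddingLike.apply_eq_iff_eq, Prod.mk.injEq] at e
      exact Sigma.ext (hκ e.1) (heq_of_eq (hκ e.2))) (Pf 0 S) _ hK fun ξ _ h => L2.ext fun a => by
      obtain ⟨p, hp, e⟩ := inB_iff.1 ((hτ (τ a).1 (τ a).2).1 ⟨a, rfl⟩)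
      rw [← ev_sec_of (τ := τ) (f := fun ω => bxf co p (l ω)) (ω := (τ a).1) (by rw [e]), h p hp,
        map_zero, map_zero],
    Finset.sum_congr rfl fun p hp => congrArg _ (lam_eq κ hτ K hp), Pf, Finset.sum_sigma]
  refine Finset.sum_congr rfl fun r _ => Finset.sum_congr ?_ fun _ _ => rfl
  congr 1
  funext i; simp

omit [MulAction H I] [Fintype I] in
lemma ac_box {n : ℕ} (h : ∀ x : X, AC0 (stabilizer H x) n) : AC H n fun β : X × X => β :=
  ac_of_stab Eqv.id fun β => (h β.1).mono (Subgroup.inclusion_injective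
    (show stabilizer H β ≤ stabilizer H β.1 from fun _ e => congrArg Prod.fst e))

lemma transl [FC H Ω] [FC H Ω'] {n : ℕ} (hn : 0 < n) (hA : Aff H co)
    (hI : ∀ (h : H) (i : I), h • i = i) (hst : ∀ x : X, AC0 (stabilizer H x) n)
    (hκ : Function.Injective κ) {l : Ω → X} {l' : Ω' → X} (hl : Eqv H l)
    (hl' : Eqv H l') {s : ℕ} {Z : L2 Ω →L[ℂ] L2 Ω'}
    (hZ : AOp H (fun a b => ∀ i, |co (l' b) i - co (l a) i| ≤ s) Z) :
    ∃ R : ℤ, ∑ r ∈ Finset.Icc (fun _ : I => R - 1) (fun _ => R),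
      ((∏ i, (2 * (r i - R) + 1) : ℤ) : ℝ) *
        ∑ u ∈ Finset.Icc 0 r, dim H (Lam co κ l (kr Z) u (r - u)) = dim H (kr Z) := by
  have hS : ∀ (S : Finset (I → ℤ)) (g : H), ∀ r ∈ S, (fun i => r (g • i)) ∈ S := fun S g r h => by
    simpa only [hI] using h
  set f : (I → ℤ) → (I → ℤ) → ℝ := fun u v => dim H (Lam co κ l (kr Z) u v) with hf
  have hm : ∀ u u' v v', u ≤ u' → v ≤ v' → f u v ≤ f u' v' := fun u u' v v' hu hv =>
    dim_mono (Lam_mono κ l _ hu hv)
  obtain ⟨C, hC⟩ := exists_stab hm hn (fun u v hu hv => by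
    obtain ⟨Ωt, _, _, τ, e1, h1, h2, -⟩ := exists_boxOp hA hl hl' hZ (hS {u + v})
    have hp : (⟨u + v, u⟩ : Σ _ : I → ℤ, I → ℤ) ∈ Pf 0 {u + v} := by
      simp only [Pf, Finset.mem_sigma, Finset.mem_singleton, Finset.mem_Icc, true_and]
      exact ⟨fun i => by simpa using hu i, fun i => by simpa using hv i⟩
    have h3 := lam_eq κ h1 (kr Z) hp
    simp only [add_sub_cancel_left] at h3
    have e2 := fun q => (hA.eqv_bxf hI q).comp hl
    have : Finite {q // q ∈ Pf 0 {u + v} ∧ key κ ⟨u + v, u⟩ < key κ q} :=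
      (Pf 0 {u + v}).finite_toSet.subset fun q h => h.1
    refine ac_box hst Ω _ (e2 ⟨u + v, u⟩) _ ?_
    rw [← h3]
    exact (h2.inf (Alg.iInf h2.eqv fun q => Alg.kr h2.eqv (e2 _) (aop_sec e1 (e2 _)))).map (e2 _)
      (aop_sec e1 (e2 _))) fun u v => dim_le_card _
  refine ⟨2 * C, (sum_mixed (f := f) (Nat.cast_nonneg C) le_rfl hC).trans ?_⟩
  set c := f (fun _ => C) fun _ => C with hc
  have key : ∀ R : ℕ, 2 * C ≤ R →
      ((R : ℝ) + (1 - 2 * C)) ^ Fintype.card I * c ≤ (R + 1) ^ Fintype.card I * dim H (kr Z) ∧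
      ((R : ℝ) + 1) ^ Fintype.card I * (Fintype.card (Q H Ω) - c) ≤
        (R + (2 * s + 1)) ^ Fintype.card I * dim H ((⊤ : CS Ω).map Z) := fun R hR => by
    obtain ⟨Ωt, _, _, τ, e1, h1, h2, h3⟩ := exists_boxOp hA hl hl' hZ (hS {fun _ => (R : ℤ)})
    have h4 := dim_Th_le e1 h1 (Invt.kr hZ.eqv)
    rw [dim_Th_eq κ hA hI hκ hl e1 h1 h2.invt, Finset.sum_singleton] at h3 h4
    have h5 := card_Pf (I := I) 0 R
    simp only [Nat.cast_zero, mul_zero, zero_add] at h5
    rw [h5] at h4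
    rw [h5, card_Pf] at h3
    constructor
    · refine le_trans ?_ h4
      have h6 := card_box (I := I) (a := C) (b := R - C) (by omega)
      rw [show ((R : ℝ) + (1 - 2 * C)) = ((R - C : ℤ) : ℝ) + 1 - (C : ℤ) by push_cast; ring, ← h6,
        ← nsmul_eq_mul]
      refine le_trans (Finset.card_nsmul_le_sum _ (fun u => f u ((fun _ => (R : ℤ)) - u)) _
        fun u hu => ?_) (Finset.sum_le_sum_of_subset_of_nonneg (Finset.Icc_subset_Icc
          (fun i => Nat.cast_nonneg C) fun i => by simp) fun _ _ _ => dim_nonneg _)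
      rw [Finset.mem_Icc] at hu
      exact hm _ _ _ _ hu.1 fun i => by have := hu.2 i; simp only [Pi.sub_apply] at this ⊢; omega
    · have h6 := card_box (I := I) (a := 0) (b := R) (by omega)
      have h7 := Finset.sum_le_card_nsmul (Finset.Icc (0 : I → ℤ) fun _ => (R : ℤ))
        (fun u => f u ((fun _ => (R : ℤ)) - u)) c fun u hu => by
          rw [Finset.mem_Icc] at hu
          rw [hC _ _ hu.1 (sub_nonneg.2 hu.2)]
          exact hm _ _ _ _ inf_le_right inf_le_right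
      simp only [Int.cast_natCast, Int.cast_zero, sub_zero] at h6
      rw [nsmul_eq_mul, show Finset.Icc (0 : I → ℤ) (fun _ => (R : ℤ)) =
        Finset.Icc (fun _ => (0 : ℤ)) fun _ => (R : ℤ) from rfl, h6] at h7
      have h8 := h3.trans h7
      linarith
  have k1 := le_of_pow_mul ((Filter.eventually_ge_atTop _).mono fun R h => (key R h).1)
  have k2 := le_of_pow_mul ((Filter.eventually_ge_atTop _).mono fun R h => (key R h).2)
  have k3 := dim_kr_add_map_top hZ.eqv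
  linarith

omit [Fintype I] [MulAction H Ω] [MulAction H Ω'] [MulAction H Ωt] [MulAction H I]
  [MulAction H X] in
lemma ac0_of_ker {n : ℕ} (h : ∀ (Ω Ω' : Type) [MulAction H Ω] [MulAction H Ω'] [FC H Ω] [FC H Ω']
    (Z : L2 Ω →L[ℂ] L2 Ω'), AOp H (fun _ _ => True) Z → ∃ z : ℤ, n * dim H (kr Z) = z) :
    AC0 H n := by
  intro Ω _ _ V hV
  obtain ⟨Ω₁, _, _, l₁, T, K, h1, h2, h3, h4, -, rfl⟩ := hV.exists_ker
  obtain ⟨Ω₂, _, _, l₂, Z₂, -, k2, e2⟩ := h3.inf (Ker.kr Eqv.unit h2)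
  obtain ⟨Ω₃, _, _, l₃, Z₃, -, k3, e3⟩ := h3
  obtain ⟨z2, f2⟩ := h _ _ _ (k2.mono fun _ _ _ => trivial)
  obtain ⟨z3, f3⟩ := h _ _ _ (k3.mono fun _ _ _ => trivial)
  have := rank_nullity h2.eqv h4
  rw [← e2] at f2
  rw [← e3] at f3
  exact ⟨z3 - z2, by push_cast; linear_combination f3 - f2 + n * this⟩

omit [Fintype I] [MulAction H I] [MulAction H X] in
lemma AOp.exhaust [FC H Ω] {R₀ : Ω → Ω' → Prop} {R : ℕ → Ω → Ω' → Prop} {Z : L2 Ω →L[ℂ] L2 Ω'}
    (h : AOp H R₀ Z) (hinv : ∀ n (g : H) a b, R n a b → R n (g • a) (g • b))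
    (hR : ∀ a b, ∀ᶠ n in Filter.atTop, R n a b) : ∃ n, AOp H (R n) Z := by
  have : ∀ᶠ n in Filter.atTop, ∀ q : Q H Ω, ∀ b ∈ {b | ev b (Z (dl q.out)) ≠ 0},
      R n q.out b := by
    rw [Filter.eventually_all]
    intro q
    rw [Filter.eventually_all_finite (h.fin q.out)]
    exact fun b _ => hR _ _
  obtain ⟨n, hn⟩ := this.exists
  refine ⟨n, h.eqv, h.fin, fun a b e => ?_⟩
  obtain ⟨g, hg⟩ := exists_smul_out H a
  have := hinv n g _ _ (hn (cls H a) (g⁻¹ • b) (by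
    rw [Set.mem_ofPred_eq, ← h.eqv.entry g, hg, smul_inv_smul]; exact e))
  rwa [hg, smul_inv_smul] at this

/-- Integrality passes from point stabilizers to a group acting on a lattice by coordinate
permutations and translations. -/
theorem euclid {n : ℕ} (hn : 0 < n) (hA : Aff H co) (hst : ∀ x : X, AC0 (stabilizer H x) n) :
    AC0 H n := by
  refine ac0_of_ker fun Ω Ω' _ _ _ _ Z hZ => ?_
  obtain ⟨l, hl, -⟩ := exists_eqv (H := H) (fun (_ : Ω) (_ : X) => True)
    (fun _ _ _ _ => trivial) fun _ => ⟨co.symm 0, trivial⟩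
  obtain ⟨l', hl', -⟩ := exists_eqv (H := H) (fun (_ : Ω') (_ : X) => True)
    (fun _ _ _ _ => trivial) fun _ => ⟨co.symm 0, trivial⟩
  obtain ⟨s, hs⟩ := hZ.exhaust (R := fun s a b => ∀ i, |co (l' b) i - co (l a) i| ≤ s)
    (fun s g a b h i => by rw [hl, hl', ← smul_inv_smul g i, hA]; exact h _)
    fun a b => Filter.eventually_all.2 fun i => by
      filter_upwards [Filter.eventually_ge_atTop (co (l' b) i - co (l a) i).natAbs] with s h
      rw [← Int.natCast_natAbs]; exact_mod_cast h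
  obtain ⟨L, _, _, _, κ, hκ⟩ := exists_key I
  let N := (toPermHom H I).ker
  have := fc_subgroup (Ω := Ω) N
  have := fc_subgroup (Ω := Ω') N
  have hA' : Aff N co := fun g => hA g
  have hI : ∀ (h : N) (i : I), h • i = i := fun h i => congr($(h.2) i)
  have el : Eqv N l := fun g => hl g
  obtain ⟨R, hR⟩ := transl κ hn hA' hI (fun x => (hst x).mono
    (ι := ((N.subtype.comp (stabilizer N x).subtype).codRestrict (stabilizer H x) fun k => k.2))
    fun a b e => by have := congrArg Subtype.val e; exact Subtype.ext (Subtype.ext this)) hκ el (fun g => hl' g)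
    (Z := Z) (s := s) ⟨fun g ξ => by rw [u_coe, u_coe, hs.eqv], hs.fin, hs.ent⟩
  set B := Finset.Icc (fun _ : I => R - 1) (fun _ => R)
  set w : (I → ℤ) → ℤ := fun r => ∏ i, (2 * (r i - R) + 1)
  have key : ∀ c, ∃ z : ℤ, n * ∑ r ∈ B with w r = c,
      ∑ u ∈ Finset.Icc 0 r, dim N (Lam co κ l (kr Z) u (r - u)) = N.index * z := fun c => by
    obtain ⟨Ωt, _, _, τ, e1, h1, h2, -⟩ := exists_boxOp hA hl hl' hs
      (S := B.filter (w · = c)) fun g r h => by
        simp only [Finset.mem_filter, B, Finset.mem_Icc] at h ⊢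
        exact ⟨⟨fun i => h.1.1 _, fun i => h.1.2 _⟩,
          ((toPerm g).prod_comp _ (fun i => 2 * (r i - R) + 1) (by simp)).trans h.2⟩
    have := fc_subgroup (Ω := Ωt) N
    obtain ⟨z, hz⟩ := ac_box hst Ωt _ h2.eqv _ h2
    refine ⟨z, ?_⟩
    rw [← dim_Th_eq κ hA' hI hκ el (fun g => e1 g) h1 (h2.invt.subgroup N), dim_subgroup N h2.invt,
      ← hz]
    ring
  choose z hz using key
  refine ⟨∑ c ∈ B.image w, c * z c, ?_⟩
  have h5 : (N.index : ℝ) ≠ 0 := by exact_mod_cast Subgroup.FiniteIndex.index_ne_zero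
  refine mul_left_cancel₀ h5 ?_
  rw [mul_left_comm, ← dim_subgroup N (Invt.kr hZ.eqv), ← hR,
    ← Finset.sum_fiberwise_of_maps_to fun r => Finset.mem_image_of_mem w]
  push_cast
  rw [Finset.mul_sum, Finset.mul_sum]
  refine Finset.sum_congr rfl fun c _ => ?_
  rw [mul_left_comm, ← hz, mul_left_comm, Finset.mul_sum _ _ (c : ℝ)]
  congr 1
  refine Finset.sum_congr rfl fun r h => ?_
  rw [← (Finset.mem_filter.1 h).2]
  simp [w]

end Pool.Agent.MP_54e5d7_al

end
end MrgPart2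

-- ======== part 3: formerly Pool.Agent.MP_54e5d7_al.Virt
section MrgPart3

/-!
Virtually abelian quotients and directed unions.
-/

set_option autoImplicit false

open scoped InnerProductSpace
open Classical ContinuousLinearMap MulAction

noncomputable section
namespace Pool.Agent.MP_54e5d7_al

variable {G D : Type} [Group G] [Group D] {n : ℕ}

/-- Trees with a fixed end, given by a parent map. -/
theorem rr_par (hn : 0 < n) {V : Type} [MulAction G V] [Nonempty V] {par : V → V}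
    (hpar : Eqv G par) {lev : V → ℤ} (hlev : ∀ v, lev (par v) = lev v + 1)
    (hcn : ∀ v w, ∃ a b, par^[a] v = par^[b] w) (hR : ∀ v : V, RR (stabilizer G v) n) :
    RR G n := by
  let c : Bool → V ⊕ V → V ⊕ V := fun b => match b with
    | true => fun a => Sum.inl (Sum.elim id par a)
    | false => fun a => Sum.inr (Sum.elim id id a)
  have hl : ∀ a v, lev (par^[a] v) = lev v + a := fun a v => by
    induction a with
    | zero => simp
    | succ a ih => rw [Function.iterate_succ_apply', hlev, ih]; push_cast; ring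
  let De : V → V → Prop := fun v w => ∃ a, par^[a] w = v
  have d1 : ∀ v w, De v (par w) → De v w := fun v w ⟨a, h⟩ => ⟨a + 1, h⟩
  have d2 : ∀ v w, De v w → w ≠ v → De v (par w) := by
    rintro v w ⟨_ | a, h⟩ hne
    exacts [absurd h hne, ⟨a, h⟩]
  have d3 : ∀ v, ¬De v (par v) := fun v ⟨a, h⟩ => by
    have := hl a (par v)
    rw [h, hlev] at this; omega
  have d0 : ∀ v, De v v := fun v => ⟨0, rfl⟩
  refine rr_step hn (c := c) ?_ ?_ ?_ ?_
  · rintro (_ | _) g (a | a)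
    exacts [rfl, rfl, rfl, congrArg Sum.inl (hpar g a)]
  · rintro (v | v)
    · refine ⟨{a | De v (Sum.elim id par a)}, d0 v, fun a b e h => ?_, ?_⟩
      · rwa [Set.mem_ofPred_eq, ← Sum.inl.inj e]
      · rintro (a | a) (b | b) e h hne <;> obtain rfl : a = b := Sum.inr.inj e
        · exact ⟨h, hne⟩
        · exact ⟨d2 _ _ h fun e => hne (congrArg _ e), by simp⟩
        · exact ⟨d1 _ _ h, fun e => d3 v (by rwa [Sum.inl.inj e] at h)⟩
        · exact ⟨h, hne⟩
    · refine ⟨{a | ¬De v (Sum.elim id par a)}, d3 v, fun a b e h => ?_, ?_⟩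
      · rwa [Set.mem_ofPred_eq, ← Sum.inl.inj e]
      · rintro (a | a) (b | b) e h hne <;> obtain rfl : a = b := Sum.inr.inj e
        · exact ⟨h, hne⟩
        · exact ⟨fun h' => h (d1 _ _ h'), fun e => h (by rw [Sum.inr.inj e]; exact d0 v)⟩
        · exact ⟨fun h' => h (d2 _ _ h' fun e => hne (congrArg _ e)), by simp⟩
        · exact ⟨h, hne⟩
  · have k1 : ∀ a v, Cn c (Sum.inl v) (Sum.inl (par^[a] v)) := fun a v => by
      induction a with
      | zero => exact Cn.refl _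
      | succ a ih =>
        rw [Function.iterate_succ_apply']
        exact ih.trans (Cn.trans (b := Sum.inr (par^[a] v)) (Cn.single false rfl)
          (Cn.single true rfl))
    have k2 : ∀ a, Cn c a (Sum.inl (Sum.elim id id a)) := by
      rintro (a | a) <;> exact Cn.single false rfl
    intro x y
    obtain ⟨a, b, e⟩ := hcn (Sum.elim id id x) (Sum.elim id id y)
    exact (k2 x).trans ((k1 a _).trans (e ▸ ((k2 y).trans (k1 b _)).symm))
  · rintro (v | v)
    · exact (hR v).mono (Subgroup.inclusion_injective fun g e => Sum.inl.inj e)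
    · exact (hR v).mono (Subgroup.inclusion_injective fun g e => Sum.inr.inj e)

lemma rr_line (hn : 0 < n) (φ : G →* Multiplicative ℤ) (h : RR φ.ker n) : RR G n := by
  let _ : MulAction G (Multiplicative ℤ) := MulAction.compHom _ φ
  refine rr_par hn (par := fun v => v * Multiplicative.ofAdd (1 : ℤ))
    (fun g v => mul_assoc (φ g) v _) (lev := Multiplicative.toAdd) (fun _ => rfl)
    (fun v w => ⟨(w.toAdd - v.toAdd).toNat, (v.toAdd - w.toAdd).toNat, ?_⟩) fun v =>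
      h.mono (Subgroup.inclusion_injective fun g e => mul_eq_right.1 e)
  apply Multiplicative.toAdd.injective
  simp only [mul_right_iterate, toAdd_mul, toAdd_pow, toAdd_ofAdd, nsmul_eq_mul, mul_one]
  omega

lemma rr_lattice (hn : 0 < n) (k : ℕ) : ∀ (G : Type) [Group G]
    (e : G →* Multiplicative (Fin k → ℤ)), RR e.ker n → RR G n := by
  induction k with
  | zero =>
    intro G _ e h
    exact h.mono (κ := (MonoidHom.id G).codRestrict e.ker fun g => Subsingleton.elim _ _)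
      fun a b e => congrArg Subtype.val e
  | succ k ih =>
    intro G _ e h
    let φ : G →* Multiplicative ℤ :=
      (Pi.evalAddMonoidHom (fun _ : Fin (k + 1) => ℤ) 0).toMultiplicative.comp e
    let e' : φ.ker →* Multiplicative (Fin k → ℤ) := ((AddMonoidHom.pi fun i : Fin k =>
      Pi.evalAddMonoidHom (fun _ : Fin (k + 1) => ℤ) i.succ).toMultiplicative.comp e).comp
        φ.ker.subtype
    refine rr_line hn φ (ih _ e' (h.mono
      (κ := (φ.ker.subtype.comp e'.ker.subtype).codRestrict e.ker fun g => ?_) fun a b e => ?_))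
    · refine Multiplicative.toAdd.injective (funext fun i => ?_)
      refine Fin.cases ?_ (fun i => ?_) i
      · exact congrArg Multiplicative.toAdd g.1.2
      · exact congrFun (congrArg Multiplicative.toAdd g.2) i
    · have := congrArg Subtype.val e
      exact Subtype.ext (Subtype.ext this)

theorem ss_of_finiteIndex {Λ : Type} [MulAction G Λ] (hn : 0 < n) (N : Subgroup G) [N.Normal]
    [N.FiniteIndex] (hAC : AC0 N n) (hSS : SS N fun _ : Λ => ()) : SS G fun _ : Λ => () := by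
  intro Ω _ _ l hl L iL lL r U hU
  have := fc_subgroup (Ω := Ω) N
  obtain ⟨E, hE, hE'⟩ := exists_coset_reps N
  have hU' : Alg N (fun _ => ()) U := by
    have := alg_res (ι := N.subtype) (σ := fun _ : Unit => ()) (l' := fun _ => ())
      Subtype.val_injective (fun _ _ => rfl) (fun _ _ _ => rfl) (j := Function.Embedding.refl Ω)
      (fun _ _ => rfl) (fun _ => rfl) (fun ω _ => ⟨ω, rfl⟩) hE (fun h _ _ _ => hE' h) hU
    rwa [push_refl] at this
  have iL' := iL.subgroup N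
  have hlN : Eqv N l := fun k ω => hl k ω
  obtain ⟨W, hW⟩ := exists_isMin (H := N) hn hlN (fun U h => hAC Ω U h.unit) iL' r
  have iW := hW.alg.invt
  have h1 : Invt G W := fun g ξ hξ => by
    have a1 : Alg N l (W.map (u g)) := by
      have := alg_ind (σ := fun x : Λ => g • x) (MulAut.conjNormal (H := N) g).injective
        (isInd_conj (Ω := Λ) N g).eqv (isInd_conj N g).eqv hlN
        (fun a => hl g a) hW.alg
      convert this using 1
      apply le_antisymm
      · rw [map_le]; intro ξ h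
        have := mem_Ind (j := (toPerm g : Equiv.Perm Ω).toEmbedding) (1 : N) h
        rwa [u_one, ← u_eq_push] at this
      · refine Ind_le fun k ξ h => invt_map_u N g iW k _ ?_
        rw [← u_eq_push]; exact mem_map h
    have := hW.sym a1 (dim_map_u N g iW) (by
      rw [← dim_map_u N g (iW.inf iL')]
      exact dim_mono (map_le.2 fun η hη => ⟨mem_map hη.1, iL g η hη.2⟩))
    rw [this]; exact mem_map hξ
  refine ⟨W, ?_, ?_⟩
  · have := alg_ind (ι := N.subtype) (σ := fun y : Λ => y) Subtype.val_injective (fun _ _ => rfl)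
      (j := Function.Embedding.refl Ω) (fun _ _ => rfl) hl (fun _ => rfl) hW.alg
    convert this using 1
    apply le_antisymm
    · intro ξ h
      have := mem_Ind (j := Function.Embedding.refl Ω) (1 : G) h
      rwa [u_one, push_refl] at this
    · refine Ind_le fun k ξ h => h1 k _ ?_
      rw [push_refl]; exact h
  · obtain ⟨W', a1, a2⟩ := hSS Ω l hlN L iL' lL r U hU'
    have h4 := a2.trans (hW.max W' a1)
    simp only [gf] at h4 ⊢
    rw [dim_subgroup N (hU.invt.inf iL), dim_subgroup N hU.invt, dim_subgroup N (h1.inf iL),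
      dim_subgroup N h1] at h4
    have h5 : (0 : ℝ) < N.index := by
      exact_mod_cast Nat.pos_of_ne_zero Subgroup.FiniteIndex.index_ne_zero
    refine le_of_mul_le_mul_left ?_ h5
    linarith

lemma RR.sub {S : Subgroup G} (hS : RR S n) {π : D →* G} (hπ : FinHyp n π) (N : Subgroup D)
    (h : ∀ d ∈ N, π d ∈ S) : AC0 N n ∧ ∀ (Λ : Type) [MulAction N Λ],
      (∀ d : N, π d = 1 → ∀ x : Λ, d • x = x) → SS N fun _ : Λ => () := by
  obtain ⟨h1, h2⟩ := hS N ((π.comp N.subtype).codRestrict S fun k => h k k.2)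
    (FinHyp.of_comp (κ := S.subtype) (hπ.comp (ι := N.subtype) Subtype.val_injective))
  exact ⟨h1, fun Λ _ hΛ => h2 Λ fun d hd => hΛ d (congrArg Subtype.val hd)⟩

lemma exists_aff {Q : Type} [Group Q] (A : Subgroup Q) {k : ℕ}
    (e : A →* Multiplicative (Fin k → ℤ)) :
    ∃ (X : Type) (_ : MulAction Q X) (_ : MulAction Q ((Q ⧸ A) × Fin k))
      (co : X ≃ ((Q ⧸ A) × Fin k → ℤ)), Aff Q co ∧ ∀ (x : X) (a : A), (a : Q) • x = x → e a = 1 := by
  let X := {φ : Q → Fin k → ℤ // ∀ q (a : A), φ (q * a) = φ q - (e a).toAdd}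
  let _ : MulAction Q X :=
    { smul := fun g φ => ⟨fun q => φ.1 (g⁻¹ * q), fun q a => by simp only [← mul_assoc, φ.2]⟩
      one_smul := fun φ => Subtype.ext (funext fun q => by change φ.1 (1⁻¹ * q) = _; simp)
      mul_smul := fun g h φ => Subtype.ext (funext fun q => by
        change φ.1 ((g * h)⁻¹ * q) = φ.1 (h⁻¹ * (g⁻¹ * q)); simp [mul_assoc]) }
  let i2 : MulAction Q ((Q ⧸ A) × Fin k) :=
    { smul := fun g p => (g • p.1, p.2)
      one_smul := fun p => Prod.ext (one_smul Q p.1) rfl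
      mul_smul := fun g h p => Prod.ext (mul_smul g h p.1) rfl }
  have ha : ∀ q : Q, (q : Q ⧸ A).out⁻¹ * q ∈ A := fun q =>
    QuotientGroup.eq.1 (QuotientGroup.out_eq' _)
  refine ⟨X, inferInstance, i2,
    { toFun := fun φ p => φ.1 p.1.out p.2
      invFun := fun v => ⟨fun q j => v (q, j) - (e ⟨_, ha q⟩).toAdd j, fun q a => ?_⟩
      left_inv := fun φ => Subtype.ext (funext fun q => funext fun j => ?_)
      right_inv := fun v => funext fun p => ?_ }, fun g x y p => ?_, fun x a h => ?_⟩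
  · have e1 : ((q * a : Q) : Q ⧸ A) = q := QuotientGroup.mk_mul_of_mem q a.2
    have e2 : (⟨_, ha (q * a)⟩ : A) = ⟨_, ha q⟩ * a := Subtype.ext (by simp [e1, mul_assoc])
    funext j
    simp only [e2]
    simp only [e1, map_mul, toAdd_mul, Pi.add_apply, Pi.sub_apply]
    ring
  · have := congrFun (φ.2 (q : Q ⧸ A).out ⟨_, ha q⟩) j
    simpa using this.symm
  · have e2 : (⟨_, ha p.1.out⟩ : A) = 1 := Subtype.ext (by simp)
    simp only [e2]
    simp
  · change x.1 (g⁻¹ * (g • p.1).out) p.2 - y.1 (g⁻¹ * (g • p.1).out) p.2 =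
      x.1 p.1.out p.2 - y.1 p.1.out p.2
    have h1 : p.1.out⁻¹ * (g⁻¹ * (g • p.1).out) ∈ A := by
      rw [← QuotientGroup.eq, ← smul_eq_mul, ← Quotient.smul_mk, QuotientGroup.out_eq',
        QuotientGroup.out_eq', inv_smul_smul]
    have h2 := x.2 p.1.out ⟨_, h1⟩
    have h3 := y.2 p.1.out ⟨_, h1⟩
    simp only [mul_inv_cancel_left] at h2 h3
    simp [h2, h3]
  · have h1 : x.1 ((a : Q)⁻¹ * a) = x.1 a := congrFun (congrArg Subtype.val h) (a : Q)
    have h2 := x.2 1 a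
    rw [inv_mul_cancel] at h1
    rw [one_mul, ← h1] at h2
    exact Multiplicative.toAdd.injective (by simpa using h2.symm)

theorem rr_virt (hn : 0 < n) {Q : Type} [Group Q] (π : G →* Q) (A : Subgroup Q) [A.FiniteIndex]
    {k : ℕ} (e : A →* Multiplicative (Fin k → ℤ)) (he : Function.Injective e)
    (h : ∀ E : Subgroup Q, Finite E → RR (E.comap π) n) : RR G n := by
  intro D _ ρ hρ
  constructor
  · obtain ⟨X, _, _, co, h1, h2⟩ := exists_aff A e
    let _ : MulAction D X := MulAction.compHom _ (π.comp ρ)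
    let _ : MulAction D ((Q ⧸ A) × Fin k) := MulAction.compHom _ (π.comp ρ)
    have := Fintype.ofFinite ((Q ⧸ A) × Fin k)
    refine euclid (co := co) hn (fun g => h1 (π (ρ g))) fun x =>
      ((h (stabilizer Q x) ?_).sub hρ _ fun d hd => hd).1
    refine Finite.of_injective (fun g : stabilizer Q x => ((g : Q) : Q ⧸ A)) fun a b hab => ?_
    have h3 := he ((h2 x ⟨_, QuotientGroup.eq.1 hab⟩ (mul_mem (inv_mem a.2) b.2)).trans
      (map_one e).symm)
    exact Subtype.ext (inv_mul_eq_one.1 (congrArg Subtype.val h3))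
  · intro Λ _ hΛ
    let S := A.normalCore.comap π
    let e' : S →* Multiplicative (Fin k → ℤ) :=
      e.comp ((π.comp S.subtype).codRestrict A fun g => A.normalCore_le g.2)
    have hS : RR S n := rr_lattice hn k S e' ((h ⊥ inferInstance).mono
      (κ := (S.subtype.comp e'.ker.subtype).codRestrict _ fun g =>
        congrArg Subtype.val (he (g.2.trans (map_one e).symm))) fun a b e => by
      have := congrArg Subtype.val e
      exact Subtype.ext (Subtype.ext this))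
    have : (A.normalCore.comap (π.comp ρ)).FiniteIndex := by
      refine ⟨?_⟩
      rw [Subgroup.index_comap]
      exact Subgroup.FiniteIndex.index_ne_zero
    obtain ⟨h1, h2⟩ := hS.sub hρ (A.normalCore.comap (π.comp ρ)) fun d hd => hd
    exact ss_of_finiteIndex hn _ h1 (h2 Λ fun d hd => hΛ d hd)

end Pool.Agent.MP_54e5d7_al

end
end MrgPart3

-- ======== part 4: formerly Pool.Agent.MP_54e5d7_al.Union
section MrgPart4

/-!
Directed unions.
-/

set_option autoImplicit false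

open scoped InnerProductSpace
open Classical ContinuousLinearMap MulAction

noncomputable section
namespace Pool.Agent.MP_54e5d7_al

variable {G D : Type} [Group G] [Group D] {n : ℕ}

lemma exists_stab_inj (S : Subgroup G) (c : G ⧸ S) :
    ∃ κ : stabilizer G c →* S, Function.Injective κ := by
  obtain ⟨g, rfl⟩ := QuotientGroup.mk_surjective c
  refine ⟨((MulAut.conj g⁻¹).toMonoidHom.comp (stabilizer G _).subtype).codRestrict S fun x => ?_,
    fun a b e => ?_⟩
  · have : ((g : G) : G ⧸ S) = ((x * g : G) : G ⧸ S) := Eq.symm x.2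
    simpa [mul_assoc] using QuotientGroup.eq.1 this
  · have := congrArg Subtype.val e
    exact Subtype.ext ((MulAut.conj g⁻¹).injective this)

lemma rr_chain (hn : 0 < n) (S : ℕ → Subgroup G) (hm : Monotone S) (hU : ∀ g, ∃ j, g ∈ S j)
    (h : ∀ j, RR (S j) n) : RR G n := by
  have : Nonempty (Σ j, G ⧸ S j) := ⟨⟨0, (1 : G)⟩⟩
  let par : (Σ j, G ⧸ S j) → Σ j, G ⧸ S j := fun v =>
    ⟨v.1 + 1, Subgroup.quotientMapOfLE (hm (Nat.le_succ _)) v.2⟩
  have key : ∀ a j (g : G), par^[a] ⟨j, g⟩ = ⟨j + a, g⟩ := fun a j g => by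
    induction a with
    | zero => rfl
    | succ a ih => rw [Function.iterate_succ_apply', ih]; rfl
  refine rr_par hn (par := par) ?_ (lev := fun v => v.1) (fun v => Nat.cast_succ _) ?_ ?_
  · rintro g ⟨j, c⟩
    obtain ⟨x, rfl⟩ := QuotientGroup.mk_surjective c
    rfl
  · rintro ⟨i, c⟩ ⟨j, c'⟩
    obtain ⟨x, rfl⟩ := QuotientGroup.mk_surjective c
    obtain ⟨y, rfl⟩ := QuotientGroup.mk_surjective c'
    obtain ⟨m, hxy⟩ := hU (x⁻¹ * y)
    refine ⟨j + m, i + m, ?_⟩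
    rw [key, key, add_left_comm j]
    exact congrArg _ (QuotientGroup.eq.2 (hm (by omega) hxy))
  · rintro ⟨j, c⟩
    obtain ⟨κ, hκ⟩ := exists_stab_inj (S j) c
    exact ((h j).mono hκ).mono (Subgroup.inclusion_injective fun g e =>
      eq_of_heq (Sigma.mk.inj e).2)

lemma rr_countable (hn : 0 < n) [Countable G] (h : ∀ S : Subgroup G, S.FG → RR S n) : RR G n := by
  obtain ⟨f, hf⟩ := exists_surjective_nat G
  refine rr_chain hn (fun j => Subgroup.closure (f '' Set.Iic j))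
    (fun _ _ e => Subgroup.closure_mono (Set.image_mono (Set.Iic_subset_Iic.2 e))) (fun g => ?_)
    fun j => h _ ((Subgroup.fg_iff _).2 ⟨_, rfl, (Set.finite_Iic j).image f⟩)
  obtain ⟨j, rfl⟩ := hf g
  exact ⟨j, Subgroup.subset_closure ⟨j, le_refl j, rfl⟩⟩

lemma countable_closure {A : Set G} (hA : A.Countable) : Countable (Subgroup.closure A) := by
  have := hA.to_subtype
  have h := FreeGroup.range_lift_eq_closure (f := (Subtype.val : A → G))
  rw [Subtype.range_coe] at h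
  rw [← h]
  exact (Set.countable_range _).to_subtype

lemma countable_supp {Ω : Type} (ξ : L2 Ω) : {ω | ev ω ξ ≠ 0}.Countable :=
  (hasSum_norm_sq ξ).summable.countable_support.mono fun ω h => by simpa using h

lemma exists_countable_loc {Ω : Type} [MulAction D Ω] [FC D Ω] {R : Ω → Ω → Prop}
    (hR : ∀ (g : D) a b, R a b → R (g • a) (g • b)) (hc : ∀ a, {b | R a b}.Countable) :
    ∃ (S : Subgroup D) (m : Ω → D ⧸ S), Countable S ∧ Eqv D m ∧ ∀ a b, R a b → m a = m b := by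
  choose g hg using exists_smul_out D (Ω := Ω)
  have hg' : ∀ (k : D) a, g (k • a) = k * g a := fun k a => by
    have h1 := hg (k • a)
    rw [cls_smul] at h1
    exact FC.smul_inj (ω := (cls D a).out) (by rw [h1, mul_smul, hg])
  refine ⟨Subgroup.closure (g '' ⋃ q : Q D Ω, {b | R q.out b}), fun ω => g ω,
    countable_closure ((Set.countable_iUnion fun q => hc _).image g),
    fun k a => by simp only [hg']; rfl, fun a b h => QuotientGroup.eq.2 ?_⟩
  refine Subgroup.subset_closure ⟨(g a)⁻¹ • b, Set.mem_iUnion.2 ⟨cls D a, ?_⟩, hg' _ _⟩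
  have := hR (g a)⁻¹ _ _ h
  rwa [inv_smul_eq_iff.2 (hg a).symm] at this

theorem rr_locally (hn : 0 < n) (h : ∀ S : Subgroup G, S.FG → RR S n) : RR G n := by
  have h1 : ∀ S : Subgroup G, Countable S → RR S n := fun S _ => rr_countable hn fun T hT =>
    (h (T.map S.subtype) ((Subgroup.fg_iff_submonoid_fg _).2
      (((Subgroup.fg_iff_submonoid_fg _).1 hT).map _))).mono
      (κ := (T.equivMapOfInjective _ Subtype.val_injective).toMonoidHom) (MulEquiv.injective _)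
  intro D _ ρ hρ
  have key : ∀ (Λ : Type) [MulAction D Λ], (∀ d, ρ d = 1 → ∀ x : Λ, d • x = x) →
      ∀ (Ω : Type) [MulAction D Ω] [FC D Ω] (l : Ω → Λ), Eqv D l → ∀ L : CS Ω, Invt D L → Loc l L →
      ∀ U : CS Ω, Alg D (fun _ => ()) U → (∃ z : ℤ, n * dim D U = z) ∧
        ∀ r, ∃ W, Alg D l W ∧ gf D L r U ≤ gf D L r W := by
    rintro Λ _ hΛ Ω _ _ l hl L iL lL _ ⟨Ω₁, _, _, l₁, j, Z, -, h2, -, h4, rfl⟩
    obtain ⟨S, m, _, em, hm⟩ := exists_countable_loc (D := D) (R := fun a b =>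
      ev b (Z (dl a)) ≠ 0 ∨ ∃ ω ω', j ω = a ∧ j ω' = b ∧ ev ω' (pr L (dl ω)) ≠ 0) (by
        rintro g a b (e | ⟨ω, ω', rfl, rfl, e⟩)
        · exact Or.inl (by rwa [h4.eqv.entry])
        · exact Or.inr ⟨g • ω, g • ω', h2 _ _, h2 _ _, by rwa [iL.pr.entry]⟩) fun a => by
      refine (countable_supp _).union (Set.Countable.mono ?_
        ((countable_supp (pr L (pull j (dl a)))).image j))
      rintro _ ⟨ω, ω', rfl, rfl, e⟩
      exact ⟨ω', by rwa [pull_dl], rfl⟩
    obtain ⟨a1, a2⟩ := good hρ (c := (Prod.snd : Λ × (D ⧸ S) → D ⧸ S)) Eqv.snd (fun φ => by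
      obtain ⟨κ, hκ⟩ := exists_stab_inj S φ.2
      have := hκ.countable
      exact ⟨(stabilizer D φ.2).map ρ, h1 _ (ρ.subgroupMap_surjective _).countable,
        fun d hd => ⟨d, hd, rfl⟩⟩) fun d φ e e' => Prod.ext (hΛ d e _) e'
    have el := hl.prod (em.comp h2)
    have aU : Alg D (fun ω => m (j ω)) ((kr Z).map (pull j)) :=
      ⟨Ω₁, _, inferInstance, m, j, Z, em, h2, fun _ => rfl,
        h4.self.mono fun a b e => hm a b (Or.inl e), rfl⟩
    refine ⟨a1 Ω _ el _ aU, fun r => ?_⟩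
    obtain ⟨W, b1, b2⟩ := a2 Ω _ el L iL (Loc.of_ent_pr fun a b e =>
      Prod.ext (lL.ent_pr a b e) (hm _ _ (Or.inr ⟨a, b, rfl, rfl, e⟩))) r _ aU
    exact ⟨W, b1.coarse Eqv.fst, b2⟩
  exact ⟨fun Ω _ _ V hV => (key Unit (fun _ _ _ => rfl) Ω _ Eqv.unit ⊤ Invt.top Loc.top V hV).1,
    fun Λ _ hΛ Ω _ _ l hl L iL lL r U hU => (key Λ hΛ Ω l hl L iL lL U hU).2 r⟩

lemma Hier.rr (h : Hier G) (hn : 0 < n) : RR G n := by
  induction h with
  | finite G => exact rr_finite hn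
  | tree G X T hT hadj hinv _ ih => exact rr_tree hn T hT hadj hinv ih
  | virtAb G Q π A k e he _ ih => exact rr_virt hn π A e he ih
  | locally G _ ih => exact rr_locally hn ih

end Pool.Agent.MP_54e5d7_al

end
end MrgPart4

-- marker of a merged file
example : 731051 + 519453 = 731051 + 519453 := rfl
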